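import Pool.Agent.NH77.MS.Stm

/-!
# The combinatorial lemma on words and types
-/

set_option autoImplicit false

namespace Pool.Agent.NH77.MS.Branch

open Finset Pool.Agent.NH77.MS

open scoped Classical

section Count

variable {B : Type}

/-- the list of the first `j` letters -/
def R (j : ℕ) (w : ℕ → B) : List B := (List.range j).map w

theorem R_eq {j : ℕ} {w w' : ℕ → B} : R j w = R j w' ↔ ∀ i < j, w i = w' i := by
  unfold R
  rw [List.map_inj_left]
  simp only [List.mem_range]

theorem R_succ (j : ℕ) (w : ℕ → B) : R (j + 1) w = R j w ++ [w j] := by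
  unfold R
  rw [List.range_succ, List.map_append]
  rfl

theorem count (G : Finset (ℕ → B)) (k : ℕ)
    (hdet : ∀ w ∈ G, ∀ w' ∈ G, (∀ i < k, w i = w' i) → w = w') (c : ℕ → ℕ)
    (h : ∀ w ∈ G, ∀ j < k,
      ((G.filter (fun w' => ∀ i < j, w' i = w i)).image (fun w' => w' j)).card ≤ c j) :
    G.card ≤ ∏ j ∈ range k, c j := by
  have key : ∀ j, j ≤ k → (G.image (R j)).card ≤ ∏ i ∈ range j, c i := by
    intro j hj
    induction j with
    | zero =>
      rw [range_zero, prod_empty]
      refine card_le_one.2 ?_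
      intro x hx y hy
      obtain ⟨w, _, rfl⟩ := mem_image.1 hx
      obtain ⟨w', _, rfl⟩ := mem_image.1 hy
      rfl
    | succ j ih =>
      rw [prod_range_succ]
      have hsub : G.image (R (j + 1)) ⊆ (G.image (R j)).biUnion (fun y =>
          ((G.filter (fun w' => R j w' = y)).image (fun w' => w' j)).image (fun b => y ++ [b])) := by
        intro x hx
        obtain ⟨w, hw, rfl⟩ := mem_image.1 hx
        rw [mem_biUnion]
        refine ⟨R j w, mem_image_of_mem _ hw, ?_⟩
        rw [mem_image]
        refine ⟨w j, mem_image.2 ⟨w, mem_filter.2 ⟨hw, rfl⟩, rfl⟩, (R_succ j w).symm⟩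
      refine (card_le_card hsub).trans ((card_biUnion_le_card_mul _ _ (c j) ?_).trans
        (Nat.mul_le_mul_right _ (ih (by omega))))
      intro y hy
      obtain ⟨w, hw, rfl⟩ := mem_image.1 hy
      refine card_image_le.trans ((card_le_card ?_).trans (h w hw j (by omega)))
      refine image_subset_image ?_
      intro w' hw'
      rw [mem_filter] at hw' ⊢
      exact ⟨hw'.1, R_eq.1 hw'.2⟩
  have hinj : (G.image (R k)).card = G.card := by
    refine card_image_of_injOn ?_
    intro w hw w' hw' hww
    exact hdet w hw w' hw' (R_eq.1 hww)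
  rw [← hinj]
  exact key k le_rfl

end Count

section HHc

variable {B : Type} (bad : (ℕ → B) → ℕ → Prop) (k : ℕ) (ν : ℝ) (w : ℕ → B)

theorem ncard_eq (i r : ℕ) : ({j | i ≤ j ∧ j < i + r ∧ bad w j} : Set ℕ).ncard =
    ((Ico i (i + r)).filter (bad w)).card := by
  rw [← Set.ncard_coe_finset]
  congr 1
  ext j
  rw [mem_coe, mem_filter, mem_Ico]
  constructor
  · rintro ⟨h1, h2, h3⟩
    exact ⟨⟨h1, h2⟩, h3⟩
  · rintro ⟨⟨h1, h2⟩, h3⟩
    exact ⟨h1, h2, h3⟩

theorem nonHH_card (hν : 0 < ν) : ∀ n i, i + n = k →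
    ν * (((Ico i k).filter (fun j => ¬ HH bad k ν w j)).card : ℝ) ≤
      (((Ico i k).filter (bad w)).card : ℝ) := by
  intro n
  induction n using Nat.strong_induction_on with
  | _ n ih =>
    intro i hi
    rcases Nat.eq_zero_or_pos n with hn | hn
    · have : Ico i k = ∅ := by
        rw [Ico_eq_empty_iff]; omega
      rw [this]
      simp
    by_cases hH : HH bad k ν w i
    · have h1 := ih (n - 1) (by omega) (i + 1) (by omega)
      have e1 : ((Ico i k).filter (fun j => ¬ HH bad k ν w j)) ⊆
          ((Ico (i + 1) k).filter (fun j => ¬ HH bad k ν w j)) := by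
        intro j hj
        rw [mem_filter, mem_Ico] at hj ⊢
        refine ⟨⟨?_, hj.1.2⟩, hj.2⟩
        rcases Nat.lt_or_ge i j with h | h
        · exact h
        · exfalso
          have : j = i := by omega
          rw [this] at hj
          exact hj.2 hH
      have e2 : ((Ico (i + 1) k).filter (bad w)) ⊆ ((Ico i k).filter (bad w)) := by
        refine filter_subset_filter _ ?_
        exact Ico_subset_Ico (by omega) le_rfl
      have f1 : (((Ico i k).filter (fun j => ¬ HH bad k ν w j)).card : ℝ) ≤
          (((Ico (i + 1) k).filter (fun j => ¬ HH bad k ν w j)).card : ℝ) := by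
        exact_mod_cast card_le_card e1
      have f2 : (((Ico (i + 1) k).filter (bad w)).card : ℝ) ≤ (((Ico i k).filter (bad w)).card : ℝ) := by
        exact_mod_cast card_le_card e2
      nlinarith
    · unfold HH at hH
      push Not at hH
      obtain ⟨r, hr1, hrk, hr⟩ := hH
      rw [ncard_eq] at hr
      have h1 := ih (n - r) (by omega) (i + r) (by omega)
      have e1 : (Ico i k).filter (fun j => ¬ HH bad k ν w j) ⊆
          Ico i (i + r) ∪ (Ico (i + r) k).filter (fun j => ¬ HH bad k ν w j) := by
        intro j hj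
        rw [mem_filter, mem_Ico] at hj
        rw [mem_union, mem_filter, mem_Ico, mem_Ico]
        rcases Nat.lt_or_ge j (i + r) with h | h
        · exact Or.inl ⟨hj.1.1, h⟩
        · exact Or.inr ⟨⟨h, hj.1.2⟩, hj.2⟩
      have f1 : ((Ico i k).filter (fun j => ¬ HH bad k ν w j)).card ≤
          r + ((Ico (i + r) k).filter (fun j => ¬ HH bad k ν w j)).card := by
        refine (card_le_card e1).trans ((card_union_le _ _).trans ?_)
        rw [Nat.card_Ico]
        omega
      have e2 : (Ico i (i + r)).filter (bad w) ∪ (Ico (i + r) k).filter (bad w) ⊆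
          (Ico i k).filter (bad w) := by
        intro j hj
        rw [mem_union, mem_filter, mem_filter, mem_Ico, mem_Ico] at hj
        rw [mem_filter, mem_Ico]
        rcases hj with h | h
        · exact ⟨⟨h.1.1, by omega⟩, h.2⟩
        · exact ⟨⟨by omega, h.1.2⟩, h.2⟩
      have f2 : ((Ico i (i + r)).filter (bad w)).card + ((Ico (i + r) k).filter (bad w)).card ≤
          ((Ico i k).filter (bad w)).card := by
        rw [← card_union_of_disjoint]
        · exact card_le_card e2
        · rw [disjoint_left]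
          intro j h1 h2
          rw [mem_filter, mem_Ico] at h1 h2
          omega
      have g1 : (((Ico i k).filter (fun j => ¬ HH bad k ν w j)).card : ℝ) ≤
          r + (((Ico (i + r) k).filter (fun j => ¬ HH bad k ν w j)).card : ℝ) := by
        exact_mod_cast f1
      have g2 : (((Ico i (i + r)).filter (bad w)).card : ℝ) +
          (((Ico (i + r) k).filter (bad w)).card : ℝ) ≤ (((Ico i k).filter (bad w)).card : ℝ) := by
        exact_mod_cast f2
      nlinarith

end HHc

section Main

variable {B T : Type} (k a l q Q e0 e1 : ℕ) (ν : ℝ) (F : Finset (ℕ → B))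
  (bad : (ℕ → B) → ℕ → Prop) (ty : (ℕ → B) → ℕ → T)

/-- the good positions of type `τ` -/
noncomputable def P (w : ℕ → B) (τ : T) : Finset ℕ :=
  (range (k + 1)).filter (fun i => l ≤ i ∧ i + q ≤ k ∧ HH bad k ν w i ∧ ty w i = τ)

theorem mem_P {w : ℕ → B} {τ : T} {i : ℕ} : i ∈ P k l q ν bad ty w τ ↔
    l ≤ i ∧ i + q ≤ k ∧ HH bad k ν w i ∧ ty w i = τ := by
  rw [P, mem_filter, mem_range]
  constructor
  · exact fun h => h.2
  · exact fun h => ⟨by omega, h⟩

/-- the first good position of type `τ` -/
noncomputable def fst (w : ℕ → B) (τ : T) : ℕ := sInf (P k l q ν bad ty w τ : Set ℕ)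

/-- the last good position of type `τ` -/
noncomputable def lst (w : ℕ → B) (τ : T) : ℕ := (P k l q ν bad ty w τ).sup id

theorem fst_mem {w : ℕ → B} {τ : T} (h : (P k l q ν bad ty w τ).Nonempty) :
    fst k l q ν bad ty w τ ∈ P k l q ν bad ty w τ := by
  have := Nat.sInf_mem (s := (P k l q ν bad ty w τ : Set ℕ)) (by exact_mod_cast h)
  exact_mod_cast this

theorem fst_le {w : ℕ → B} {τ : T} {i : ℕ} (h : i ∈ P k l q ν bad ty w τ) :
    fst k l q ν bad ty w τ ≤ i := Nat.sInf_le (by exact_mod_cast h)

theorem le_lst {w : ℕ → B} {τ : T} {i : ℕ} (h : i ∈ P k l q ν bad ty w τ) :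
    i ≤ lst k l q ν bad ty w τ := le_sup (f := id) h

theorem lst_mem {w : ℕ → B} {τ : T} (h : (P k l q ν bad ty w τ).Nonempty) :
    lst k l q ν bad ty w τ ∈ P k l q ν bad ty w τ := by
  obtain ⟨i, hi, hi'⟩ := exists_mem_eq_sup _ h id
  have : lst k l q ν bad ty w τ = i := hi'
  rw [this]; exact hi

theorem P_lt {w : ℕ → B} {τ : T} {i : ℕ} (h : i ∈ P k l q ν bad ty w τ) : i < k + 1 := by
  rw [P, mem_filter, mem_range] at h
  exact h.1

theorem fst_lt (w : ℕ → B) (τ : T) : fst k l q ν bad ty w τ < k + 1 := by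
  rcases (P k l q ν bad ty w τ).eq_empty_or_nonempty with h | h
  · rw [fst, h]; simp
  · exact P_lt _ _ _ _ _ _ (fst_mem _ _ _ _ _ _ h)

theorem lst_lt (w : ℕ → B) (τ : T) : lst k l q ν bad ty w τ < k + 1 := by
  rcases (P k l q ν bad ty w τ).eq_empty_or_nonempty with h | h
  · rw [lst, h]; simp
  · exact P_lt _ _ _ _ _ _ (lst_mem _ _ _ _ _ _ h)

theorem nonempty_of_lt {w : ℕ → B} {τ : T}
    (h : fst k l q ν bad ty w τ < lst k l q ν bad ty w τ) : (P k l q ν bad ty w τ).Nonempty := by
  rcases (P k l q ν bad ty w τ).eq_empty_or_nonempty with h' | h'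
  · exfalso
    have : lst k l q ν bad ty w τ = 0 := by rw [lst, h']; simp
    omega
  · exact h'

/-- the number of words with many bad positions -/
theorem many (ha : 2 ≤ a) (he : e0 ≤ k)
    (hdet : ∀ w ∈ F, ∀ w' ∈ F, (∀ i < k, w i = w' i) → w = w')
    (hbr : ∀ w ∈ F, ∀ j < k,
      ((F.filter (fun w' => ∀ i < j, w' i = w i)).image (fun w' => w' j)).card ≤ a)
    (hbad : ∀ w ∈ F, ∀ j < k,
      ((F.filter (fun w' => (∀ i < j, w' i = w i) ∧ bad w' j)).image (fun w' => w' j)).card ≤ 2) :
    (F.filter (fun w => e0 ≤ ((range k).filter (bad w)).card)).card ≤ 4 ^ k * a ^ (k - e0) := by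
  have hsub : F.filter (fun w => e0 ≤ ((range k).filter (bad w)).card) ⊆
      ((range k).powerset.filter (fun J => e0 ≤ J.card)).biUnion
        (fun J => F.filter (fun w => (range k).filter (bad w) = J)) := by
    intro w hw
    rw [mem_filter] at hw
    rw [mem_biUnion]
    refine ⟨(range k).filter (bad w), mem_filter.2 ⟨mem_powerset.2 (filter_subset _ _), hw.2⟩, ?_⟩
    exact mem_filter.2 ⟨hw.1, rfl⟩
  have h1 : ∀ J ∈ (range k).powerset.filter (fun J => e0 ≤ J.card),
      (F.filter (fun w => (range k).filter (bad w) = J)).card ≤ 2 ^ k * a ^ (k - e0) := by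
    intro J hJ
    rw [mem_filter, mem_powerset] at hJ
    have hc := count (F.filter (fun w => (range k).filter (bad w) = J)) k
      (fun w hw w' hw' h => hdet w (mem_filter.1 hw).1 w' (mem_filter.1 hw').1 h)
      (fun j => if j ∈ J then 2 else a) (by
        intro w hw j hj
        rw [mem_filter] at hw
        by_cases hjJ : j ∈ J
        · simp only [if_pos hjJ]
          refine (card_le_card ?_).trans (hbad w hw.1 j hj)
          refine image_subset_image ?_
          intro w' hw'
          rw [mem_filter, mem_filter] at hw'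
          rw [mem_filter]
          refine ⟨hw'.1.1, hw'.2, ?_⟩
          have h2 : j ∈ (range k).filter (bad w') := by rw [hw'.1.2]; exact hjJ
          exact (mem_filter.1 h2).2
        · simp only [if_neg hjJ]
          refine (card_le_card ?_).trans (hbr w hw.1 j hj)
          refine image_subset_image ?_
          intro w' hw'
          rw [mem_filter, mem_filter] at hw'
          rw [mem_filter]
          exact ⟨hw'.1.1, hw'.2⟩)
    refine hc.trans ?_
    rw [prod_ite, prod_const, prod_const]
    have e1' : (range k).filter (fun j => j ∈ J) = J := by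
      rw [filter_mem_eq_inter]
      exact inter_eq_right.2 hJ.1
    have hJk : J.card ≤ k := by
      have := card_le_card hJ.1
      rwa [card_range] at this
    have e2' : ((range k).filter (fun j => j ∉ J)).card = k - J.card := by
      have h3 := card_filter_add_card_filter_not (s := range k) (p := fun j => j ∈ J)
      rw [e1', card_range] at h3
      omega
    rw [e1', e2']
    exact Nat.mul_le_mul (Nat.pow_le_pow_right (by norm_num) hJk)
      (Nat.pow_le_pow_right (by omega) (by omega))
  refine (card_le_card hsub).trans ((card_biUnion_le_card_mul _ _ _ h1).trans ?_)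
  have h2 : ((range k).powerset.filter (fun J => e0 ≤ J.card)).card ≤ 2 ^ k := by
    refine (card_filter_le _ _).trans ?_
    rw [card_powerset, card_range]
  calc ((range k).powerset.filter (fun J => e0 ≤ J.card)).card * (2 ^ k * a ^ (k - e0))
      ≤ 2 ^ k * (2 ^ k * a ^ (k - e0)) := Nat.mul_le_mul_right _ h2
    _ = 4 ^ k * a ^ (k - e0) := by
      rw [← mul_assoc, ← mul_pow]; norm_num

/-- a word with few bad positions has few positions where `HH` fails -/
theorem few_nonHH (hν : 0 < ν) (he : (e0 : ℝ) ≤ ν * e1) (w : ℕ → B)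
    (hw : ((range k).filter (bad w)).card < e0) :
    ((range k).filter (fun j => ¬ HH bad k ν w j)).card ≤ e1 := by
  have h := nonHH_card bad k ν w hν k 0 (by omega)
  rw [← range_eq_Ico] at h
  have h2 : (((range k).filter (bad w)).card : ℝ) < e0 := by exact_mod_cast hw
  have h3 : ν * (((range k).filter (fun j => ¬ HH bad k ν w j)).card : ℝ) < ν * e1 := by linarith
  have h4 := lt_of_mul_lt_mul_left h3 hν.le
  have h5 : ((range k).filter (fun j => ¬ HH bad k ν w j)).card < e1 := by exact_mod_cast h4
  exact h5.le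

/-- the positions covered by the intervals between the first and the last good position -/
def Cov (Ty : Finset T) (w : ℕ → B) (j : ℕ) : Prop :=
  ∃ τ ∈ Ty, fst k l q ν bad ty w τ ≤ j ∧ j < lst k l q ν bad ty w τ

theorem not_cov (Ty : Finset T) (hTy : Ty.card ≤ Q) (hν : 0 < ν) (he : (e0 : ℝ) ≤ ν * e1)
    (w : ℕ → B) (hw : ((range k).filter (bad w)).card < e0) (hty : ∀ i ≤ k, ty w i ∈ Ty) :
    ((range k).filter (fun j => ¬ Cov k l q ν bad ty Ty w j)).card ≤ e1 + l + q + Q := by
  have hsub : (range k).filter (fun j => ¬ Cov k l q ν bad ty Ty w j) ⊆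
      (((range k).filter (fun j => ¬ HH bad k ν w j) ∪ range l) ∪ Ico (k - q) k) ∪
        Ty.image (fun τ => lst k l q ν bad ty w τ) := by
    intro j hj
    rw [mem_filter, mem_range] at hj
    simp only [mem_union, mem_filter, mem_range, mem_Ico, mem_image]
    by_cases h1 : HH bad k ν w j
    · by_cases h2 : j < l
      · exact Or.inl (Or.inl (Or.inr h2))
      · by_cases h3 : k < j + q
        · exact Or.inl (Or.inr ⟨by omega, hj.1⟩)
        · right
          have hP : j ∈ P k l q ν bad ty w (ty w j) := by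
            rw [mem_P]
            exact ⟨by omega, by omega, h1, rfl⟩
          refine ⟨ty w j, hty j hj.1.le, ?_⟩
          have h4 := fst_le k l q ν bad ty hP
          have h5 := le_lst k l q ν bad ty hP
          rcases h5.lt_or_eq with h6 | h6
          · exact (hj.2 ⟨ty w j, hty j hj.1.le, h4, h6⟩).elim
          · exact h6.symm
    · exact Or.inl (Or.inl (Or.inl ⟨hj.1, h1⟩))
  refine (card_le_card hsub).trans ?_
  refine (card_union_le _ _).trans ?_
  have h1 := card_union_le ((range k).filter (fun j => ¬ HH bad k ν w j) ∪ range l) (Ico (k - q) k)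
  have h2 := card_union_le ((range k).filter (fun j => ¬ HH bad k ν w j)) (range l)
  have h3 := few_nonHH k e0 e1 ν bad hν he w hw
  have h4 : (Ty.image (fun τ => lst k l q ν bad ty w τ)).card ≤ Q := card_image_le.trans hTy
  rw [Nat.card_Ico] at h1
  rw [card_range] at h2
  omega

end Main

end Pool.Agent.NH77.MS.Branch

namespace Pool.Agent.NH77.MS.Branch

open Finset Pool.Agent.NH77.MS
open scoped Classical

theorem branch : St_branch := by
  intro B T k a l q Q e0 e1 ν F0 bad ty hν ha he hek hfin hdet hbr hbad hQ hcard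
  obtain ⟨F, rfl⟩ : ∃ F : Finset (ℕ → B), (F : Set (ℕ → B)) = F0 :=
    ⟨hfin.toFinset, hfin.coe_toFinset⟩
  rw [Set.ncard_coe_finset] at hcard
  simp only [mem_coe] at hdet hbr hbad hQ ⊢
  -- finite version of the branching conditions
  have hbr' : ∀ w ∈ F, ∀ j < k,
      ((F.filter (fun w' => ∀ i < j, w' i = w i)).image (fun w' => w' j)).card ≤ a := by
    intro w hw j hj
    have h := hbr w hw j hj
    have e : {b | ∃ w' ∈ F, (∀ i < j, w' i = w i) ∧ w' j = b} =
        (((F.filter (fun w' => ∀ i < j, w' i = w i)).image (fun w' => w' j) : Finset B) :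
          Set B) := by
      ext b
      rw [mem_coe, mem_image]
      constructor
      · rintro ⟨w', h1, h2, h3⟩
        exact ⟨w', mem_filter.2 ⟨h1, h2⟩, h3⟩
      · rintro ⟨w', h1, h3⟩
        rw [mem_filter] at h1
        exact ⟨w', h1.1, h1.2, h3⟩
    rwa [e, Set.ncard_coe_finset] at h
  have hbad' : ∀ w ∈ F, ∀ j < k,
      ((F.filter (fun w' => (∀ i < j, w' i = w i) ∧ bad w' j)).image
        (fun w' => w' j)).card ≤ 2 := by
    intro w hw j hj
    have h := hbad w hw j hj
    have e : {b | ∃ w' ∈ F, (∀ i < j, w' i = w i) ∧ bad w' j ∧ w' j = b} =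
        (((F.filter (fun w' => (∀ i < j, w' i = w i) ∧ bad w' j)).image
          (fun w' => w' j) : Finset B) : Set B) := by
      ext b
      rw [mem_coe, mem_image]
      constructor
      · rintro ⟨w', h1, h2, h3, h4⟩
        exact ⟨w', mem_filter.2 ⟨h1, h2, h3⟩, h4⟩
      · rintro ⟨w', h1, h3⟩
        rw [mem_filter] at h1
        exact ⟨w', h1.1, h1.2.1, h1.2.2, h3⟩
    rwa [e, Set.ncard_coe_finset] at h
  -- the types
  let Ty : Finset T := F.biUnion (fun w => (range (k + 1)).image (ty w))
  have hTymem : ∀ w ∈ F, ∀ i ≤ k, ty w i ∈ Ty := by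
    intro w hw i hi
    exact mem_biUnion.2 ⟨w, hw, mem_image.2 ⟨i, mem_range.2 (by omega), rfl⟩⟩
  have hTy : Ty.card ≤ Q := by
    have e : {τ | ∃ w ∈ F, ∃ i ≤ k, ty w i = τ} = (Ty : Set T) := by
      ext τ
      rw [mem_coe, mem_biUnion]
      constructor
      · rintro ⟨w, hw, i, hi, h⟩
        exact ⟨w, hw, mem_image.2 ⟨i, mem_range.2 (by omega), h⟩⟩
      · rintro ⟨w, hw, h⟩
        obtain ⟨i, hi, h⟩ := mem_image.1 h
        exact ⟨w, hw, i, by have := mem_range.1 hi; omega, h⟩
    rwa [e, Set.ncard_coe_finset] at hQ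
  have hmany := many k a e0 F bad ha hek hdet hbr' hbad'
  by_contra hcon
  push Not at hcon
  -- the words with few bad positions
  set G := F.filter (fun w => ¬ e0 ≤ ((range k).filter (bad w)).card) with hG
  have hsplit := card_filter_add_card_filter_not (s := F)
    (p := fun w => e0 ≤ ((range k).filter (bad w)).card)
  rw [← hG] at hsplit
  let D : (ℕ → B) → (Ty → Fin (k + 1) × Fin (k + 1)) := fun w τ =>
    (⟨fst k l q ν bad ty w τ, fst_lt k l q ν bad ty w τ⟩,
      ⟨lst k l q ν bad ty w τ, lst_lt k l q ν bad ty w τ⟩)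
  have hD : ∀ w w', D w = D w' → ∀ τ ∈ Ty, fst k l q ν bad ty w τ = fst k l q ν bad ty w' τ ∧
      lst k l q ν bad ty w τ = lst k l q ν bad ty w' τ := by
    intro w w' h τ hτ
    have h1 := congrFun h ⟨τ, hτ⟩
    simp only [D, Prod.mk.injEq, Fin.mk.injEq] at h1
    exact h1
  have hfib : ∀ y ∈ G.image D, (G.filter (fun w => D w = y)).card ≤ a ^ (e1 + l + q + Q) := by
    intro y hy
    obtain ⟨w0, hw0, rfl⟩ := mem_image.1 hy
    have hw0' := mem_filter.1 hw0
    -- all words of the fibre agree on the covered positions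
    have hagree : ∀ w ∈ G.filter (fun w => D w = D w0), ∀ w' ∈ G.filter (fun w => D w = D w0),
        ∀ j, Cov k l q ν bad ty Ty w0 j → w j = w' j := by
      rintro w hw w' hw' j ⟨τ, hτ, h1, h2⟩
      rw [mem_filter] at hw hw'
      have hwF := (mem_filter.1 hw.1).1
      have hwF' := (mem_filter.1 hw'.1).1
      obtain ⟨e1', e2'⟩ := hD _ _ hw.2 τ hτ
      obtain ⟨e3', e4'⟩ := hD _ _ hw'.2 τ hτ
      have n1 : (P k l q ν bad ty w τ).Nonempty := nonempty_of_lt k l q ν bad ty (by omega)
      have n2 : (P k l q ν bad ty w' τ).Nonempty := nonempty_of_lt k l q ν bad ty (by omega)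
      have m1 := fst_mem k l q ν bad ty n1
      have m2 := lst_mem k l q ν bad ty n1
      have m3 := fst_mem k l q ν bad ty n2
      have m4 := lst_mem k l q ν bad ty n2
      rw [e1', mem_P] at m1
      rw [e2', mem_P] at m2
      rw [e3', mem_P] at m3
      rw [e4', mem_P] at m4
      by_contra hne
      exact hne (hcon w hwF w' hwF' _ _ m1.1 (by omega) m2.2.1 m1.2.2.1 m2.2.2.1 m3.2.2.1 m4.2.2.1
        (by rw [m2.2.2.2, m1.2.2.2]) (by rw [m3.2.2.2, m1.2.2.2]) (by rw [m4.2.2.2, m1.2.2.2]) j
        h1 h2)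
    have hc := count (G.filter (fun w => D w = D w0)) k
      (fun w hw w' hw' h => hdet w (mem_filter.1 (mem_filter.1 hw).1).1 w'
        (mem_filter.1 (mem_filter.1 hw').1).1 h)
      (fun j => if Cov k l q ν bad ty Ty w0 j then 1 else a) (by
        intro w hw j hj
        by_cases hj' : Cov k l q ν bad ty Ty w0 j
        · simp only [if_pos hj']
          refine card_le_one.2 ?_
          intro x hx z hz
          obtain ⟨w1, hw1, rfl⟩ := mem_image.1 hx
          obtain ⟨w2, hw2, rfl⟩ := mem_image.1 hz
          exact hagree w1 (mem_filter.1 hw1).1 w2 (mem_filter.1 hw2).1 j hj'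
        · simp only [if_neg hj']
          refine (card_le_card ?_).trans (hbr' w (mem_filter.1 (mem_filter.1 hw).1).1 j hj)
          refine image_subset_image ?_
          intro w' hw'
          rw [mem_filter] at hw' ⊢
          exact ⟨(mem_filter.1 (mem_filter.1 hw'.1).1).1, hw'.2⟩)
    refine hc.trans ?_
    rw [prod_ite, prod_const, prod_const, one_pow, one_mul]
    refine Nat.pow_le_pow_right (by omega) ?_
    exact not_cov k l q Q e0 e1 ν bad ty Ty hTy hν he w0 (by have := hw0'.2; omega)
      (hTymem w0 hw0'.1)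
  have h1 := card_le_mul_card_image G (a ^ (e1 + l + q + Q)) hfib
  have h2 : (G.image D).card ≤ (k + 1) ^ (2 * Q) := by
    refine (card_le_univ _).trans ?_
    rw [Fintype.card_fun, Fintype.card_prod, Fintype.card_fin, Fintype.card_coe, ← sq, ← pow_mul]
    exact Nat.pow_le_pow_right (by omega) (by omega)
  have h3 : G.card ≤ (k + 1) ^ (2 * Q) * a ^ (e1 + l + q + Q) := by
    rw [mul_comm]
    exact h1.trans (Nat.mul_le_mul_left _ h2)
  omega

end Pool.Agent.NH77.MS.Branch
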