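import Pool.Agent.NH77.MS.Lang

/-!
# MS10: small counts give a gap in the spectrum (MP_ae43c0_nt)
-/

namespace Pool.Agent.NH77.MS.Cover

open Filter Topology Polynomial Pool.Agent.NH77.MS

variable {α : ℝ} {P : ℤ[X]}

lemma recn_eq_recz (e : ℤ → ℝ) (c : ℤ) (n : ℕ) :
    recn P (fun i => e (i - c)) n = recz P e (n - c) := by
  unfold recn recz
  refine Finset.sum_congr rfl (fun i _ => ?_)
  have h : (((n + i : ℕ) : ℤ) - c) = (n : ℤ) - c + i := by push_cast; ring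
  show (P.coeff i : ℝ) * e (((n + i : ℕ) : ℤ) - c) = _
  rw [h]

lemma Nn_mul (h : St_lang) (P : ℤ[X]) (t : ℝ) (m j : ℕ) : Nn P t (m * j) ≤ (Nn P t m) ^ j := by
  induction j with
  | zero =>
    rw [mul_zero, pow_zero]
    exact Set.ncard_le_one_of_subsingleton _
  | succ k ih =>
    rw [Nat.mul_succ, pow_succ]
    exact ((h P t).2.1 _ _).trans (Nat.mul_le_mul_right _ ih)

theorem cover : St_sol → St_XX → St_window → St_specIn → St_lang → St_cover := by
  intro hsol hXX hwin hspec hlang α P K t₀ t ht0 ht hm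
  obtain ⟨m, hm1, hq⟩ := hm
  obtain ⟨M, hM0, hM⟩ := (hXX α P K).2.1
  obtain ⟨E, hE0, hE⟩ := hwin α P K
  have hρ0 : 0 < K.ρ := Sol.rho0 K
  have hM0' : (0 : ℝ) < M := by exact_mod_cast hM0
  set A : Set ℝ := Spec α ∩ Set.Ioo t₀ t with hA
  have hch : ∀ v ∈ Spec α, ∃ s ∈ XX K v, |sol K s 0| = v := fun v hv => hspec α P K v hv
  choose! S hS1 hS2 using hch
  have hD : 0 < 4 * E * M := by positivity
  obtain ⟨k, hk⟩ := exists_pow_lt_of_lt_one (div_pos (sub_pos.2 ht0) hD) hq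
  rw [lt_div_iff₀ hD] at hk
  set N : ℕ := m * k with hN
  set W : ℝ → (Fin (m * (2 * k)) → ℤ) := fun v i => S v ((i : ℕ) - (N : ℤ)) with hW
  have hSXX : ∀ v ∈ A, S v ∈ XX K t := by
    intro v hv
    obtain ⟨h1, h2⟩ := hS1 v hv.1
    exact ⟨h1, fun n => (h2 n).trans hv.2.2.le⟩
  have hSM : ∀ v ∈ A, ∀ n, |S v n| ≤ M := fun v hv => hM t ht _ (hSXX v hv)
  have hWL : ∀ v ∈ A, W v ∈ Lang P t (m * (2 * k)) := by
    intro v hv
    refine ⟨fun i => sol K (S v) (i - (N : ℤ)), ⟨fun n => (hSXX v hv).2 _, fun n => ?_⟩, fun i => ?_⟩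
    · rw [recn_eq_recz, (hsol α P K).2.1 (S v) M (hSM v hv)]
      exact ⟨_, rfl⟩
    · rw [recn_eq_recz, (hsol α P K).2.1 (S v) M (hSM v hv)]
  set δ : ℝ := 2 * E * M * K.ρ ^ N with hδ
  have hδ0 : 0 ≤ δ := by positivity
  have hclose : ∀ v ∈ A, ∀ v' ∈ A, W v = W v' → |v - v'| ≤ δ := by
    intro v hv v' hv' hww
    have h1 := hE (S v) (S v') M (hSM v hv) (hSM v' hv') (-(N : ℤ)) N (by
      intro i hi1 hi2
      have h2 : (i + N).toNat < m * (2 * k) := by
        have : ((m * (2 * k) : ℕ) : ℤ) = 2 * N := by rw [hN]; push_cast; ring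
        omega
      have h3 := congrFun hww ⟨(i + N).toNat, h2⟩
      rw [hW] at h3
      simp only at h3
      have h4 : (((i + N).toNat : ℕ) : ℤ) - N = i := by omega
      rw [h4] at h3
      exact h3) 0 (by omega) (by omega)
    have h5 : K.ρ ^ ((0 : ℤ) - -(N : ℤ)) = K.ρ ^ N := by
      rw [zero_sub, neg_neg, zpow_natCast]
    have h6 : α ^ ((0 : ℤ) - (N : ℤ)) ≤ K.ρ ^ N := by
      rw [zero_sub, zpow_neg, zpow_natCast, ← inv_pow]
      have hα0 : 0 < α := Sol.al0 K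
      exact pow_le_pow_left₀ (inv_nonneg.2 hα0.le) K.ρ_ge N
    rw [h5] at h1
    have h7 : |v - v'| ≤ |sol K (S v) 0 - sol K (S v') 0| := by
      have h8 := abs_abs_sub_abs_le_abs_sub (sol K (S v) 0) (sol K (S v') 0)
      rwa [hS2 v hv.1, hS2 v' hv'.1] at h8
    have h9 : E * M * (K.ρ ^ N + α ^ ((0 : ℤ) - (N : ℤ))) ≤ δ := by
      have : E * M * (K.ρ ^ N + α ^ ((0 : ℤ) - (N : ℤ))) ≤ E * M * (K.ρ ^ N + K.ρ ^ N) :=
        mul_le_mul_of_nonneg_left (by linarith) (by positivity)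
      rw [hδ]; linarith
    linarith
  have hfin := (hlang P t).1 (m * (2 * k))
  set L := hfin.toFinset with hL
  have hLcard : L.card ≤ (Nn P t m) ^ (2 * k) := by
    have h1 : L.card = Nn P t (m * (2 * k)) := by
      rw [hL]
      unfold Nn
      rw [Set.ncard_eq_toFinset_card _ hfin]
    rw [h1]
    exact Nn_mul hlang P t m (2 * k)
  set g : (Fin (m * (2 * k)) → ℤ) → ℝ := Function.invFunOn W A with hg
  set F : Set ℝ := ⋃ w ∈ L, Set.Icc (g w - δ) (g w + δ) with hF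
  have hAF : A ⊆ F := by
    intro v hv
    have h1 : W v ∈ L := by
      rw [hL, Set.Finite.mem_toFinset]
      exact hWL v hv
    have h2 : ∃ a ∈ A, W a = W v := ⟨v, hv, rfl⟩
    have h3 := Function.invFunOn_mem h2
    have h4 := Function.invFunOn_eq h2
    have h5 := hclose v hv _ h3 h4.symm
    rw [abs_le] at h5
    rw [hF]
    simp only [Set.mem_iUnion]
    exact ⟨W v, h1, by rw [hg]; constructor <;> linarith⟩
  have hFc : IsClosed F := by
    rw [hF]
    exact isClosed_biUnion_finset (fun w _ => isClosed_Icc)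
  have hvol : MeasureTheory.volume F ≤ ENNReal.ofReal (L.card * (2 * δ)) := by
    rw [hF]
    refine (MeasureTheory.measure_biUnion_finset_le _ _).trans ?_
    have h1 : ∀ w ∈ L, MeasureTheory.volume (Set.Icc (g w - δ) (g w + δ)) = ENNReal.ofReal (2 * δ) := by
      intro w _
      rw [Real.volume_Icc]
      congr 1
      ring
    rw [Finset.sum_congr rfl h1, Finset.sum_const, nsmul_eq_mul,
      ENNReal.ofReal_mul (p := (L.card : ℝ)) (by positivity), ENNReal.ofReal_natCast]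
  have hsmall : (L.card : ℝ) * (2 * δ) < t - t₀ := by
    have h1 : (L.card : ℝ) ≤ (Nn P t m : ℝ) ^ (2 * k) := by exact_mod_cast hLcard
    have h2 : (L.card : ℝ) * (2 * δ) ≤ (Nn P t m : ℝ) ^ (2 * k) * (2 * δ) :=
      mul_le_mul_of_nonneg_right h1 (by positivity)
    have h3 : (Nn P t m : ℝ) ^ (2 * k) * (2 * δ) = ((Nn P t m : ℝ) ^ 2 * K.ρ ^ m) ^ k * (4 * E * M) := by
      rw [hδ, hN, mul_pow, ← pow_mul, ← pow_mul]
      ring
    linarith
  have hex : ∃ x ∈ Set.Ioo t₀ t, x ∉ F := by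
    by_contra hcon
    push Not at hcon
    have h1 : Set.Ioo t₀ t ⊆ F := fun x hx => hcon x hx
    have h2 := (MeasureTheory.measure_mono (μ := MeasureTheory.volume) h1).trans hvol
    rw [Real.volume_Ioo, ENNReal.ofReal_le_ofReal_iff (by positivity)] at h2
    linarith
  obtain ⟨x, hx1, hx2⟩ := hex
  have hopen : IsOpen (Set.Ioo t₀ t ∩ Fᶜ) := isOpen_Ioo.inter hFc.isOpen_compl
  obtain ⟨ε, hε, hball⟩ := Metric.isOpen_iff.1 hopen x ⟨hx1, hx2⟩
  rw [Real.ball_eq_Ioo] at hball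
  have hsub : Set.Ioo (x - ε) (x + ε) ⊆ Set.Ioo t₀ t := fun y hy => (hball hy).1
  rw [Set.Ioo_subset_Ioo_iff (by linarith)] at hsub
  refine ⟨x - ε, x + ε, hsub.1, by linarith, hsub.2, ?_⟩
  rw [Set.eq_empty_iff_forall_notMem]
  rintro y ⟨hy1, hy2⟩
  have h1 := hball hy1
  exact h1.2 (hAF ⟨hy2, h1.1⟩)

end Pool.Agent.NH77.MS.Cover
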