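import Mathlib

/-!
# Definitions for the gap theorem (MP_ae43c0_nt)

`Spec α` is the multiplicative spectrum `{limsup ‖ξ αⁿ‖ : ξ real}`; `recz P e` and `recn P e` are
the sequences `n ↦ ∑ i, c i * e (n + i)` for a polynomial `P = ∑ c i X ^ i`; a `Kern α P` is the
fundamental solution `κ` of `recz P κ = δ₀` for a Pisot number `α` with minimal polynomial `P`.
-/

namespace Pool.Agent.NH77.MS

open Filter Topology Polynomial

/-- The set of all values `limsup ‖ξ α ^ n‖`, `ξ` real. -/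
def Spec (α : ℝ) : Set ℝ :=
  {v | ∃ ξ : ℝ, v = limsup (fun n : ℕ => |ξ * α ^ n - round (ξ * α ^ n)|) atTop}

/-- Pisot numbers: real algebraic integers `> 1` all of whose other conjugates lie in the open unit
disc. -/
def IsPisot (α : ℝ) : Prop :=
  1 < α ∧ IsIntegral ℤ α ∧
    ∀ z : ℂ, aeval z (minpoly ℤ α) = 0 → z ≠ (α : ℂ) → ‖z‖ < 1

/-- The recurrence operator on two-sided sequences. -/
noncomputable def recz (P : ℤ[X]) (e : ℤ → ℝ) (n : ℤ) : ℝ :=
  ∑ i ∈ Finset.range (P.natDegree + 1), (P.coeff i : ℝ) * e (n + i)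

/-- The recurrence operator on one-sided sequences. -/
noncomputable def recn (P : ℤ[X]) (e : ℕ → ℝ) (n : ℕ) : ℝ :=
  ∑ i ∈ Finset.range (P.natDegree + 1), (P.coeff i : ℝ) * e (n + i)

/-- The fundamental solution. -/
structure Kern (α : ℝ) (P : ℤ[X]) where
  one_lt : 1 < α
  monic : P.Monic
  deg_pos : 0 < P.natDegree
  root : aeval α P = 0
  κ : ℤ → ℝ
  C : ℝ
  C_pos : 0 < C
  ρ : ℝ
  ρ_ge : α⁻¹ ≤ ρ
  ρ_lt : ρ < 1
  geo : ∀ n : ℤ, n < P.natDegree → κ n = κ 0 * α ^ n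
  dec : ∀ n : ℕ, |κ n| ≤ C * ρ ^ n
  imp : ∀ n : ℤ, recz P κ n = if n = 0 then 1 else 0
  uniq : ∀ f : ℤ → ℝ, (∃ B, ∀ n, |f n| ≤ B) → (∀ n, recz P f n = 0) → ∀ n, f n = 0

variable {α : ℝ} {P : ℤ[X]}

/-- The bounded solution `e` of `recz P e = s`. -/
noncomputable def sol (K : Kern α P) (s : ℤ → ℤ) (n : ℤ) : ℝ :=
  ∑' m : ℤ, K.κ (n - m) * (s m : ℝ)

/-- The bounded integer sequences whose bounded solution has absolute value at most `t`. -/
def XX (K : Kern α P) (t : ℝ) : Set (ℤ → ℤ) :=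
  {s | (∃ M : ℤ, ∀ n, |s n| ≤ M) ∧ ∀ n, |sol K s n| ≤ t}

/-- One-sided real sequences bounded by `t` with integral `recn`. -/
def E1 (P : ℤ[X]) (t : ℝ) : Set (ℕ → ℝ) :=
  {e | (∀ n, |e n| ≤ t) ∧ ∀ n, ∃ m : ℤ, recn P e n = m}

/-- The words of length `n` of the one-sided sequences in `E1 P t`. -/
def Lang (P : ℤ[X]) (t : ℝ) (n : ℕ) : Set (Fin n → ℤ) :=
  {w | ∃ e ∈ E1 P t, ∀ i : Fin n, recn P e i = w i}

/-- The number of words of length `n`. -/
noncomputable def Nn (P : ℤ[X]) (t : ℝ) (n : ℕ) : ℕ := (Lang P t n).ncard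

/-- The possible continuations, of length `m`, of the past of `s` inside `XX K t`. -/
def Fut (K : Kern α P) (t : ℝ) (s : ℤ → ℤ) (m : ℕ) : Set (Fin m → ℤ) :=
  {w | ∃ s' ∈ XX K t, (∀ i : ℤ, i < 0 → s' i = s i) ∧ ∀ i : Fin m, s' (i : ℕ) = w i}

/-- The two-sided concatenation of the two words `w true`, `w false` of length `L` (only the values
`w b r` with `r < L` matter) according to `σ`. -/
def cc (L : ℕ) (w : Bool → ℕ → ℤ) (σ : ℤ → Bool) : ℤ → ℤ :=
  fun n => w (σ (n / (L : ℤ))) (n % (L : ℤ)).toNat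

/-- The two words of length `L` are different. -/
def Free (L : ℕ) (w : Bool → ℕ → ℤ) : Prop := ∃ r < L, w true r ≠ w false r

/-- All concatenations have solutions bounded by `V`. -/
def SupLE (K : Kern α P) (L : ℕ) (w : Bool → ℕ → ℤ) (V : ℝ) : Prop :=
  ∀ (σ : ℤ → Bool) (n : ℤ), |sol K (cc L w σ) n| ≤ V

/-- From position `i` on, the density of bad positions of `w` (up to `k`) is always at most `ν`. -/
def HH {B : Type} (bad : (ℕ → B) → ℕ → Prop) (k : ℕ) (ν : ℝ) (w : ℕ → B) (i : ℕ) : Prop :=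
  ∀ r : ℕ, 1 ≤ r → i + r ≤ k → (({j | i ≤ j ∧ j < i + r ∧ bad w j} : Set ℕ).ncard : ℝ) ≤ ν * r

end Pool.Agent.NH77.MS
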