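import Pool.Agent.NH77.MS.Stm

/-!
# Assembly of the gap theorem (MP_ae43c0_nt)
-/

namespace Pool.Agent.NH77.MS.Fin

open Filter Topology Polynomial Pool.Agent.NH77.MS

theorem spec_sub (α : ℝ) : Spec α ⊆ Set.Icc 0 (1 / 2) := by
  rintro v ⟨ξ, rfl⟩
  have h0 : ∀ n : ℕ, 0 ≤ |ξ * α ^ n - round (ξ * α ^ n)| := fun n => abs_nonneg _
  have h1 : ∀ n : ℕ, |ξ * α ^ n - round (ξ * α ^ n)| ≤ 1 / 2 := fun n => abs_sub_round _
  constructor
  · refine le_limsup_of_frequently_le (Eventually.frequently (Eventually.of_forall h0)) ?_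
    exact isBoundedUnder_of ⟨1 / 2, h1⟩
  · refine limsup_le_of_le ?_ (Eventually.of_forall h1)
    exact isCoboundedUnder_le_of_le atTop (x := 0) h0

theorem acc_of_inf (α V : ℝ) (h : (Spec α ∩ Set.Iic V).Infinite) :
    ∃ x ≤ V, AccPt x (𝓟 (Spec α)) := by
  obtain ⟨x, hx, hacc⟩ := h.exists_accPt_of_subset_isCompact (K := Set.Icc 0 V) isCompact_Icc
    (fun v hv => ⟨(spec_sub α hv.1).1, hv.2⟩)
  exact ⟨x, hx.2, hacc.mono (principal_mono.2 Set.inter_subset_left)⟩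

theorem acc_sub (α : ℝ) : {t | AccPt t (𝓟 (Spec α))} ⊆ Set.Icc 0 (1 / 2) := by
  intro t ht
  have h1 : t ∈ closure (Spec α) := by
    rw [mem_closure_iff_clusterPt]
    exact AccPt.clusterPt ht
  exact closure_minimal (spec_sub α) isClosed_Icc h1

theorem Nn_zero (P : ℤ[X]) (t : ℝ) (ht : 0 ≤ t) : Nn P t 0 = 1 := by
  have : Lang P t 0 = {fun i => i.elim0} := by
    ext w
    constructor
    · intro _
      exact Set.mem_singleton_iff.2 (Subsingleton.elim _ _)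
    · intro _
      refine ⟨fun _ => 0, ⟨fun n => by simpa using ht, fun n => ⟨0, by simp [recn]⟩⟩, fun i => i.elim0⟩
  rw [Nn, this]
  exact Set.ncard_singleton _

theorem main' (h1 : St_kern) (h2 : St_lang) (h3 : St_key) (h4 : St_step) (h5 : St_cover)
    (h6 : St_grow) (α : ℝ) (hα : IsPisot α) (h3α : 3 < α) :
    ∃ t₀ : ℝ, IsLeast {t | AccPt t (𝓟 (Spec α))} t₀ ∧ t₀ < 1 / 2 ∧
      ∀ ε : ℝ, 0 < ε → ∃ a b : ℝ, t₀ ≤ a ∧ a < b ∧ b ≤ 1 / 2 ∧ b ≤ t₀ + ε ∧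
        Set.Ioo a b ∩ Spec α = ∅ := by
  obtain ⟨K⟩ := h1 α hα
  set P := minpoly ℤ α with hP
  have ht1 : 1 / (α - 1) < (1 / 2 : ℝ) := by
    rw [div_lt_div_iff₀ (by linarith) (by norm_num)]
    linarith
  obtain ⟨L, w, V, hL, hfree, hV, hsup⟩ := h3 α P K (1 / (α - 1)) 2 ht1 (by norm_num)
    (h6 α P K h3α)
  have hinf := h4 α P K L w V hL hfree (hV.trans ht1) hsup
  obtain ⟨x, hxV, hx⟩ := acc_of_inf α V hinf
  set A : Set ℝ := {t | AccPt t (𝓟 (Spec α))} with hA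
  have hAcl : IsClosed A := isClosed_derivedSet (Spec α)
  have hAne : A.Nonempty := ⟨x, hx⟩
  have hAbdd : BddBelow A := ⟨0, fun t ht => (acc_sub α ht).1⟩
  have ht0mem : sInf A ∈ A := hAcl.csInf_mem hAne hAbdd
  have ht0least : IsLeast A (sInf A) := ⟨ht0mem, fun t ht => csInf_le hAbdd ht⟩
  set t₀ := sInf A with ht₀
  have ht0half : t₀ < 1 / 2 := by
    have := ht0least.2 hx
    linarith
  have ht0nn : 0 ≤ t₀ := (acc_sub α ht0mem).1
  refine ⟨t₀, ht0least, ht0half, ?_⟩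
  have hρ0 : 0 < K.ρ := lt_of_lt_of_le (inv_pos.2 (by linarith [K.one_lt])) K.ρ_ge
  -- the counts at `t₀` are small
  have hsmall : ∃ m : ℕ, 1 ≤ m ∧ (Nn P t₀ m : ℝ) ^ 2 * K.ρ ^ m < 1 := by
    by_contra hcon
    push Not at hcon
    have hlam : 1 < Real.sqrt (K.ρ⁻¹) := by
      rw [Real.lt_sqrt (by norm_num)]
      simpa using (one_lt_inv₀ hρ0).2 K.ρ_lt
    obtain ⟨L', w', V', hL', hfree', hV', hsup'⟩ := h3 α P K t₀ (Real.sqrt (K.ρ⁻¹)) ht0half hlam
      (by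
        intro n
        rcases Nat.eq_zero_or_pos n with rfl | hn
        · simp [Nn_zero P t₀ ht0nn]
        · have h := hcon n hn
          refine le_of_sq_le_sq ?_ (by positivity)
          rw [← pow_mul, mul_comm n 2, pow_mul, Real.sq_sqrt (by positivity), inv_pow]
          rw [inv_le_iff_one_le_mul₀ (by positivity)]
          exact h)
    obtain ⟨y, hyV, hy⟩ := acc_of_inf α V' (h4 α P K L' w' V' hL' hfree' (hV'.trans ht0half) hsup')
    have := ht0least.2 hy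
    linarith
  obtain ⟨m, hm1, hm⟩ := hsmall
  obtain ⟨δ, hδ, hrc⟩ := (h2 P t₀).2.2 m
  intro ε hε
  obtain ⟨a, b, ha, hab, hb, hgap⟩ := h5 α P K t₀ (min (t₀ + min δ ε) (1 / 2))
    (lt_min (by linarith [lt_min hδ hε]) ht0half) (min_le_right _ _) ⟨m, hm1, by
      have h := hrc (min (t₀ + min δ ε) (1 / 2))
        (le_min (by linarith [lt_min hδ hε]) ht0half.le)
        ((min_le_left _ _).trans (by linarith [min_le_left δ ε]))
      have h' : (Nn P (min (t₀ + min δ ε) (1 / 2)) m : ℝ) ≤ (Nn P t₀ m : ℝ) := by exact_mod_cast h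
      refine lt_of_le_of_lt ?_ hm
      gcongr⟩
  exact ⟨a, b, ha, hab, hb.trans (min_le_right _ _),
    hb.trans ((min_le_left _ _).trans (by linarith [min_le_right δ ε])), hgap⟩

theorem main (h1 : St_kern) (h2 : St_lang) (h3 : St_key) (h4 : St_step) (h5 : St_cover)
    (h6 : St_grow) : St_main := by
  intro α hα h3α
  obtain ⟨t₀, h, h', h''⟩ := main' h1 h2 h3 h4 h5 h6 α hα h3α
  obtain ⟨a, b, ha, hab, hb, -, hg⟩ := h'' 1 one_pos
  exact ⟨t₀, h, h', a, b, ha, hab, hb, hg⟩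

end Pool.Agent.NH77.MS.Fin
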