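import Pool.Agent.NH77.MS.Lang

/-!
# MS11: exponential growth at `1 / (α - 1)` for `α > 3` (MP_ae43c0_nt)
-/

namespace Pool.Agent.NH77.MS.Grow

open Filter Topology Polynomial Pool.Agent.NH77.MS

/-- the integer sequence with the choices `b` -/
noncomputable def U (α : ℝ) (b : ℕ → Bool) : ℕ → ℤ
  | 0 => 0
  | n + 1 => ⌊α * (U α b n : ℝ)⌋ + (if b n then 1 else 0)

/-- the increments -/
noncomputable def dl (α : ℝ) (b : ℕ → Bool) (n : ℕ) : ℝ := (U α b (n + 1) : ℝ) - α * U α b n

lemma dl_bound (α : ℝ) (b : ℕ → Bool) (n : ℕ) : |dl α b n| ≤ 1 := by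
  unfold dl
  rw [U]
  have h1 := Int.floor_le (α * (U α b n : ℝ))
  have h2 := Int.lt_floor_add_one (α * (U α b n : ℝ))
  push_cast
  rw [abs_le]
  split_ifs <;> constructor <;> linarith

/-- the errors -/
noncomputable def er (α : ℝ) (b : ℕ → Bool) (n : ℕ) : ℝ := ∑' k : ℕ, dl α b (n + k) * (α⁻¹) ^ (k + 1)

lemma geo_sum {α : ℝ} (hα : 1 < α) : HasSum (fun k : ℕ => (α⁻¹) ^ (k + 1)) (1 / (α - 1)) := by
  have h0 : 0 < α := by linarith
  have h1 : α⁻¹ < 1 := inv_lt_one_of_one_lt₀ hα
  have h := (hasSum_geometric_of_lt_one (inv_nonneg.2 h0.le) h1).mul_left α⁻¹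
  have e1 : α⁻¹ * (1 - α⁻¹)⁻¹ = 1 / (α - 1) := by
    have : α - 1 ≠ 0 := by linarith
    field_simp
  rw [e1] at h
  have e2 : (fun k : ℕ => (α⁻¹) ^ (k + 1)) = fun k : ℕ => α⁻¹ * (α⁻¹) ^ k := by
    funext k
    rw [pow_succ]; ring
  rw [e2]
  exact h

lemma summ {α : ℝ} (hα : 1 < α) (b : ℕ → Bool) (n : ℕ) :
    Summable (fun k : ℕ => dl α b (n + k) * (α⁻¹) ^ (k + 1)) := by
  have h0 : 0 < α := by linarith
  refine Summable.of_norm_bounded (geo_sum hα).summable (fun k => ?_)
  rw [Real.norm_eq_abs, abs_mul, abs_of_nonneg (by positivity : (0 : ℝ) ≤ (α⁻¹) ^ (k + 1))]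
  have := mul_le_mul_of_nonneg_right (dl_bound α b (n + k)) (by positivity : (0 : ℝ) ≤ (α⁻¹) ^ (k + 1))
  linarith

lemma er_bound {α : ℝ} (hα : 1 < α) (b : ℕ → Bool) (n : ℕ) : |er α b n| ≤ 1 / (α - 1) := by
  have h0 : 0 < α := by linarith
  rw [← Real.norm_eq_abs]
  refine tsum_of_norm_bounded (geo_sum hα) (fun k => ?_)
  rw [Real.norm_eq_abs, abs_mul, abs_of_nonneg (by positivity : (0 : ℝ) ≤ (α⁻¹) ^ (k + 1))]
  have := mul_le_mul_of_nonneg_right (dl_bound α b (n + k)) (by positivity : (0 : ℝ) ≤ (α⁻¹) ^ (k + 1))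
  linarith

lemma er_step {α : ℝ} (hα : 1 < α) (b : ℕ → Bool) (n : ℕ) :
    er α b (n + 1) = α * er α b n - dl α b n := by
  have h0 : 0 < α := by linarith
  have h1 : er α b n = dl α b n * α⁻¹ + ∑' k : ℕ, dl α b (n + (k + 1)) * (α⁻¹) ^ (k + 1 + 1) := by
    unfold er
    rw [(summ hα b n).tsum_eq_zero_add]
    simp
  have h2 : ∑' k : ℕ, dl α b (n + (k + 1)) * (α⁻¹) ^ (k + 1 + 1) = α⁻¹ * er α b (n + 1) := by
    unfold er
    rw [← tsum_mul_left]
    apply tsum_congr
    intro k
    rw [show n + (k + 1) = n + 1 + k by ring, pow_succ (α⁻¹) (k + 1)]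
    ring
  rw [h1, h2]
  field_simp
  ring

lemma er_add {α : ℝ} (hα : 1 < α) (b : ℕ → Bool) (n : ℕ) :
    er α b n + U α b n = (er α b 0 + U α b 0) * α ^ n := by
  induction n with
  | zero => simp
  | succ m ih =>
    rw [er_step hα, pow_succ, ← mul_assoc, ← ih]
    unfold dl
    ring

lemma recn_er {α : ℝ} {P : ℤ[X]} (hα : 1 < α) (hP : aeval α P = 0) (b : ℕ → Bool) (n : ℕ) :
    recn P (er α b) n =
      ((-∑ i ∈ Finset.range (P.natDegree + 1), P.coeff i * U α b (n + i) : ℤ) : ℝ) := by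
  have h1 : ∑ i ∈ Finset.range (P.natDegree + 1), (P.coeff i : ℝ) * (er α b (n + i) + U α b (n + i)) = 0 := by
    have h2 : ∀ i ∈ Finset.range (P.natDegree + 1), (P.coeff i : ℝ) * (er α b (n + i) + U α b (n + i)) =
        ((er α b 0 + U α b 0) * α ^ n) * ((P.coeff i : ℝ) * α ^ i) := by
      intro i _
      rw [er_add hα, pow_add]; ring
    rw [Finset.sum_congr rfl h2, ← Finset.mul_sum]
    rw [aeval_eq_sum_range] at hP
    have h3 : ∑ i ∈ Finset.range (P.natDegree + 1), (P.coeff i : ℝ) * α ^ i = 0 := by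
      rw [← hP]
      apply Finset.sum_congr rfl
      intro i _
      rw [zsmul_eq_mul]
    rw [h3, mul_zero]
  unfold recn
  push_cast
  simp only [mul_add, Finset.sum_add_distrib] at h1
  linarith

lemma er_mem {α : ℝ} {P : ℤ[X]} (hα : 1 < α) (hP : aeval α P = 0) (b : ℕ → Bool) :
    er α b ∈ E1 P (1 / (α - 1)) :=
  ⟨fun n => er_bound hα b n, fun n => ⟨_, recn_er hα hP b n⟩⟩

/-- the choices: `false` before `d - 1`, then `β`, then `false` -/
def ch (d n : ℕ) (β : Fin n → Bool) (j : ℕ) : Bool :=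
  if h : d - 1 ≤ j ∧ j - (d - 1) < n then β ⟨j - (d - 1), h.2⟩ else false

lemma U_congr {α : ℝ} {b b' : ℕ → Bool} {m : ℕ} (h : ∀ j < m, b j = b' j) : U α b m = U α b' m := by
  induction m with
  | zero => rfl
  | succ k ih =>
    rw [U, U, ih (fun j hj => h j (by omega)), h k (by omega)]

lemma inj {α : ℝ} {P : ℤ[X]} (hm : P.Monic) (hd : 0 < P.natDegree) (n : ℕ) (β β' : Fin n → Bool)
    (h : ∀ i : Fin n, -∑ j ∈ Finset.range (P.natDegree + 1), P.coeff j * U α (ch P.natDegree n β) (i + j) =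
      -∑ j ∈ Finset.range (P.natDegree + 1), P.coeff j * U α (ch P.natDegree n β') (i + j)) : β = β' := by
  set d := P.natDegree with hdd
  set b := ch d n β with hb
  set b' := ch d n β' with hb'
  have hlow : ∀ m, m < d → U α b m = U α b' m := by
    intro m hm
    apply U_congr
    intro j hj
    rw [hb, hb']
    unfold ch
    rw [dif_neg (by omega), dif_neg (by omega)]
  have hall : ∀ m, m < d + n → U α b m = U α b' m := by
    intro m
    induction m using Nat.strong_induction_on with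
    | _ m ih =>
      intro hmn
      by_cases hmd : m < d
      · exact hlow m hmd
      · have h1 := h ⟨m - d, by omega⟩
        simp only [neg_inj] at h1
        rw [Finset.sum_range_succ, Finset.sum_range_succ] at h1
        have h2 : ∑ j ∈ Finset.range d, P.coeff j * U α b (m - d + j) =
            ∑ j ∈ Finset.range d, P.coeff j * U α b' (m - d + j) := by
          apply Finset.sum_congr rfl
          intro j hj
          rw [Finset.mem_range] at hj
          rw [ih (m - d + j) (by omega) (by omega)]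
        rw [h2] at h1
        have h3 := add_left_cancel h1
        have h4 : P.coeff d = 1 := hm.coeff_natDegree
        rw [h4, one_mul, one_mul, show m - d + d = m by omega] at h3
        exact h3
  funext i
  have h1 := hall (d + i) (by omega)
  obtain ⟨k, hk⟩ : ∃ k, d + (i : ℕ) = k + 1 := ⟨d + i - 1, by omega⟩
  rw [hk, U, U, hall k (by omega)] at h1
  have h2 := add_left_cancel h1
  have h3 : b k = b' k := by
    cases hb1 : b k <;> cases hb2 : b' k <;> rw [hb1, hb2] at h2 <;> simp at h2 ⊢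
  rw [hb, hb'] at h3
  unfold ch at h3
  have h4 : d - 1 ≤ k ∧ k - (d - 1) < n := by omega
  rw [dif_pos h4, dif_pos h4] at h3
  have h5 : (⟨k - (d - 1), h4.2⟩ : Fin n) = i := by
    apply Fin.ext
    simp only
    omega
  rw [h5] at h3
  exact h3

theorem grow : St_grow := by
  intro α P K hα n
  have h1 : 1 < α := K.one_lt
  set t := 1 / (α - 1) with ht
  have hfin := LangF.lang_finite P t n
  have h2 : (Set.univ : Set (Fin n → Bool)).ncard ≤ (Lang P t n).ncard := by
    refine Set.ncard_le_ncard_of_injOn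
      (fun β (i : Fin n) => -∑ j ∈ Finset.range (P.natDegree + 1), P.coeff j * U α (ch P.natDegree n β) (i + j))
      ?_ ?_ hfin
    · intro β _
      exact ⟨er α (ch P.natDegree n β), er_mem h1 K.root _, fun i => recn_er h1 K.root _ _⟩
    · intro β _ β' _ hββ
      exact inj K.monic K.deg_pos n β β' (fun i => congrFun hββ i)
  rw [Set.ncard_univ, Nat.card_eq_fintype_card, Fintype.card_fun, Fintype.card_bool, Fintype.card_fin] at h2
  unfold Nn
  exact_mod_cast h2

end Pool.Agent.NH77.MS.Grow
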