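import Pool.Agent.NH77.MS.Stm

/-!
# M1: the fundamental solution of a Pisot recurrence
-/

namespace Pool.Agent.NH77.MS.Kern

open Filter Topology Polynomial

/-- The finite set of complex roots of an integer polynomial. -/
noncomputable def rts (P : ℤ[X]) : Finset ℂ := ((P.map (Int.castRingHom ℂ)).roots).toFinset

/-- The weights of the Lagrange interpolation at the roots. -/
noncomputable def wt (P : ℤ[X]) (r : ℂ) : ℂ := ∏ j ∈ (rts P).erase r, (r - j)

theorem mem_rts {P : ℤ[X]} (hP : P.Monic) (z : ℂ) : z ∈ rts P ↔ aeval z P = 0 := by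
  unfold rts
  rw [Multiset.mem_toFinset, mem_roots (hP.map _).ne_zero, IsRoot.def, eval_map, aeval_def]
  rfl

theorem card_rts {α : ℝ} (hα : IsIntegral ℤ α) :
    (rts (minpoly ℤ α)).card = (minpoly ℤ α).natDegree := by
  have h1 : minpoly ℚ α = (minpoly ℤ α).map (algebraMap ℤ ℚ) :=
    minpoly.isIntegrallyClosed_eq_field_fractions' ℚ hα
  have hQ : IsIntegral ℚ α := hα.tower_top
  have hsep : (minpoly ℚ α).Separable := (minpoly.irreducible hQ).separable
  have hmap : (minpoly ℤ α).map (Int.castRingHom ℂ) = (minpoly ℚ α).map (algebraMap ℚ ℂ) := by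
    rw [h1, Polynomial.map_map]
    congr 1
  have hsep2 : ((minpoly ℤ α).map (Int.castRingHom ℂ)).Separable := by
    rw [hmap]; exact hsep.map
  have hnd : ((minpoly ℤ α).map (Int.castRingHom ℂ)).roots.Nodup := nodup_roots hsep2
  unfold rts
  rw [Multiset.toFinset_card_of_nodup hnd]
  have := (IsAlgClosed.splits ((minpoly ℤ α).map (Int.castRingHom ℂ))).natDegree_eq_card_roots
  rw [← this, (minpoly.monic hα).natDegree_map]

theorem lagr (P : ℤ[X]) (hd : (rts P).card = P.natDegree) (k : ℕ)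
    (hk : k < P.natDegree) :
    ∑ r ∈ rts P, r ^ k / wt P r = if k = P.natDegree - 1 then 1 else 0 := by
  have h := Lagrange.coeff_eq_sum (s := rts P) (v := (id : ℂ → ℂ)) (Set.injOn_id _)
    (P := (X : ℂ[X]) ^ k) (by rw [degree_X_pow, hd]; exact_mod_cast hk)
  rw [coeff_X_pow, hd] at h
  simp only [eval_pow, eval_X, id] at h
  have h2 : (if k = P.natDegree - 1 then (1 : ℂ) else 0) = if P.natDegree - 1 = k then 1 else 0 := by
    simp only [eq_comm]
  rw [h2, h]
  rfl

theorem sum_coeff {P : ℤ[X]} {z : ℂ} (hz : aeval z P = 0) :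
    ∑ i ∈ Finset.range (P.natDegree + 1), (P.coeff i : ℂ) * z ^ i = 0 := by
  rw [aeval_eq_sum_range] at hz
  rw [← hz]
  refine Finset.sum_congr rfl fun i _ => ?_
  rw [zsmul_eq_mul]

/-- The complex fundamental solution. -/
noncomputable def kc (α : ℝ) (P : ℤ[X]) (n : ℤ) : ℂ :=
  if n < P.natDegree then -((α : ℂ) ^ (n - 1) / wt P α)
  else ∑ r ∈ (rts P).erase (α : ℂ), r ^ (n - 1).toNat / wt P r

variable {α : ℝ} {P : ℤ[X]}

theorem kc_pos (hd : (rts P).card = P.natDegree) (hα : (α : ℂ) ∈ rts P) {n : ℤ}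
    (hn : 1 ≤ n) :
    kc α P n = ∑ r ∈ (rts P).erase (α : ℂ), r ^ (n - 1).toNat / wt P r := by
  unfold kc
  split_ifs with h
  · have hl := lagr P hd (n - 1).toNat (by omega)
    rw [if_neg (by omega), ← Finset.add_sum_erase _ _ hα] at hl
    have : (α : ℂ) ^ (n - 1) = (α : ℂ) ^ (n - 1).toNat := by
      rw [← zpow_natCast]; congr 1; omega
    rw [this]
    linear_combination -hl
  · rfl

theorem kc_imp (hP : P.Monic) (hd : (rts P).card = P.natDegree) (hd0 : 0 < P.natDegree)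
    (hα : (α : ℂ) ∈ rts P) (hα0 : α ≠ 0) (n : ℤ) :
    ∑ i ∈ Finset.range (P.natDegree + 1), (P.coeff i : ℂ) * kc α P (n + i) =
      if n = 0 then 1 else 0 := by
  have hαC : (α : ℂ) ≠ 0 := by exact_mod_cast hα0
  rcases lt_or_ge 0 n with hn | hn
  · rw [if_neg (by omega)]
    have h1 : ∀ i ∈ Finset.range (P.natDegree + 1), (P.coeff i : ℂ) * kc α P (n + i) =
        ∑ r ∈ (rts P).erase (α : ℂ), (P.coeff i : ℂ) * r ^ i * (r ^ (n - 1).toNat / wt P r) := by
      intro i _
      rw [kc_pos hd hα (by omega), Finset.mul_sum]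
      refine Finset.sum_congr rfl fun r _ => ?_
      have : (n + i - 1).toNat = i + (n - 1).toNat := by omega
      rw [this, pow_add]
      ring
    rw [Finset.sum_congr rfl h1, Finset.sum_comm]
    refine Finset.sum_eq_zero fun r hr => ?_
    rw [← Finset.sum_mul, sum_coeff ((mem_rts hP r).1 (Finset.mem_of_mem_erase hr)), zero_mul]
  · have hs := sum_coeff ((mem_rts hP _).1 hα)
    rcases hn.lt_or_eq with hn | hn
    · rw [if_neg (by omega)]
      have h1 : ∀ i ∈ Finset.range (P.natDegree + 1), (P.coeff i : ℂ) * kc α P (n + i) =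
          (P.coeff i : ℂ) * (α : ℂ) ^ i * (-((α : ℂ) ^ (n - 1) / wt P α)) := by
        intro i hi
        rw [Finset.mem_range] at hi
        unfold kc
        rw [if_pos (by omega)]
        have : (α : ℂ) ^ (n + i - 1) = (α : ℂ) ^ i * (α : ℂ) ^ (n - 1) := by
          rw [← zpow_natCast, ← zpow_add₀ hαC]; congr 1; ring
        rw [this]; ring
      rw [Finset.sum_congr rfl h1, ← Finset.sum_mul, hs, zero_mul]
    · subst hn
      rw [if_pos rfl, Finset.sum_range_succ]
      rw [Finset.sum_range_succ] at hs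
      have hlc : (P.coeff P.natDegree : ℂ) = 1 := by
        have : P.coeff P.natDegree = 1 := hP
        rw [this]; simp
      rw [hlc, one_mul] at hs ⊢
      have h1 : ∀ i ∈ Finset.range P.natDegree, (P.coeff i : ℂ) * kc α P (0 + i) =
          (P.coeff i : ℂ) * (α : ℂ) ^ i * (-((α : ℂ) ^ (-1 : ℤ) / wt P α)) := by
        intro i hi
        rw [Finset.mem_range] at hi
        unfold kc
        rw [if_pos (by omega)]
        have : (α : ℂ) ^ ((0 : ℤ) + i - 1) = (α : ℂ) ^ i * (α : ℂ) ^ (-1 : ℤ) := by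
          rw [← zpow_natCast, ← zpow_add₀ hαC]; congr 1; ring
        rw [this]; ring
      rw [Finset.sum_congr rfl h1, ← Finset.sum_mul, kc_pos hd hα (by omega)]
      have hl := lagr P hd (P.natDegree - 1) (by omega)
      rw [if_pos rfl, ← Finset.add_sum_erase _ _ hα] at hl
      have h2 : ((0 : ℤ) + (P.natDegree : ℤ) - 1).toNat = P.natDegree - 1 := by omega
      rw [h2]
      have h3 : (α : ℂ) ^ P.natDegree * (α : ℂ) ^ (-1 : ℤ) = (α : ℂ) ^ (P.natDegree - 1) := by
        rw [← zpow_natCast, ← zpow_natCast, ← zpow_add₀ hαC]; congr 1; omega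
      have h4 : ∑ i ∈ Finset.range P.natDegree, (P.coeff i : ℂ) * (α : ℂ) ^ i =
          -(α : ℂ) ^ P.natDegree := by linear_combination hs
      rw [h4]
      have h5 : -(α : ℂ) ^ P.natDegree * (-((α : ℂ) ^ (-1 : ℤ) / wt P α)) =
          (α : ℂ) ^ P.natDegree * (α : ℂ) ^ (-1 : ℤ) / wt P α := by ring
      rw [h5, h3]
      exact hl

theorem kern_imp (hP : P.Monic) (hd : (rts P).card = P.natDegree) (hd0 : 0 < P.natDegree)
    (hα : (α : ℂ) ∈ rts P) (hα0 : α ≠ 0) (n : ℤ) :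
    recz P (fun n => (kc α P n).re) n = if n = 0 then 1 else 0 := by
  have h := congrArg Complex.re (kc_imp hP hd hd0 hα hα0 n)
  rw [Complex.re_sum] at h
  unfold recz
  have h2 : (if n = 0 then (1 : ℂ) else 0).re = if n = 0 then (1 : ℝ) else 0 := by
    split_ifs <;> simp
  rw [← h2, ← h]
  refine Finset.sum_congr rfl fun i _ => ?_
  rw [← Complex.ofReal_intCast, Complex.re_ofReal_mul]

theorem kern_geo (hd0 : 0 < P.natDegree) (hα0 : α ≠ 0) (n : ℤ) (hn : n < P.natDegree) :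
    (kc α P n).re = (kc α P 0).re * α ^ n := by
  unfold kc
  rw [if_pos hn, if_pos (by exact_mod_cast hd0)]
  have hαC : (α : ℂ) ≠ 0 := by exact_mod_cast hα0
  have h : -((α : ℂ) ^ (n - 1) / wt P α) = ((α ^ n : ℝ) : ℂ) * -((α : ℂ) ^ ((0 : ℤ) - 1) / wt P α) := by
    have : (α : ℂ) ^ (n - 1) = (α : ℂ) ^ n * (α : ℂ) ^ ((0 : ℤ) - 1) := by
      rw [← zpow_add₀ hαC]; congr 1
    rw [this, Complex.ofReal_zpow]; ring
  rw [h, Complex.re_ofReal_mul, mul_comm]

theorem kern_dec (hd : (rts P).card = P.natDegree) (hα : (α : ℂ) ∈ rts P)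
    (ρ : ℝ) (hρ0 : 0 < ρ) (hρ : ∀ r ∈ (rts P).erase (α : ℂ), ‖r‖ ≤ ρ) :
    ∃ C : ℝ, 0 < C ∧ ∀ n : ℕ, |(kc α P n).re| ≤ C * ρ ^ n := by
  refine ⟨|(kc α P 0).re| + 1 + (∑ r ∈ (rts P).erase (α : ℂ), ‖(wt P r)⁻¹‖) / ρ, ?_, ?_⟩
  · have : 0 ≤ (∑ r ∈ (rts P).erase (α : ℂ), ‖(wt P r)⁻¹‖) / ρ :=
      div_nonneg (Finset.sum_nonneg fun _ _ => norm_nonneg _) hρ0.le
    positivity
  · intro n
    have hS : 0 ≤ (∑ r ∈ (rts P).erase (α : ℂ), ‖(wt P r)⁻¹‖) :=
      (Finset.sum_nonneg fun _ _ => norm_nonneg _)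
    rcases Nat.eq_zero_or_pos n with rfl | hn
    · simp only [Nat.cast_zero, pow_zero, mul_one]
      have : 0 ≤ (∑ r ∈ (rts P).erase (α : ℂ), ‖(wt P r)⁻¹‖) / ρ := div_nonneg hS hρ0.le
      linarith
    · have h1 : |(kc α P n).re| ≤ ‖kc α P n‖ := Complex.abs_re_le_norm _
      rw [kc_pos hd hα (by omega)] at h1
      have h2 : ‖∑ r ∈ (rts P).erase (α : ℂ), r ^ ((n : ℤ) - 1).toNat / wt P r‖ ≤
          (∑ r ∈ (rts P).erase (α : ℂ), ‖(wt P r)⁻¹‖) * ρ ^ (n - 1) := by
        refine (norm_sum_le _ _).trans ?_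
        rw [Finset.sum_mul]
        refine Finset.sum_le_sum fun r hr => ?_
        have h3 : ((n : ℤ) - 1).toNat = n - 1 := by omega
        rw [h3, div_eq_mul_inv, norm_mul, norm_pow, mul_comm]
        exact mul_le_mul_of_nonneg_left (pow_le_pow_left₀ (norm_nonneg _) (hρ r hr) _)
          (norm_nonneg _)
      have h4 : ρ ^ n = ρ * ρ ^ (n - 1) := by
        rw [← pow_succ']; congr 1; omega
      have h5 : (∑ r ∈ (rts P).erase (α : ℂ), ‖(wt P r)⁻¹‖) * ρ ^ (n - 1) =
          (∑ r ∈ (rts P).erase (α : ℂ), ‖(wt P r)⁻¹‖) / ρ * ρ ^ n := by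
        rw [h4]; field_simp
      have h6 : 0 ≤ (|(kc α P 0).re| + 1) * ρ ^ n := by positivity
      rw [add_mul, kc_pos hd hα (by omega)]
      refine (h1.trans h2).trans ?_
      rw [h5]
      linarith

theorem recz_shift (P : ℤ[X]) (κ f : ℤ → ℝ) (hκ : ∀ B : ℝ, ∀ g : ℤ → ℝ, (∀ n, |g n| ≤ B) →
      ∀ n : ℤ, Summable fun m : ℤ => κ (n - m) * g m)
    (himp : ∀ n : ℤ, recz P κ n = if n = 0 then 1 else 0)
    (B : ℝ) (hB : ∀ n, |f n| ≤ B) (hf : ∀ n, recz P f n = 0) (n : ℤ) : f n = 0 := by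
  have h1 : ∑' m : ℤ, κ (n - m) * recz P f m = 0 := by
    simp only [hf, mul_zero, tsum_zero]
  have h2 : ∑' m : ℤ, κ (n - m) * recz P f m = f n := by
    unfold recz
    have hs : ∀ i ∈ Finset.range (P.natDegree + 1),
        Summable fun m : ℤ => (P.coeff i : ℝ) * (κ (n - m) * f (m + i)) := by
      intro i _
      exact (hκ B (fun m => f (m + i)) (fun m => hB _) n).mul_left _
    have e1 : ∀ m : ℤ, κ (n - m) * ∑ i ∈ Finset.range (P.natDegree + 1),
        (P.coeff i : ℝ) * f (m + i) =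
        ∑ i ∈ Finset.range (P.natDegree + 1), (P.coeff i : ℝ) * (κ (n - m) * f (m + i)) := by
      intro m
      rw [Finset.mul_sum]
      exact Finset.sum_congr rfl fun i _ => by ring
    simp only [e1]
    rw [Summable.tsum_finsetSum hs]
    have e2 : ∀ i : ℕ, ∑' m : ℤ, (P.coeff i : ℝ) * (κ (n - m) * f (m + i)) =
        ∑' m : ℤ, (P.coeff i : ℝ) * (κ (n - m + i) * f m) := by
      intro i
      rw [← (Equiv.addRight (i : ℤ)).tsum_eq
        (fun m : ℤ => (P.coeff i : ℝ) * (κ (n - m + i) * f m))]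
      refine tsum_congr fun m => ?_
      have : n - (m + i) + (i : ℤ) = n - m := by ring
      simp only [Equiv.coe_addRight, this]
    simp only [e2]
    have hs2 : ∀ i ∈ Finset.range (P.natDegree + 1),
        Summable fun m : ℤ => (P.coeff i : ℝ) * (κ (n - m + i) * f m) := by
      intro i _
      have := (hκ B f hB (n + i)).mul_left (P.coeff i : ℝ)
      refine this.congr fun m => ?_
      have : n + (i : ℤ) - m = n - m + i := by ring
      rw [this]
    rw [← Summable.tsum_finsetSum hs2]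
    have e3 : ∀ m : ℤ, ∑ i ∈ Finset.range (P.natDegree + 1), (P.coeff i : ℝ) *
        (κ (n - m + i) * f m) = if m = n then f n else 0 := by
      intro m
      have h3 := himp (n - m)
      unfold recz at h3
      have : ∑ i ∈ Finset.range (P.natDegree + 1), (P.coeff i : ℝ) * (κ (n - m + i) * f m) =
          (∑ i ∈ Finset.range (P.natDegree + 1), (P.coeff i : ℝ) * κ (n - m + i)) * f m := by
        rw [Finset.sum_mul]
        exact Finset.sum_congr rfl fun i _ => by ring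
      rw [this, h3]
      by_cases hmn : m = n
      · subst hmn; simp
      · rw [if_neg (by omega), if_neg hmn, zero_mul]
    simp only [e3]
    rw [tsum_ite_eq]
  rw [← h2, h1]

theorem summ (κ : ℤ → ℝ) (α ρ C D : ℝ) (hα : 1 < α) (hρ0 : 0 < ρ) (hρ : ρ < 1)
    (h1 : ∀ n : ℕ, |κ n| ≤ C * ρ ^ n) (h2 : ∀ n : ℤ, n < 0 → |κ n| ≤ D * α ^ n)
    (B : ℝ) (g : ℤ → ℝ) (hg : ∀ n, |g n| ≤ B) (n : ℤ) :
    Summable fun m : ℤ => κ (n - m) * g m := by
  have hκ : Summable fun m : ℤ => |κ m| := by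
    apply Summable.of_nat_of_neg_add_one
    · refine Summable.of_nonneg_of_le (fun _ => abs_nonneg _) h1 ?_
      exact (summable_geometric_of_lt_one hρ0.le hρ).mul_left C
    · refine Summable.of_nonneg_of_le (f := fun k : ℕ => D * α⁻¹ * (α⁻¹) ^ k)
        (fun _ => abs_nonneg _) (fun k => ?_) ?_
      · refine (h2 _ (by omega)).trans (le_of_eq ?_)
        rw [zpow_neg, zpow_add₀ (by positivity), zpow_natCast, zpow_one, mul_inv, inv_pow]
        ring
      · exact (summable_geometric_of_lt_one (by positivity) (inv_lt_one_of_one_lt₀ hα)).mul_left _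
  have h3 : Summable fun m : ℤ => |κ (n - m)| * B := by
    have := (Equiv.subLeft n).summable_iff.2 hκ
    exact this.mul_right B
  refine Summable.of_norm_bounded h3 fun m => ?_
  rw [Real.norm_eq_abs, abs_mul]
  exact mul_le_mul_of_nonneg_left (hg m) (abs_nonneg _)

/-- M1. -/
theorem kern : St_kern := by
  intro α hα
  obtain ⟨h1, hint, hconj⟩ := hα
  set P := minpoly ℤ α with hPdef
  have hP : P.Monic := minpoly.monic hint
  have hroot : aeval α P = 0 := minpoly.aeval ℤ α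
  have hα0 : α ≠ 0 := by positivity
  have hd : (rts P).card = P.natDegree := card_rts hint
  have hαmem : (α : ℂ) ∈ rts P := by
    rw [mem_rts hP]
    have : aeval ((algebraMap ℝ ℂ) α) P = (algebraMap ℝ ℂ) (aeval α P) := by
      rw [aeval_algebraMap_apply]
    rw [hroot, map_zero] at this
    exact this
  have hd0 : 0 < P.natDegree := by
    rw [← hd]; exact Finset.card_pos.2 ⟨_, hαmem⟩
  obtain ⟨ρ, hρ1, hρ2, hρ3⟩ : ∃ ρ : ℝ, α⁻¹ ≤ ρ ∧ ρ < 1 ∧
      ∀ r ∈ (rts P).erase (α : ℂ), ‖r‖ ≤ ρ := by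
    have hlt : ∀ r ∈ (rts P).erase (α : ℂ), ‖r‖ < 1 := by
      intro r hr
      rw [Finset.mem_erase] at hr
      exact hconj r ((mem_rts hP r).1 hr.2) hr.1
    have hα1 : α⁻¹ < 1 := inv_lt_one_of_one_lt₀ h1
    generalize (rts P).erase (α : ℂ) = s at hlt
    clear hαmem hd
    induction s using Finset.induction_on with
    | empty => exact ⟨α⁻¹, le_rfl, hα1, by simp⟩
    | insert a s ha ih =>
      obtain ⟨ρ, h2, h3, h4⟩ := ih fun r hr => hlt r (Finset.mem_insert_of_mem hr)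
      refine ⟨max ρ ‖a‖, h2.trans (le_max_left _ _),
        max_lt h3 (hlt a (Finset.mem_insert_self _ _)), fun r hr => ?_⟩
      rcases Finset.mem_insert.1 hr with rfl | hr
      · exact le_max_right _ _
      · exact (h4 r hr).trans (le_max_left _ _)
  have hρ0 : 0 < ρ := lt_of_lt_of_le (by positivity) hρ1
  obtain ⟨C, hC0, hC⟩ := kern_dec hd hαmem ρ hρ0 hρ3
  have hgeo := kern_geo (P := P) hd0 hα0
  have himp := kern_imp hP hd hd0 hαmem hα0
  refine ⟨⟨h1, hP, hd0, hroot, fun n => (kc α P n).re, C, hC0, ρ, hρ1, hρ2, hgeo, hC, himp, ?_⟩⟩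
  rintro f ⟨B, hB⟩ hf n
  refine recz_shift P _ f (fun B g hg n => ?_) himp B hB hf n
  have hneg : ∀ n : ℤ, n < 0 → |(kc α P n).re| ≤ |(kc α P 0).re| * α ^ n := by
    intro n hn
    rw [hgeo n (by omega), abs_mul, abs_of_pos (zpow_pos (zero_lt_one.trans h1) n)]
  exact summ (fun n => (kc α P n).re) α ρ C |(kc α P 0).re| h1 hρ0 hρ2 hC hneg B g hg n

end Pool.Agent.NH77.MS.Kern
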