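import Pool.Agent.NH77.MS.Key3

/-!
# M8: exponential growth gives a free pair with strictly smaller sup (MP_ae43c0_nt)
-/

namespace Pool.Agent.NH77.MS.Key

open Filter Topology Polynomial Pool.Agent.NH77.MS Pool.Agent.NH77.MS.Key1
  Pool.Agent.NH77.MS.Key2 Pool.Agent.NH77.MS.Key3

/-- The numerical inequality needed for the combinatorial lemma. -/
theorem ineq {a G N0 κ Q c : ℕ} (hN0 : 2 ≤ N0) (hκ : 1 ≤ κ) (ha : 4 ^ (8 * N0 + 2) ≤ a)
    (hG : 0 < G)
    (hlog : ((4 * N0 * κ : ℕ) : ℝ) * Real.log a ≤ (1 + 1 / (8 * N0)) * Real.log G)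
    (hbig : 4 * a ^ (2 * c) * (4 * N0 * κ + 1) ^ (4 * Q) < 2 ^ κ) :
    4 ^ (4 * N0 * κ) * a ^ (4 * N0 * κ - κ) + (4 * N0 * κ + 1) ^ (2 * Q) * a ^ (N0 * κ + c)
      < G := by
  have ha1 : 1 ≤ a := le_trans (Nat.one_le_pow _ _ (by norm_num)) ha
  have ha2 : 2 ≤ a := by
    refine le_trans ?_ ha
    calc 2 ≤ 4 ^ 1 := by norm_num
      _ ≤ 4 ^ (8 * N0 + 2) := Nat.pow_le_pow_right (by norm_num) (by omega)
  have ha0 : (0 : ℝ) < a := by exact_mod_cast ha1
  have hG0 : (0 : ℝ) < G := by exact_mod_cast hG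
  have hN : (0 : ℝ) < N0 := by
    have : 0 < N0 := by omega
    exact_mod_cast this
  have hloga : 0 ≤ Real.log a := Real.log_nonneg (by exact_mod_cast ha1)
  obtain ⟨N1, hN1⟩ : ∃ N1, N0 = N1 + 1 := ⟨N0 - 1, by omega⟩
  -- lower bound for `G`
  have hGsq : a ^ ((8 * N1 + 7) * κ) ≤ G ^ 2 := by
    have h1 : (((8 * N1 + 7) * κ : ℕ) : ℝ) * Real.log a ≤ 2 * Real.log G := by
      have h2 : (8 * (N0 : ℝ) + 1) * Real.log G ≥ 8 * N0 * (4 * N0 * κ) * Real.log a := by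
        have h3 := mul_le_mul_of_nonneg_left hlog (show (0 : ℝ) ≤ 8 * N0 by positivity)
        have h4 : 8 * (N0 : ℝ) * ((1 + 1 / (8 * N0)) * Real.log G)
            = (8 * N0 + 1) * Real.log G := by
          field_simp
        rw [h4] at h3
        push_cast at h3
        linarith
      have h5 : (((8 * N1 + 7) * κ : ℕ) : ℝ) = (8 * N0 - 1) * κ := by
        rw [hN1]
        push_cast
        ring
      rw [h5]
      have hκ0 : (0 : ℝ) ≤ κ * Real.log a := by positivity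
      have h6 : (8 * (N0 : ℝ) + 1) * ((8 * N0 - 1) * κ * Real.log a)
          ≤ (8 * N0 + 1) * (2 * Real.log G) := by
        nlinarith
      exact le_of_mul_le_mul_left h6 (by positivity)
    have h7 : Real.log ((a : ℝ) ^ ((8 * N1 + 7) * κ)) ≤ Real.log ((G : ℝ) ^ 2) := by
      rw [Real.log_pow, Real.log_pow]
      push_cast at h1 ⊢
      exact h1
    have h8 := (Real.log_le_log_iff (by positivity) (by positivity)).1 h7
    exact_mod_cast h8
  -- first term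
  have hX : 2 * (4 ^ (4 * N0 * κ) * a ^ (4 * N0 * κ - κ)) < G := by
    have h1 : (2 * (4 ^ (4 * N0 * κ) * a ^ (4 * N0 * κ - κ))) ^ 2 < G ^ 2 := by
      refine lt_of_lt_of_le ?_ hGsq
      have e1 : 4 * N0 * κ - κ = (4 * N1 + 3) * κ := by
        rw [hN1]
        have : 4 * (N1 + 1) * κ = (4 * N1 + 3) * κ + κ := by ring
        omega
      rw [e1]
      have e2 : (2 * (4 ^ (4 * N0 * κ) * a ^ ((4 * N1 + 3) * κ))) ^ 2
          = 4 ^ (8 * N0 * κ + 1) * a ^ ((8 * N1 + 6) * κ) := by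
        rw [mul_pow, mul_pow, ← pow_mul, ← pow_mul, pow_succ 4 (8 * N0 * κ)]
        have e3 : 4 * N0 * κ * 2 = 8 * N0 * κ := by ring
        have e4 : (4 * N1 + 3) * κ * 2 = (8 * N1 + 6) * κ := by ring
        rw [e3, e4]
        ring
      have e5 : a ^ ((8 * N1 + 7) * κ) = a ^ κ * a ^ ((8 * N1 + 6) * κ) := by
        rw [← pow_add]
        congr 1
        ring
      rw [e2, e5]
      refine Nat.mul_lt_mul_of_pos_right ?_ (by positivity)
      calc 4 ^ (8 * N0 * κ + 1) < 4 ^ ((8 * N0 + 2) * κ) := by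
            refine Nat.pow_lt_pow_right (by norm_num) ?_
            nlinarith
        _ = (4 ^ (8 * N0 + 2)) ^ κ := by rw [← pow_mul]
        _ ≤ a ^ κ := Nat.pow_le_pow_left ha _
    exact lt_of_pow_lt_pow_left₀ 2 (by positivity) h1
  have hY : 2 * ((4 * N0 * κ + 1) ^ (2 * Q) * a ^ (N0 * κ + c)) < G := by
    have h1 : (2 * ((4 * N0 * κ + 1) ^ (2 * Q) * a ^ (N0 * κ + c))) ^ 2 < G ^ 2 := by
      refine lt_of_lt_of_le ?_ hGsq
      have e2 : (2 * ((4 * N0 * κ + 1) ^ (2 * Q) * a ^ (N0 * κ + c))) ^ 2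
          = (4 * a ^ (2 * c) * (4 * N0 * κ + 1) ^ (4 * Q)) * a ^ (2 * N0 * κ) := by
        rw [mul_pow, mul_pow, ← pow_mul, ← pow_mul]
        have e3 : 2 * Q * 2 = 4 * Q := by ring
        have e4 : (N0 * κ + c) * 2 = 2 * N0 * κ + 2 * c := by ring
        rw [e3, e4, pow_add]
        ring
      rw [e2]
      calc (4 * a ^ (2 * c) * (4 * N0 * κ + 1) ^ (4 * Q)) * a ^ (2 * N0 * κ)
          < 2 ^ κ * a ^ (2 * N0 * κ) := Nat.mul_lt_mul_of_pos_right hbig (by positivity)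
        _ ≤ a ^ κ * a ^ (2 * N0 * κ) := Nat.mul_le_mul_right _ (Nat.pow_le_pow_left ha2 _)
        _ = a ^ ((2 * N0 + 1) * κ) := by
          rw [← pow_add]
          congr 1
          ring
        _ ≤ a ^ ((8 * N1 + 7) * κ) := by
          refine Nat.pow_le_pow_right ha1 (Nat.mul_le_mul_right _ ?_)
          omega
    exact lt_of_pow_lt_pow_left₀ 2 (by positivity) h1
  omega

/-- The choice of the number of blocks. -/
theorem exists_kappa (A b Q : ℕ) : ∃ κ : ℕ, 1 ≤ κ ∧ A * (b * κ + 1) ^ Q < 2 ^ κ := by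
  have h1 : Tendsto (fun n : ℕ => (n : ℝ) ^ Q / (2 : ℝ) ^ n) atTop (𝓝 0) :=
    tendsto_pow_const_div_const_pow_of_one_lt Q (by norm_num)
  have h2 : Tendsto (fun n : ℕ => (A : ℝ) * (b + 1) ^ Q * ((n : ℝ) ^ Q / (2 : ℝ) ^ n)) atTop
      (𝓝 ((A : ℝ) * (b + 1) ^ Q * 0)) := h1.const_mul _
  rw [mul_zero] at h2
  obtain ⟨κ, h3, h4⟩ := ((h2.eventually (gt_mem_nhds one_pos)).and (eventually_ge_atTop 1)).exists
  refine ⟨κ, h4, ?_⟩
  have h5 : (A : ℝ) * (b + 1) ^ Q * (κ : ℝ) ^ Q < (2 : ℝ) ^ κ := by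
    rw [← mul_div_assoc, div_lt_one (by positivity)] at h3
    exact h3
  have h6 : (A : ℝ) * (b + 1) ^ Q * (κ : ℝ) ^ Q = ((A * ((b + 1) * κ) ^ Q : ℕ) : ℝ) := by
    push_cast
    rw [mul_pow]
    ring
  rw [h6] at h5
  have h7 : A * ((b + 1) * κ) ^ Q < 2 ^ κ := by exact_mod_cast h5
  refine lt_of_le_of_lt ?_ h7
  refine Nat.mul_le_mul_left _ (Nat.pow_le_pow_left ?_ _)
  nlinarith

theorem key (h1 : St_sol) (h2 : St_XX) (h3 : St_past3) (h4 : St_window) (h5 : St_gap)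
    (h7 : St_past) (h8 : St_branch) : St_key := by
  intro α P K t lam ht hlam hgrow
  obtain ⟨-, ⟨M, hM0, hMM⟩, hsh0⟩ := h2 α P K
  obtain ⟨-, -, -, hshift, -⟩ := h1 α P K
  obtain ⟨E, hE0, hE⟩ := h4 α P K
  have hM : ∀ s ∈ XX K t, ∀ n, |s n| ≤ M := hMM t ht.le
  have hsh : ∀ s ∈ XX K t, ∀ c : ℤ, (fun m => s (m + c)) ∈ XX K t := fun s hs c => hsh0 t s c hs
  have hα := K.one_lt
  have hα0 : 0 < α := by linarith
  have hρ0 : 0 < K.ρ := lt_of_lt_of_le (inv_pos.2 hα0) K.ρ_ge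
  have hρ1 := K.ρ_lt
  set d := P.natDegree with hd
  have hg : ∀ s ∈ XX K t, ∀ s' ∈ XX K t, ∀ (j : ℤ) (r : ℕ), (∀ i < j, s i = s' i) →
      (∃ i, j ≤ i ∧ i < j + r ∧ s i ≠ s' i) →
      (fun r : ℕ => (1 - 2 * t) * α ^ (-((d : ℤ) + r))) r ≤ |sol K s j - sol K s' j| :=
    fun s hs s' hs' j r h h' => h5 α P K t ht s hs s' hs' j r h h'
  have hp : ∀ s ∈ XX K t, ∀ s' ∈ XX K t, ∀ j : ℤ, (∀ i < j, s i = s' i) → ∀ n : ℤ, n ≤ j →
      sol K s' n - sol K s n = α ^ (n - j) * (sol K s' j - sol K s j) := by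
    intro s hs s' hs' j hj n hn
    refine h3 α P K s s' M (hM s hs) (hM s' hs') j hj n ?_
    have : (0 : ℤ) < P.natDegree := by exact_mod_cast K.deg_pos
    linarith
  have h2t : 0 < 1 - 2 * t := by linarith
  have hne : ∀ s ∈ XX K t, ∀ s' ∈ XX K t, ∀ (j : ℤ) (r : ℕ), (∀ i < j, s i = s' i) →
      (∃ i, j ≤ i ∧ i < j + r ∧ s i ≠ s' i) → sol K s j ≠ sol K s' j := by
    intro s hs s' hs' j r h h' heq
    have := hg s hs s' hs' j r h h'
    rw [heq, sub_self, abs_zero] at this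
    have h6 : 0 < (1 - 2 * t) * α ^ (-((d : ℤ) + r)) := by positivity
    simp only at this
    linarith
  have hgr : ∀ m : ℕ, ∃ s ∈ XX K t, lam ^ m ≤ ((Fut K t s m).ncard : ℝ) := by
    intro m
    obtain ⟨s, hs, -, h⟩ := h7 α P K t lam ht.le hlam hgrow m
    exact ⟨s, hs, h⟩
  have hXne : (XX K t).Nonempty := by
    obtain ⟨s, hs, _⟩ := hgr 0
    exact ⟨s, hs⟩
  -- the parameter N0
  obtain ⟨N0, hN0, hNρ⟩ : ∃ N0 : ℕ, 2 ≤ N0 ∧ K.ρ ^ N0 ≤ α ^ (-2 : ℤ) := by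
    have h := (tendsto_pow_atTop_nhds_zero_of_lt_one hρ0.le hρ1).eventually
      (gt_mem_nhds (show (0 : ℝ) < α ^ (-2 : ℤ) by positivity))
    obtain ⟨N0, h6, h6'⟩ := (h.and (eventually_ge_atTop 2)).exists
    exact ⟨N0, h6', h6.le⟩
  have hN0' : (0 : ℝ) < N0 := by
    have : 0 < N0 := by omega
    exact_mod_cast this
  -- the block length
  obtain ⟨n₀, hn₀, haA, hlog⟩ := growth K t hM hsh hlam hgr (1 / (8 * N0)) (by positivity)
    (4 ^ (8 * N0 + 2))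
  set a := aa K t n₀ with ha
  set g : ℝ := (1 - 2 * t) * α ^ (-((d : ℤ) + n₀)) with hgdef
  have hg0 : 0 < g := by positivity
  set EM : ℝ := E * M with hEMdef
  have hEM0 : 0 ≤ EM := by
    have : (0 : ℝ) < M := by exact_mod_cast hM0
    positivity
  -- context lengths
  obtain ⟨q, hq1, hq⟩ : ∃ q : ℕ, 1 ≤ q ∧ EM * α ^ (-((q * n₀ : ℕ) : ℤ)) ≤ g / 4 := by
    have hlim : Tendsto (fun q : ℕ => EM * (α⁻¹ ^ n₀) ^ q) atTop (𝓝 (EM * 0)) := by
      refine Tendsto.const_mul _ (tendsto_pow_atTop_nhds_zero_of_lt_one (by positivity) ?_)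
      exact pow_lt_one₀ (by positivity) (inv_lt_one_of_one_lt₀ hα) (by omega)
    rw [mul_zero] at hlim
    obtain ⟨q, h6, h6'⟩ := ((hlim.eventually (gt_mem_nhds (show 0 < g / 4 by positivity))).and
      (eventually_ge_atTop 1)).exists
    refine ⟨q, h6', ?_⟩
    have : α ^ (-((q * n₀ : ℕ) : ℤ)) = (α⁻¹ ^ n₀) ^ q := by
      rw [← pow_mul, zpow_neg, zpow_natCast, inv_pow, mul_comm]
    rw [this]
    exact h6.le
  obtain ⟨l, hl⟩ : ∃ l : ℕ, EM * K.ρ ^ (l * n₀) ≤ g / 4 * α ^ (-((2 * n₀ : ℕ) : ℤ)) := by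
    have hlim : Tendsto (fun q : ℕ => EM * (K.ρ ^ n₀) ^ q) atTop (𝓝 (EM * 0)) := by
      refine Tendsto.const_mul _ (tendsto_pow_atTop_nhds_zero_of_lt_one (by positivity) ?_)
      exact pow_lt_one₀ (by positivity) hρ1 (by omega)
    rw [mul_zero] at hlim
    obtain ⟨l, h6⟩ := (hlim.eventually (gt_mem_nhds
      (show 0 < g / 4 * α ^ (-((2 * n₀ : ℕ) : ℤ)) by positivity))).exists
    refine ⟨l, ?_⟩
    have : K.ρ ^ (l * n₀) = (K.ρ ^ n₀) ^ l := by
      rw [← pow_mul, mul_comm]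
    rw [this]
    exact h6.le
  -- types
  set T : Type := Fin (l + q) → (Fin n₀ → ℤ) with hT
  set ty : (ℕ → (Fin n₀ → ℤ)) → ℕ → T := fun w i j => w (i - l + j) with hty
  set Tset : Set T := {τ | ∀ j r, |τ j r| ≤ M} with hTset
  have hTfin : Tset.Finite := by
    have h := Set.Finite.pi' (ι := Fin (l + q)) (fun _ => finite_bdd (ι := Fin n₀) M)
    exact h.subset (fun τ hτ j => hτ j)
  set Q := Tset.ncard with hQ
  obtain ⟨κ, hκ1, hκ⟩ := exists_kappa (4 * a ^ (2 * (l + q + Q))) (4 * N0) (4 * Q)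
  set k := 4 * N0 * κ with hk
  obtain ⟨s, hs, hse⟩ := exists_aa K t hM hXne (k * n₀)
  set F := FF K t n₀ s k with hF
  have hFcard : F.ncard = aa K t (k * n₀) := by rw [hF, FF_ncard n₀ k hn₀ s, hse]
  have ha2 : 2 ≤ a := by
    refine le_trans ?_ haA
    calc 2 ≤ 4 ^ 1 := by norm_num
      _ ≤ 4 ^ (8 * N0 + 2) := Nat.pow_le_pow_right (by norm_num) (by omega)
  have hGpos : 0 < aa K t (k * n₀) := by
    obtain ⟨s0, hs0, h⟩ := hgr (k * n₀)
    have h6 := le_aa K t hM (k * n₀) hs0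
    have h9 : (0 : ℝ) < ((Fut K t s0 (k * n₀)).ncard : ℝ) := lt_of_lt_of_le (by positivity) h
    have h10 : 0 < (Fut K t s0 (k * n₀)).ncard := by exact_mod_cast h9
    omega
  have hineq : 4 ^ k * a ^ (k - κ) + (k + 1) ^ (2 * Q) * a ^ (N0 * κ + l + q + Q) < F.ncard := by
    rw [hFcard]
    have h := ineq (a := a) (G := aa K t (k * n₀)) (N0 := N0) (κ := κ) (Q := Q)
      (c := l + q + Q) hN0 hκ1 haA hGpos (hlog k) hκ
    have e : N0 * κ + (l + q + Q) = N0 * κ + l + q + Q := by ring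
    rw [e] at h
    exact h
  have htypes : {τ | ∃ w ∈ F, ∃ i ≤ k, ty w i = τ}.ncard ≤ Q := by
    refine Set.ncard_le_ncard ?_ hTfin
    rintro τ ⟨w, ⟨⟨s', hs'⟩, hw0⟩, i, -, rfl⟩ j r
    show |w (i - l + j) r| ≤ M
    rcases lt_or_ge (i - l + (j : ℕ)) k with h | h
    · rw [← hs'.2.2 _ h r]
      exact hM s' hs'.1 _
    · rw [hw0 _ h]
      simpa using hM0.le
  obtain ⟨w, hw, w', hw', i, i', hli, hii', hiq, H1, H2, H3, H4, T1, T2, T3, r0, hr1, hr2, hr3⟩ :=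
    h8 (Fin n₀ → ℤ) T k a l q Q κ (N0 * κ) (1 / (N0 : ℝ)) F (Bad K t n₀ s) ty
      (by positivity) ha2 (by push_cast; field_simp; exact le_rfl) (by nlinarith)
      (FF_finite hM n₀ k s) (FF_ext n₀ k s) (FF_branch hM hsh n₀ k hn₀ s)
      (FF_bad hne n₀ k hn₀ s) htypes hineq
  obtain ⟨⟨sw, hsw⟩, -⟩ := hw
  obtain ⟨⟨sw', hsw'⟩, -⟩ := hw'
  set S : Bool → ℤ → ℤ := fun b => cond b sw sw' with hS
  set WW : Bool → ℕ → (Fin n₀ → ℤ) := fun b => cond b w w' with hWW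
  have hRz : ∀ b, Rz K t n₀ s (WW b) k (S b) := by
    intro b
    cases b
    · exact hsw'
    · exact hsw
  have hHi : ∀ b, HH (Bad K t n₀ s) k (1 / (N0 : ℝ)) (WW b) i := by
    intro b
    cases b
    · exact H3
    · exact H1
  have hHi' : ∀ b, HH (Bad K t n₀ s) k (1 / (N0 : ℝ)) (WW b) i' := by
    intro b
    cases b
    · exact H4
    · exact H2
  have hTi : ∀ b, ty (WW b) i = ty w i := by
    intro b
    cases b
    · exact T2
    · rfl
  have hTi' : ∀ b, ty (WW b) i' = ty w i := by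
    intro b
    cases b
    · exact T3
    · exact T1
  set L := (i' - i) * n₀ with hLdef
  have hL0 : 0 < L := Nat.mul_pos (by omega) hn₀
  -- reading the contexts
  have hctx : ∀ b, ∀ p, l ≤ p → p + q ≤ k → ∀ z (hz : z < (l + q) * n₀),
      S b (((p - l) * n₀ + z : ℕ) : ℤ)
        = ty (WW b) p ⟨z / n₀, (Nat.div_lt_iff_lt_mul hn₀).2 hz⟩ ⟨z % n₀, Nat.mod_lt _ hn₀⟩ := by
    intro b p hp1 hp2 z hz
    have hz' : z / n₀ < l + q := (Nat.div_lt_iff_lt_mul hn₀).2 hz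
    have h := (hRz b).2.2 (p - l + z / n₀) (by omega) ⟨z % n₀, Nat.mod_lt _ hn₀⟩
    rw [hty]
    simp only
    rw [← h]
    congr 1
    have e3 : z / n₀ * n₀ + z % n₀ = z := by
      rw [mul_comm]
      exact Nat.div_add_mod z n₀
    have e4 : (p - l + z / n₀) * n₀ + z % n₀ = (p - l) * n₀ + z := by
      rw [add_mul, add_assoc, e3]
    simp only [e4]
  have hall : ∀ b b' p p', (p = i ∨ p = i') → (p' = i ∨ p' = i') → ∀ z, z < (l + q) * n₀ →
      S b (((p - l) * n₀ + z : ℕ) : ℤ) = S b' (((p' - l) * n₀ + z : ℕ) : ℤ) := by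
    intro b b' p p' hp hp' z hz
    have hT1 : ∀ b p, (p = i ∨ p = i') → ty (WW b) p = ty w i := by
      intro b p hp
      rcases hp with rfl | rfl
      · exact hTi b
      · exact hTi' b
    have hb1 : ∀ p, (p = i ∨ p = i') → l ≤ p ∧ p + q ≤ k := by
      intro p hp
      rcases hp with rfl | rfl
      · exact ⟨hli, by omega⟩
      · exact ⟨by omega, hiq⟩
    rw [hctx b p (hb1 p hp).1 (hb1 p hp).2 z hz, hctx b' p' (hb1 p' hp').1 (hb1 p' hp').2 z hz,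
      hT1 b p hp, hT1 b' p' hp']
  set a0 : ℤ := ((i * n₀ : ℕ) : ℤ) with ha0
  have hLcast : (a0 + L : ℤ) = ((i' * n₀ : ℕ) : ℤ) := by
    rw [ha0, hLdef]
    push_cast [Nat.cast_sub hii'.le]
    ring
  have hR : ∀ b : Bool, ∀ y : ℕ, y < q * n₀ →
      S b (a0 + y) = S true (a0 + y) ∧ S b (a0 + L + y) = S true (a0 + y) := by
    intro b y hy
    have hz : l * n₀ + y < (l + q) * n₀ := by
      rw [add_mul]
      omega
    have e1 : ∀ p, l ≤ p → (((p - l) * n₀ + (l * n₀ + y) : ℕ) : ℤ) = ((p * n₀ : ℕ) : ℤ) + y := by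
      intro p hp
      push_cast [Nat.cast_sub hp]
      ring
    have c1 := hall b true i i (Or.inl rfl) (Or.inl rfl) _ hz
    have c2 := hall b true i' i (Or.inr rfl) (Or.inl rfl) _ hz
    rw [e1 i hli] at c1 c2
    rw [e1 i' (by omega)] at c2
    rw [hLcast]
    exact ⟨c1, c2⟩
  have hLf : ∀ b : Bool, ∀ y : ℕ, 1 ≤ y → y ≤ l * n₀ →
      S b (a0 - y) = S true (a0 - y) ∧ S b (a0 + L - y) = S true (a0 - y) := by
    intro b y hy1 hy
    have hz : l * n₀ - y < (l + q) * n₀ := by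
      rw [add_mul]
      omega
    have e1 : ∀ p, l ≤ p → (((p - l) * n₀ + (l * n₀ - y) : ℕ) : ℤ) = ((p * n₀ : ℕ) : ℤ) - y := by
      intro p hp
      push_cast [Nat.cast_sub hp, Nat.cast_sub hy]
      ring
    have c1 := hall b true i i (Or.inl rfl) (Or.inl rfl) _ hz
    have c2 := hall b true i' i (Or.inr rfl) (Or.inl rfl) _ hz
    rw [e1 i hli] at c1 c2
    rw [e1 i' (by omega)] at c2
    rw [hLcast]
    exact ⟨c1, c2⟩
  have hagree := agree hL0 S a0 (l * n₀) (q * n₀) hR hLf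
  refine ⟨L, fun b r => S b (a0 + r), t - g / 2 * α ^ (-(L : ℤ)), hL0, ?_, ?_, ?_⟩
  · -- the two words differ
    obtain ⟨x, hx⟩ : ∃ x, w r0 x ≠ w' r0 x := by
      by_contra hc
      push Not at hc
      exact hr3 (funext hc)
    have hx2 := x.2
    refine ⟨(r0 - i) * n₀ + x, ?_, ?_⟩
    · rw [hLdef]
      have h6 : (r0 - i + 1) * n₀ ≤ (i' - i) * n₀ := Nat.mul_le_mul_right _ (by omega)
      nlinarith
    · have e : (a0 + (((r0 - i) * n₀ + (x : ℕ) : ℕ) : ℤ) : ℤ) = ((r0 * n₀ + (x : ℕ) : ℕ) : ℤ) := by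
        rw [ha0]
        push_cast [Nat.cast_sub hr1]
        ring
      show S true (a0 + (((r0 - i) * n₀ + (x : ℕ) : ℕ) : ℤ))
        ≠ S false (a0 + (((r0 - i) * n₀ + (x : ℕ) : ℕ) : ℤ))
      rw [e]
      show sw ((r0 * n₀ + (x : ℕ) : ℕ) : ℤ) ≠ sw' ((r0 * n₀ + (x : ℕ) : ℕ) : ℤ)
      rw [hsw.2.2 r0 (by omega) x, hsw'.2.2 r0 (by omega) x]
      exact hx
  · have : 0 < g / 2 * α ^ (-(L : ℤ)) := by positivity
    linarith
  · intro σ n
    set z := cc L (fun b r => S b (a0 + r)) σ with hz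
    -- the position of `n`
    have hLz : (0 : ℤ) < L := by exact_mod_cast hL0
    set J := n / (L : ℤ) with hJ
    obtain ⟨o, ho⟩ := Int.eq_ofNat_of_zero_le (Int.emod_nonneg n hLz.ne')
    have hoL : o < L := by
      have h6 := Int.emod_lt_of_pos n hLz
      rw [ho] at h6
      exact_mod_cast h6
    have hn : n = J * L + o := by
      have h6 := Int.emod_add_mul_ediv n L
      rw [ho] at h6
      rw [hJ]
      linarith
    set b := σ J with hb
    have hzb : ∀ m, |z m| ≤ M := by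
      intro m
      show |S (σ (m / (L : ℤ))) (a0 + _)| ≤ M
      exact hM _ (hRz _).1 _
    -- comparison with the realiser
    have hwin := hE (fun m => z (m + (J * L - a0))) (S b) M (fun m => hzb _) (hM _ (hRz b).1)
      (a0 - (l * n₀ : ℕ)) (a0 + L + (q * n₀ : ℕ)) (by
        intro m hm1 hm2
        have h6 := hagree σ J (m - a0) (by linarith) (by linarith)
        have e1 : m + (J * L - a0) = J * L + (m - a0) := by ring
        have e2 : a0 + (m - a0) = m := by ring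
        rw [e1, hz, h6, e2])
      (a0 + o) (by
        have : (0 : ℤ) ≤ o := by positivity
        have : (0 : ℤ) ≤ ((l * n₀ : ℕ) : ℤ) := by positivity
        linarith) (by
        have h6 : (o : ℤ) < L := by exact_mod_cast hoL
        have : (0 : ℤ) ≤ ((q * n₀ : ℕ) : ℤ) := by positivity
        linarith)
    rw [hshift] at hwin
    have e1 : a0 + (o : ℤ) + (J * L - a0) = n := by
      rw [hn]
      ring
    have e2 : a0 + (o : ℤ) - (a0 - (l * n₀ : ℕ)) = (o : ℤ) + (l * n₀ : ℕ) := by ring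
    have e3 : a0 + (o : ℤ) - (a0 + L + (q * n₀ : ℕ)) = (o : ℤ) - (L : ℤ) - (q * n₀ : ℕ) := by ring
    rw [e1, e2, e3] at hwin
    -- the next good boundary
    have hob : o / n₀ < i' - i := (Nat.div_lt_iff_lt_mul hn₀).2 hoL
    obtain ⟨x, hx1, hx2, hx3, hx4⟩ := nextgood (Bad K t n₀ s) k N0 hN0 (WW b) i i' (hHi b) (hHi' b)
      (by omega) (o / n₀) (by omega)
    have hdm : o / n₀ * n₀ + o % n₀ = o := by
      rw [mul_comm]
      exact Nat.div_add_mod o n₀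
    have hmod : o % n₀ < n₀ := Nat.mod_lt _ hn₀
    have hoc : o ≤ (o / n₀ + x) * n₀ := by
      rw [add_mul]
      have : 1 * n₀ ≤ x * n₀ := Nat.mul_le_mul_right _ hx1
      omega
    have hsl := slack hg hp hn₀ (hRz b) (j := i + o / n₀ + x) (by omega) hx3 (a0 + o) (by
      rw [ha0]
      have h6 : i * n₀ + o ≤ (i + o / n₀ + x) * n₀ := by
        rw [add_assoc, add_mul i]
        omega
      exact_mod_cast h6)
    have e4 : a0 + (o : ℤ) - (((i + o / n₀ + x) * n₀ : ℕ) : ℤ)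
        = (o : ℤ) - ((o / n₀ + x) * n₀ : ℕ) := by
      rw [ha0]
      push_cast
      ring
    rw [e4] at hsl
    have hnum := numeric (g := g) (EM := EM) hα hρ0 hρ1 hg0 hEM0 (n₀ := n₀) (N0 := N0) (l := l)
      (q := q) (by omega) hNρ hq hl (i := i) (i' := i') (b := o / n₀) (x := x) (o := o)
      (by omega) hx2 hx4
    have hlast : α ^ (-(L : ℤ)) ≤ α ^ ((o : ℤ) - ((o / n₀ + x) * n₀ : ℕ)) := by
      refine zpow_le_zpow_right₀ hα.le ?_
      have h6 : (o / n₀ + x) * n₀ ≤ (i' - i) * n₀ := Nat.mul_le_mul_right _ (by omega)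
      have h9 : (((o / n₀ + x) * n₀ : ℕ) : ℤ) ≤ (L : ℤ) := by
        rw [hLdef]
        exact_mod_cast h6
      have : (0 : ℤ) ≤ o := by positivity
      linarith
    have hfin := abs_sub_abs_le_abs_sub (sol K z n) (sol K (S b) (a0 + o))
    have hg2 : g / 2 * α ^ (-(L : ℤ)) ≤ g / 2 * α ^ ((o : ℤ) - ((o / n₀ + x) * n₀ : ℕ)) := by
      gcongr
    have hsl' : |sol K (S b) (a0 + o)| ≤ t - g * α ^ ((o : ℤ) - ((o / n₀ + x) * n₀ : ℕ)) := hsl
    have hnum' : E * M * (K.ρ ^ ((o : ℤ) + (l * n₀ : ℕ)) + α ^ ((o : ℤ) - (L : ℤ) - (q * n₀ : ℕ)))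
        ≤ g / 2 * α ^ ((o : ℤ) - ((o / n₀ + x) * n₀ : ℕ)) := hnum
    linarith

end Pool.Agent.NH77.MS.Key
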