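import Pool.Agent.NH77.MS.Stm

/-!
# M8, part 1: the numbers of futures and their growth (MP_ae43c0_nt)
-/

namespace Pool.Agent.NH77.MS.Key1

open Filter Topology Polynomial Pool.Agent.NH77.MS

variable {α : ℝ} {P : ℤ[X]} (K : Kern α P) (t : ℝ)

/-- Functions bounded by `M` on a finite index set form a finite set. -/
theorem finite_bdd {ι : Type*} [Finite ι] (M : ℤ) : {w : ι → ℤ | ∀ i, |w i| ≤ M}.Finite := by
  have h := Set.Finite.pi' (ι := ι) (fun _ => Set.finite_Icc (-M) M)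
  refine h.subset ?_
  intro w hw i
  exact Set.mem_Icc.2 (abs_le.1 (hw i))

theorem fut_sub {M : ℤ} (hM : ∀ s ∈ XX K t, ∀ n, |s n| ≤ M) (s : ℤ → ℤ) (m : ℕ) :
    Fut K t s m ⊆ {w : Fin m → ℤ | ∀ i, |w i| ≤ M} := by
  rintro w ⟨s', hs', _, h2⟩ i
  rw [← h2 i]
  exact hM s' hs' _

theorem fut_finite {M : ℤ} (hM : ∀ s ∈ XX K t, ∀ n, |s n| ≤ M) (s : ℤ → ℤ) (m : ℕ) :
    (Fut K t s m).Finite := (finite_bdd M).subset (fut_sub K t hM s m)

/-- The largest number of futures of length `m`. -/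
noncomputable def aa (m : ℕ) : ℕ := sSup {x | ∃ s ∈ XX K t, (Fut K t s m).ncard = x}

theorem aa_bdd {M : ℤ} (hM : ∀ s ∈ XX K t, ∀ n, |s n| ≤ M) (m : ℕ) :
    BddAbove {x | ∃ s ∈ XX K t, (Fut K t s m).ncard = x} := by
  refine ⟨{w : Fin m → ℤ | ∀ i, |w i| ≤ M}.ncard, ?_⟩
  rintro x ⟨s, hs, rfl⟩
  exact Set.ncard_le_ncard (fut_sub K t hM s m) (finite_bdd M)

theorem le_aa {M : ℤ} (hM : ∀ s ∈ XX K t, ∀ n, |s n| ≤ M) (m : ℕ) {s : ℤ → ℤ} (hs : s ∈ XX K t) :
    (Fut K t s m).ncard ≤ aa K t m := le_csSup (aa_bdd K t hM m) ⟨s, hs, rfl⟩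

theorem exists_aa {M : ℤ} (hM : ∀ s ∈ XX K t, ∀ n, |s n| ≤ M) (hne : (XX K t).Nonempty) (m : ℕ) :
    ∃ s ∈ XX K t, (Fut K t s m).ncard = aa K t m := by
  obtain ⟨s0, hs0⟩ := hne
  have := Nat.sSup_mem (s := {x | ∃ s ∈ XX K t, (Fut K t s m).ncard = x}) ⟨_, s0, hs0, rfl⟩
    (aa_bdd K t hM m)
  exact this

theorem aa_add {M : ℤ} (hM : ∀ s ∈ XX K t, ∀ n, |s n| ≤ M)
    (hsh : ∀ s ∈ XX K t, ∀ c : ℤ, (fun m => s (m + c)) ∈ XX K t)
    (hne : (XX K t).Nonempty) (m n : ℕ) : aa K t (m + n) ≤ aa K t m * aa K t n := by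
  classical
  obtain ⟨s, hs, hse⟩ := exists_aa K t hM hne (m + n)
  rw [← hse]
  have hfin := fut_finite K t hM s (m + n)
  rw [Set.ncard_eq_toFinset_card _ hfin]
  set S := hfin.toFinset with hS
  let f : (Fin (m + n) → ℤ) → (Fin m → ℤ) := fun w i => w (Fin.castAdd n i)
  have himg : (S.image f).card ≤ aa K t m := by
    refine le_trans ?_ (le_aa K t hM m hs)
    rw [← Set.ncard_coe_finset]
    refine Set.ncard_le_ncard ?_ (fut_finite K t hM s m)
    intro w hw
    simp only [Finset.coe_image, Set.mem_image, Finset.mem_coe, hS, Set.Finite.mem_toFinset] at hw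
    obtain ⟨w', ⟨s', hs', h1, h2⟩, rfl⟩ := hw
    exact ⟨s', hs', h1, fun i => by simpa using h2 (Fin.castAdd n i)⟩
  have hfib : ∀ a ∈ S.image f, (S.filter (fun x => f x = a)).card ≤ aa K t n := by
    intro a ha
    simp only [Finset.mem_image, hS, Set.Finite.mem_toFinset] at ha
    obtain ⟨w0, ⟨s0, hs0, h01, h02⟩, rfl⟩ := ha
    refine le_trans ?_ (le_aa K t hM n (hsh s0 hs0 m))
    rw [← Set.ncard_coe_finset]
    refine Set.ncard_le_ncard_of_injOn (fun w i => w (Fin.natAdd m i)) ?_ ?_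
      (fut_finite K t hM _ n)
    · intro w hw
      simp only [Finset.coe_filter, Set.mem_ofPred_eq, hS, Set.Finite.mem_toFinset] at hw
      obtain ⟨⟨s', hs', h1, h2⟩, h3⟩ := hw
      refine ⟨fun m' => s' (m' + m), hsh s' hs' m, ?_, ?_⟩
      · intro i hi
        show s' (i + m) = s0 (i + m)
        rcases lt_or_ge (i + m) 0 with h | h
        · rw [h1 _ h, h01 _ h]
        · obtain ⟨j, hj⟩ := Int.eq_ofNat_of_zero_le h
          have hjm : j < m := by omega
          have e1 := h2 (Fin.castAdd n ⟨j, hjm⟩)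
          have e2 := h02 (Fin.castAdd n ⟨j, hjm⟩)
          have e3 := congrFun h3 ⟨j, hjm⟩
          simp only [f, Fin.val_castAdd] at e1 e2 e3
          rw [hj, e1, e2, e3]
      · intro i
        have e1 := h2 (Fin.natAdd m i)
        simp only [Fin.val_natAdd] at e1
        show s' (((i : ℕ) : ℤ) + (m : ℤ)) = w (Fin.natAdd m i)
        rw [← e1]
        congr 1
        push_cast
        ring
    · intro w hw w' hw' heq
      simp only [Finset.coe_filter, Set.mem_ofPred_eq] at hw hw'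
      funext i
      refine Fin.addCases (fun j => ?_) (fun j => ?_) i
      · exact congrFun (hw.2.trans hw'.2.symm) j
      · exact congrFun heq j
  calc S.card ≤ aa K t n * (S.image f).card := Finset.card_le_mul_card_image S _ hfib
    _ ≤ aa K t n * aa K t m := Nat.mul_le_mul_left _ himg
    _ = aa K t m * aa K t n := mul_comm _ _

/-- The growth statement used for the choice of the block length. -/
theorem growth {M : ℤ} (hM : ∀ s ∈ XX K t, ∀ n, |s n| ≤ M)
    (hsh : ∀ s ∈ XX K t, ∀ c : ℤ, (fun m => s (m + c)) ∈ XX K t)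
    {lam : ℝ} (hlam : 1 < lam) (hgr : ∀ m : ℕ, ∃ s ∈ XX K t, lam ^ m ≤ ((Fut K t s m).ncard : ℝ))
    (η : ℝ) (hη : 0 < η) (A : ℕ) :
    ∃ n₀ : ℕ, 1 ≤ n₀ ∧ A ≤ aa K t n₀ ∧
      ∀ k : ℕ, (k : ℝ) * Real.log (aa K t n₀) ≤ (1 + η) * Real.log (aa K t (k * n₀)) := by
  have hne : (XX K t).Nonempty := by
    obtain ⟨s, hs, _⟩ := hgr 0
    exact ⟨s, hs⟩
  have hlam0 : 0 < lam := by linarith
  have haalam : ∀ m, lam ^ m ≤ (aa K t m : ℝ) := by
    intro m
    obtain ⟨s, hs, h⟩ := hgr m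
    refine h.trans ?_
    exact_mod_cast le_aa K t hM m hs
  have haapos : ∀ m, (0 : ℝ) < aa K t m := fun m => lt_of_lt_of_le (by positivity) (haalam m)
  set u : ℕ → ℝ := fun m => Real.log (aa K t m) with hu
  have hsub : Subadditive u := by
    intro m n
    rw [hu]
    simp only
    rw [← Real.log_mul (haapos m).ne' (haapos n).ne']
    refine Real.log_le_log (haapos _) ?_
    exact_mod_cast aa_add K t hM hsh hne m n
  have hlow : ∀ m : ℕ, (m : ℝ) * Real.log lam ≤ u m := by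
    intro m
    rw [hu]
    simp only
    rw [← Real.log_pow]
    exact Real.log_le_log (by positivity) (haalam m)
  have hloglam : 0 < Real.log lam := Real.log_pos hlam
  have hu0 : ∀ m, 0 ≤ u m := fun m => le_trans (by positivity) (hlow m)
  have hbdd : BddBelow (Set.range fun n => u n / n) := by
    refine ⟨0, ?_⟩
    rintro x ⟨n, rfl⟩
    have := hu0 n
    positivity
  have hlim := hsub.tendsto_lim hbdd
  have hlimle : ∀ n : ℕ, n ≠ 0 → hsub.lim ≤ u n / n := fun n hn => hsub.lim_le_div hbdd hn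
  have hlimpos : Real.log lam ≤ hsub.lim := by
    refine ge_of_tendsto hlim ?_
    filter_upwards [eventually_ge_atTop 1] with n hn
    have hn' : (0 : ℝ) < n := by exact_mod_cast hn
    rw [le_div_iff₀ hn', mul_comm]
    exact hlow n
  have hlp : 0 < hsub.lim := lt_of_lt_of_le hloglam hlimpos
  have ev1 : ∀ᶠ n : ℕ in atTop, u n / n < (1 + η) * hsub.lim := by
    refine hlim.eventually (gt_mem_nhds ?_)
    nlinarith
  have ev2 : ∀ᶠ n : ℕ in atTop, (A : ℝ) ≤ lam ^ n :=
    (tendsto_pow_atTop_atTop_of_one_lt hlam).eventually_ge_atTop _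
  obtain ⟨n₀, h1, h2, h3⟩ := (ev1.and (ev2.and (eventually_ge_atTop 1))).exists
  refine ⟨n₀, h3, ?_, ?_⟩
  · have := h2.trans (haalam n₀)
    exact_mod_cast this
  · intro k
    rcases Nat.eq_zero_or_pos k with rfl | hk
    · simp only [Nat.cast_zero, zero_mul]
      have := hu0 0
      rw [hu] at this
      simp only at this
      positivity
    · have hn0 : (0 : ℝ) < n₀ := by exact_mod_cast h3
      have hk0 : (0 : ℝ) < k := by exact_mod_cast hk
      have e1 : u n₀ ≤ (1 + η) * hsub.lim * n₀ := by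
        rw [div_lt_iff₀ hn0] at h1
        exact h1.le
      have e2 : hsub.lim * (k * n₀) ≤ u (k * n₀) := by
        have := hlimle (k * n₀) (by positivity)
        rw [le_div_iff₀ (by push_cast; positivity)] at this
        push_cast at this
        exact this
      calc (k : ℝ) * Real.log (aa K t n₀) = k * u n₀ := rfl
        _ ≤ k * ((1 + η) * hsub.lim * n₀) := by gcongr
        _ = (1 + η) * (hsub.lim * (k * n₀)) := by ring
        _ ≤ (1 + η) * u (k * n₀) := by gcongr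
        _ = (1 + η) * Real.log (aa K t (k * n₀)) := rfl

end Pool.Agent.NH77.MS.Key1
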