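import Pool.Agent.NH77.MS.Key1

/-!
# M8, part 2: blocks, good and bad letters (MP_ae43c0_nt)
-/

namespace Pool.Agent.NH77.MS.Key2

open Filter Topology Polynomial Pool.Agent.NH77.MS Pool.Agent.NH77.MS.Key1

variable {α : ℝ} {P : ℤ[X]} (K : Kern α P) (t : ℝ)

/-- `s'` realises the past of `s` and the first `m` blocks of `w`. -/
def Rz (n₀ : ℕ) (s : ℤ → ℤ) (w : ℕ → (Fin n₀ → ℤ)) (m : ℕ) (s' : ℤ → ℤ) : Prop :=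
  s' ∈ XX K t ∧ (∀ i : ℤ, i < 0 → s' i = s i) ∧
    ∀ j < m, ∀ r : Fin n₀, s' ((j * n₀ + (r : ℕ) : ℕ) : ℤ) = w j r

/-- The set of block words of length `k` after the past of `s`. -/
def FF (n₀ : ℕ) (s : ℤ → ℤ) (k : ℕ) : Set (ℕ → (Fin n₀ → ℤ)) :=
  {w | (∃ s', Rz K t n₀ s w k s') ∧ ∀ j, k ≤ j → w j = 0}

/-- A bad letter: some realiser is not strictly between two others with different letters. -/
def Bad (n₀ : ℕ) (s : ℤ → ℤ) (w : ℕ → (Fin n₀ → ℤ)) (j : ℕ) : Prop :=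
  ∃ s', Rz K t n₀ s w (j + 1) s' ∧ ¬ ∃ sm sp, Rz K t n₀ s w j sm ∧ Rz K t n₀ s w j sp ∧
    (∃ r : Fin n₀, sm ((j * n₀ + (r : ℕ) : ℕ) : ℤ) ≠ w j r) ∧
    (∃ r : Fin n₀, sp ((j * n₀ + (r : ℕ) : ℕ) : ℤ) ≠ w j r) ∧
    sol K sm ((j * n₀ : ℕ) : ℤ) < sol K s' ((j * n₀ : ℕ) : ℤ) ∧
    sol K s' ((j * n₀ : ℕ) : ℤ) < sol K sp ((j * n₀ : ℕ) : ℤ)

variable {K t}

theorem Rz.mono {n₀ : ℕ} {s : ℤ → ℤ} {w : ℕ → (Fin n₀ → ℤ)} {m m' : ℕ} {s' : ℤ → ℤ}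
    (h : Rz K t n₀ s w m s') (hm : m' ≤ m) : Rz K t n₀ s w m' s' :=
  ⟨h.1, h.2.1, fun j hj r => h.2.2 j (lt_of_lt_of_le hj hm) r⟩

theorem Rz.congr {n₀ : ℕ} {s : ℤ → ℤ} {w w' : ℕ → (Fin n₀ → ℤ)} {m : ℕ} {s' : ℤ → ℤ}
    (h : Rz K t n₀ s w m s') (hw : ∀ j < m, w' j = w j) : Rz K t n₀ s w' m s' :=
  ⟨h.1, h.2.1, fun j hj r => by rw [hw j hj]; exact h.2.2 j hj r⟩

/-- Two realisers of the first `m` blocks agree before `m * n₀`. -/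
theorem Rz.agree {n₀ : ℕ} (hn₀ : 0 < n₀) {s : ℤ → ℤ} {w : ℕ → (Fin n₀ → ℤ)} {m : ℕ}
    {s₁ s₂ : ℤ → ℤ} (h₁ : Rz K t n₀ s w m s₁) (h₂ : Rz K t n₀ s w m s₂) :
    ∀ i : ℤ, i < ((m * n₀ : ℕ) : ℤ) → s₁ i = s₂ i := by
  intro i hi
  rcases lt_or_ge i 0 with h | h
  · rw [h₁.2.1 _ h, h₂.2.1 _ h]
  · obtain ⟨x, rfl⟩ := Int.eq_ofNat_of_zero_le h
    have hx : x < m * n₀ := by exact_mod_cast hi
    have hj : x / n₀ < m := (Nat.div_lt_iff_lt_mul hn₀).2 hx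
    have e1 := h₁.2.2 (x / n₀) hj ⟨x % n₀, Nat.mod_lt _ hn₀⟩
    have e2 := h₂.2.2 (x / n₀) hj ⟨x % n₀, Nat.mod_lt _ hn₀⟩
    have e3 : x / n₀ * n₀ + x % n₀ = x := by
      rw [mul_comm]
      exact Nat.div_add_mod x n₀
    simp only [e3] at e1 e2
    rw [e1, e2]

/-- The word of a continuation of length `k * n₀`, in blocks. -/
noncomputable def psi (n₀ k : ℕ) (W : Fin (k * n₀) → ℤ) : ℕ → (Fin n₀ → ℤ) :=
  fun j r => if h : j * n₀ + (r : ℕ) < k * n₀ then W ⟨j * n₀ + (r : ℕ), h⟩ else 0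

theorem psi_inj (n₀ k : ℕ) (hn₀ : 0 < n₀) : Function.Injective (psi n₀ k) := by
  intro W W' h
  funext i
  have e3 : (i : ℕ) / n₀ * n₀ + (i : ℕ) % n₀ = i := by
    rw [mul_comm]
    exact Nat.div_add_mod _ n₀
  have h1 := congrFun (congrFun h ((i : ℕ) / n₀)) ⟨(i : ℕ) % n₀, Nat.mod_lt _ hn₀⟩
  simp only [psi, e3, i.2, dif_pos] at h1
  exact h1

theorem FF_eq (n₀ k : ℕ) (s : ℤ → ℤ) :
    FF K t n₀ s k = psi n₀ k '' (Fut K t s (k * n₀)) := by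
  ext w
  constructor
  · rintro ⟨⟨s', h1, h2, h3⟩, h4⟩
    refine ⟨fun i => s' (i : ℕ), ⟨s', h1, h2, fun i => rfl⟩, ?_⟩
    funext j r
    simp only [psi]
    split_ifs with h
    · have hj : j < k := by
        by_contra hcon
        push Not at hcon
        have := Nat.mul_le_mul_right n₀ hcon
        omega
      exact h3 j hj r
    · have hj : k ≤ j := by
        by_contra hcon
        push Not at hcon
        apply h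
        have h5 : (j + 1) * n₀ ≤ k * n₀ := Nat.mul_le_mul_right n₀ hcon
        have := r.2
        nlinarith
      rw [h4 j hj]
      rfl
  · rintro ⟨W, ⟨s', h1, h2, h3⟩, rfl⟩
    refine ⟨⟨s', h1, h2, ?_⟩, ?_⟩
    · intro j hj r
      have h5 : (j + 1) * n₀ ≤ k * n₀ := Nat.mul_le_mul_right n₀ hj
      have hr := r.2
      have h6 : j * n₀ + (r : ℕ) < k * n₀ := by nlinarith
      simp only [psi, h6, dif_pos]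
      exact h3 ⟨j * n₀ + (r : ℕ), h6⟩
    · intro j hj
      funext r
      have h5 : k * n₀ ≤ j * n₀ := Nat.mul_le_mul_right n₀ hj
      have h6 : ¬ (j * n₀ + (r : ℕ) < k * n₀) := by omega
      simp only [psi, h6]
      rfl

theorem FF_finite {M : ℤ} (hM : ∀ s ∈ XX K t, ∀ n, |s n| ≤ M) (n₀ k : ℕ)
    (s : ℤ → ℤ) : (FF K t n₀ s k).Finite := by
  rw [FF_eq n₀ k]
  exact (fut_finite K t hM s _).image _

theorem FF_ncard (n₀ k : ℕ) (hn₀ : 0 < n₀) (s : ℤ → ℤ) :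
    (FF K t n₀ s k).ncard = (Fut K t s (k * n₀)).ncard := by
  rw [FF_eq n₀ k]
  exact Set.ncard_image_of_injective _ (psi_inj n₀ k hn₀)

theorem FF_ext (n₀ k : ℕ) (s : ℤ → ℤ) :
    ∀ w ∈ FF K t n₀ s k, ∀ w' ∈ FF K t n₀ s k, (∀ i < k, w i = w' i) → w = w' := by
  intro w hw w' hw' h
  funext j
  rcases lt_or_ge j k with hj | hj
  · exact h j hj
  · rw [hw.2 j hj, hw'.2 j hj]

theorem FF_branch {M : ℤ} (hM : ∀ s ∈ XX K t, ∀ n, |s n| ≤ M)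
    (hsh : ∀ s ∈ XX K t, ∀ c : ℤ, (fun m => s (m + c)) ∈ XX K t)
    (n₀ k : ℕ) (hn₀ : 0 < n₀) (s : ℤ → ℤ) :
    ∀ w ∈ FF K t n₀ s k, ∀ j < k,
      {b | ∃ w' ∈ FF K t n₀ s k, (∀ i < j, w' i = w i) ∧ w' j = b}.ncard ≤ aa K t n₀ := by
  rintro w ⟨⟨sw, hsw⟩, _⟩ j hj
  refine le_trans (Set.ncard_le_ncard ?_ (fut_finite K t hM _ n₀))
    (le_aa K t hM n₀ (hsh sw hsw.1 ((j * n₀ : ℕ) : ℤ)))
  rintro b ⟨w', ⟨⟨s', hs'⟩, _⟩, h1, rfl⟩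
  refine ⟨fun m => s' (m + ((j * n₀ : ℕ) : ℤ)), hsh s' hs'.1 _, ?_, ?_⟩
  · intro i hi
    have h2 : Rz K t n₀ s w j s' := (hs'.mono hj.le).congr (fun i hi => (h1 i hi).symm)
    exact h2.agree hn₀ (hsw.mono hj.le) _ (by linarith)
  · intro r
    have := hs'.2.2 j hj r
    rw [← this]
    show s' (((r : ℕ) : ℤ) + ((j * n₀ : ℕ) : ℤ)) = _
    congr 1
    push_cast
    ring

theorem FF_bad (hd : ∀ s ∈ XX K t, ∀ s' ∈ XX K t, ∀ (j : ℤ) (r : ℕ), (∀ i < j, s i = s' i) →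
      (∃ i, j ≤ i ∧ i < j + r ∧ s i ≠ s' i) → sol K s j ≠ sol K s' j)
    (n₀ k : ℕ) (hn₀ : 0 < n₀) (s : ℤ → ℤ) :
    ∀ w ∈ FF K t n₀ s k, ∀ j < k,
      {b | ∃ w' ∈ FF K t n₀ s k, (∀ i < j, w' i = w i) ∧ Bad K t n₀ s w' j ∧ w' j = b}.ncard
        ≤ 2 := by
  rintro w - j hj
  by_contra hcon
  push Not at hcon
  obtain ⟨b₁, h₁, b₂, h₂, b₃, h₃, h₁₂, h₁₃, h₂₃⟩ := (Set.two_lt_ncard (Set.finite_of_ncard_pos
    (by omega))).1 hcon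
  obtain ⟨w₁, hw₁, e₁, ⟨s₁, hs₁, hn₁⟩, rfl⟩ := h₁
  obtain ⟨w₂, hw₂, e₂, ⟨s₂, hs₂, hn₂⟩, rfl⟩ := h₂
  obtain ⟨w₃, hw₃, e₃, ⟨s₃, hs₃, hn₃⟩, rfl⟩ := h₃
  -- the values are pairwise different
  have hne : ∀ (u u' : ℕ → (Fin n₀ → ℤ)) (r r' : ℤ → ℤ), (∀ i < j, u i = w i) →
      (∀ i < j, u' i = w i) → Rz K t n₀ s u (j + 1) r → Rz K t n₀ s u' (j + 1) r' →
      u j ≠ u' j → sol K r ((j * n₀ : ℕ) : ℤ) ≠ sol K r' ((j * n₀ : ℕ) : ℤ) := by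
    intro u u' r r' hu hu' hr hr' hne
    refine hd r hr.1 r' hr'.1 _ n₀ ?_ ?_
    · have a1 : Rz K t n₀ s w j r := (hr.mono (Nat.le_succ j)).congr
        (fun i hi => (hu i hi).symm)
      have a2 : Rz K t n₀ s w j r' := (hr'.mono (Nat.le_succ j)).congr
        (fun i hi => (hu' i hi).symm)
      exact a1.agree hn₀ a2
    · obtain ⟨x, hx⟩ : ∃ x, u j x ≠ u' j x := by
        by_contra hc
        push Not at hc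
        exact hne (funext hc)
      refine ⟨((j * n₀ + (x : ℕ) : ℕ) : ℤ), by push_cast; omega, by push_cast; have := x.2; omega,
        ?_⟩
      rw [hr.2.2 j (Nat.lt_succ_self j) x, hr'.2.2 j (Nat.lt_succ_self j) x]
      exact hx
  -- nobody can be in the middle
  have key : ∀ (u v v' : ℕ → (Fin n₀ → ℤ)) (r q q' : ℤ → ℤ), (∀ i < j, u i = w i) →
      (∀ i < j, v i = w i) → (∀ i < j, v' i = w i) → Rz K t n₀ s u (j + 1) r →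
      Rz K t n₀ s v (j + 1) q → Rz K t n₀ s v' (j + 1) q' → u j ≠ v j → u j ≠ v' j →
      sol K q ((j * n₀ : ℕ) : ℤ) < sol K r ((j * n₀ : ℕ) : ℤ) →
      sol K r ((j * n₀ : ℕ) : ℤ) < sol K q' ((j * n₀ : ℕ) : ℤ) →
      ∃ sm sp, Rz K t n₀ s u j sm ∧ Rz K t n₀ s u j sp ∧
        (∃ r : Fin n₀, sm ((j * n₀ + (r : ℕ) : ℕ) : ℤ) ≠ u j r) ∧
        (∃ r : Fin n₀, sp ((j * n₀ + (r : ℕ) : ℕ) : ℤ) ≠ u j r) ∧
        sol K sm ((j * n₀ : ℕ) : ℤ) < sol K r ((j * n₀ : ℕ) : ℤ) ∧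
        sol K r ((j * n₀ : ℕ) : ℤ) < sol K sp ((j * n₀ : ℕ) : ℤ) := by
    intro u v v' r q q' hu hv hv' hr hq hq' huv huv' h1 h2
    have hx : ∀ (v : ℕ → (Fin n₀ → ℤ)) (q : ℤ → ℤ), Rz K t n₀ s v (j + 1) q → u j ≠ v j →
        ∃ r : Fin n₀, q ((j * n₀ + (r : ℕ) : ℕ) : ℤ) ≠ u j r := by
      intro v q hq huv
      obtain ⟨x, hx⟩ : ∃ x, u j x ≠ v j x := by
        by_contra hc
        push Not at hc
        exact huv (funext hc)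
      refine ⟨x, ?_⟩
      rw [hq.2.2 j (Nat.lt_succ_self j) x]
      exact fun h => hx h.symm
    exact ⟨q, q', (hq.mono (Nat.le_succ j)).congr (fun i hi => (hu i hi).trans (hv i hi).symm),
      (hq'.mono (Nat.le_succ j)).congr (fun i hi => (hu i hi).trans (hv' i hi).symm),
      hx v q hq huv, hx v' q' hq' huv', h1, h2⟩
  have x₁₂ := hne w₁ w₂ s₁ s₂ e₁ e₂ hs₁ hs₂ h₁₂
  have x₁₃ := hne w₁ w₃ s₁ s₃ e₁ e₃ hs₁ hs₃ h₁₃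
  have x₂₃ := hne w₂ w₃ s₂ s₃ e₂ e₃ hs₂ hs₃ h₂₃
  rcases lt_or_gt_of_ne x₁₂ with h12 | h12 <;> rcases lt_or_gt_of_ne x₁₃ with h13 | h13 <;>
    rcases lt_or_gt_of_ne x₂₃ with h23 | h23
  · exact hn₂ (key w₂ w₁ w₃ s₂ s₁ s₃ e₂ e₁ e₃ hs₂ hs₁ hs₃ h₁₂.symm h₂₃ h12 h23)
  · exact hn₃ (key w₃ w₁ w₂ s₃ s₁ s₂ e₃ e₁ e₂ hs₃ hs₁ hs₂ h₁₃.symm h₂₃.symm h13 h23)
  · exact absurd (h12.trans h23) (not_lt.2 h13.le)
  · exact hn₁ (key w₁ w₃ w₂ s₁ s₃ s₂ e₁ e₃ e₂ hs₁ hs₃ hs₂ h₁₃ h₁₂ h13 h12)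
  · exact hn₁ (key w₁ w₂ w₃ s₁ s₂ s₃ e₁ e₂ e₃ hs₁ hs₂ hs₃ h₁₂ h₁₃ h12 h13)
  · exact absurd (h13.trans h23) (not_lt.2 h12.le)
  · exact hn₃ (key w₃ w₂ w₁ s₃ s₂ s₁ e₃ e₂ e₁ hs₃ hs₂ hs₁ h₂₃.symm h₁₃.symm h23 h13)
  · exact hn₂ (key w₂ w₃ w₁ s₂ s₃ s₁ e₂ e₃ e₁ hs₂ hs₃ hs₁ h₂₃ h₁₂.symm h23 h12)

/-- The slack of a realiser before a good boundary. -/
theorem slack {g : ℕ → ℝ} (hg : ∀ s ∈ XX K t, ∀ s' ∈ XX K t, ∀ (j : ℤ) (r : ℕ),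
      (∀ i < j, s i = s' i) → (∃ i, j ≤ i ∧ i < j + r ∧ s i ≠ s' i) →
      g r ≤ |sol K s j - sol K s' j|)
    (hp : ∀ s ∈ XX K t, ∀ s' ∈ XX K t, ∀ j : ℤ, (∀ i < j, s i = s' i) → ∀ n : ℤ, n ≤ j →
      sol K s' n - sol K s n = α ^ (n - j) * (sol K s' j - sol K s j))
    {n₀ : ℕ} (hn₀ : 0 < n₀) {s sw : ℤ → ℤ} {w : ℕ → (Fin n₀ → ℤ)} {k j : ℕ}
    (hsw : Rz K t n₀ s w k sw) (hj : j < k) (hgood : ¬ Bad K t n₀ s w j) (n : ℤ)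
    (hn : n ≤ ((j * n₀ : ℕ) : ℤ)) :
    |sol K sw n| ≤ t - g n₀ * α ^ (n - ((j * n₀ : ℕ) : ℤ)) := by
  unfold Bad at hgood
  push Not at hgood
  obtain ⟨sm, sp, hsm, hsp, ⟨rm, hrm⟩, ⟨rp, hrp⟩, h1, h2⟩ := hgood sw (hsw.mono hj)
  set c : ℤ := ((j * n₀ : ℕ) : ℤ) with hc
  have hswj : Rz K t n₀ s w j sw := hsw.mono hj.le
  have hα : 0 < α := by linarith [K.one_lt]
  have hpow : 0 < α ^ (n - c) := zpow_pos hα _
  have dif : ∀ (s' : ℤ → ℤ) (r : Fin n₀), Rz K t n₀ s w j s' →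
      s' ((j * n₀ + (r : ℕ) : ℕ) : ℤ) ≠ w j r →
      g n₀ ≤ |sol K s' c - sol K sw c| ∧
        sol K s' n - sol K sw n = α ^ (n - c) * (sol K s' c - sol K sw c) := by
    intro s' r hs' hr
    constructor
    · refine hg s' hs'.1 sw hsw.1 c n₀ (hs'.agree hn₀ hswj) ⟨((j * n₀ + (r : ℕ) : ℕ) : ℤ),
        by rw [hc]; push_cast; omega, by rw [hc]; push_cast; have := r.2; omega, ?_⟩
      rw [hsw.2.2 j hj r]
      exact hr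
    · exact hp sw hsw.1 s' hs'.1 c (hswj.agree hn₀ hs') n hn
  obtain ⟨gm, em⟩ := dif sm rm hsm hrm
  obtain ⟨gp, ep⟩ := dif sp rp hsp hrp
  rw [abs_of_neg (by linarith)] at gm
  rw [abs_of_pos (by linarith)] at gp
  have bm := abs_le.1 (hsm.1.2 n)
  have bp := abs_le.1 (hsp.1.2 n)
  have m1 : g n₀ * α ^ (n - c) ≤ α ^ (n - c) * (sol K sp c - sol K sw c) := by
    rw [mul_comm]
    gcongr
  have m2 : g n₀ * α ^ (n - c) ≤ α ^ (n - c) * (-(sol K sm c - sol K sw c)) := by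
    rw [mul_comm]
    gcongr
  rw [abs_le]
  constructor
  · nlinarith [em, bm.1]
  · linarith [ep, bp.2]

end Pool.Agent.NH77.MS.Key2
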