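import Pool.Agent.NH77.MS.Key2

/-!
# M8, part 3: concatenations agree locally with the realisers (MP_ae43c0_nt)
-/

namespace Pool.Agent.NH77.MS.Key3

open Filter Topology Polynomial Pool.Agent.NH77.MS

/-- The next good boundary is near. -/
theorem nextgood {B : Type} (bad : (ℕ → B) → ℕ → Prop) (k N0 : ℕ) (hN0 : 2 ≤ N0) (w : ℕ → B)
    (i i' : ℕ) (hi : HH bad k (1 / (N0 : ℝ)) w i) (hi' : HH bad k (1 / (N0 : ℝ)) w i')
    (hk : i' + 1 ≤ k) (b : ℕ) (hb : i + b < i') :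
    ∃ x, 1 ≤ x ∧ i + b + x ≤ i' ∧ ¬ bad w (i + b + x) ∧ N0 * x ≤ 2 * N0 + 2 * b := by
  classical
  have hN : (0 : ℝ) < N0 := by
    have : 0 < N0 := by omega
    exact_mod_cast this
  have hgood' : ¬ bad w i' := by
    intro hbad
    have h1 := hi' 1 le_rfl hk
    have h2 : {j | i' ≤ j ∧ j < i' + 1 ∧ bad w j} = {i'} := by
      ext j
      constructor
      · rintro ⟨h, h', _⟩
        exact Set.mem_singleton_iff.2 (by omega)
      · intro h
        rw [Set.mem_singleton_iff] at h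
        subst h
        exact ⟨le_rfl, by omega, hbad⟩
    rw [h2, Set.ncard_singleton] at h1
    have h3 : (2 : ℝ) ≤ N0 := by exact_mod_cast hN0
    rw [Nat.cast_one, mul_one, le_div_iff₀ hN] at h1
    linarith
  have hex : ∃ x, 1 ≤ x ∧ ¬ bad w (i + b + x) := by
    refine ⟨i' - i - b, by omega, ?_⟩
    have : i + b + (i' - i - b) = i' := by omega
    rw [this]
    exact hgood'
  set x := Nat.find hex with hx
  obtain ⟨hx1, hx2⟩ := Nat.find_spec hex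
  have hxle : x ≤ i' - i - b := by
    refine Nat.find_min' hex ⟨by omega, ?_⟩
    have : i + b + (i' - i - b) = i' := by omega
    rw [this]
    exact hgood'
  refine ⟨x, hx1, by omega, hx2, ?_⟩
  have hmin : ∀ y, 1 ≤ y → y < x → bad w (i + b + y) := by
    intro y hy1 hy2
    by_contra hc
    exact Nat.find_min hex hy2 ⟨hy1, hc⟩
  have hH := hi (b + x) (by omega) (by omega)
  have hfin : ({j | i ≤ j ∧ j < i + (b + x) ∧ bad w j} : Set ℕ).Finite :=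
    (Set.finite_Iio (i + (b + x))).subset (fun j hj => hj.2.1)
  have hcard : x - 1 ≤ ({j | i ≤ j ∧ j < i + (b + x) ∧ bad w j} : Set ℕ).ncard := by
    have h1 : (Set.Ico (i + b + 1) (i + b + x)).ncard = x - 1 := by
      rw [← Finset.coe_Ico, Set.ncard_coe_finset, Nat.card_Ico]
      omega
    rw [← h1]
    refine Set.ncard_le_ncard ?_ hfin
    intro j hj
    obtain ⟨h2, h3⟩ := Set.mem_Ico.1 hj
    refine ⟨by omega, by omega, ?_⟩
    have h4 := hmin (j - (i + b)) (by omega) (by omega)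
    have h5 : i + b + (j - (i + b)) = j := by omega
    rwa [h5] at h4
  have h6 : ((x - 1 : ℕ) : ℝ) ≤ 1 / (N0 : ℝ) * ((b + x : ℕ) : ℝ) :=
    le_trans (by exact_mod_cast hcard) hH
  rw [one_div, inv_mul_eq_div, le_div_iff₀ hN] at h6
  have h7 : (x - 1) * N0 ≤ b + x := by exact_mod_cast h6
  obtain ⟨y, hy⟩ : ∃ y, x = y + 1 := ⟨x - 1, by omega⟩
  rw [hy] at h7 ⊢
  simp only [Nat.add_sub_cancel] at h7
  obtain ⟨N1, hN1⟩ : ∃ N1, N0 = N1 + 2 := ⟨N0 - 2, by omega⟩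
  rw [hN1] at h7 ⊢
  nlinarith

section agree

variable {L : ℕ} (hL : 0 < L) (S : Bool → ℤ → ℤ) (a0 : ℤ)

theorem cc_add (W : Bool → ℕ → ℤ) (σ : ℤ → Bool) (J : ℤ) (x : ℕ) (hx : x < L) :
    cc L W σ (J * L + x) = W (σ J) x := by
  have hL' : (0 : ℤ) < L := by
    have : 0 < L := by omega
    exact_mod_cast this
  have hx' : (x : ℤ) < L := by exact_mod_cast hx
  have h1 : (J * L + x) / (L : ℤ) = J := by
    rw [add_comm, Int.add_mul_ediv_right _ _ hL'.ne', Int.ediv_eq_zero_of_lt (by omega) hx']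
    omega
  have h2 : (J * L + x) % (L : ℤ) = x := by
    rw [add_comm, Int.add_mul_emod_self_right, Int.emod_eq_of_lt (by omega) hx']
  unfold cc
  rw [h1, h2]
  simp

include hL in
theorem agreeR (q' : ℕ) (hR : ∀ b : Bool, ∀ y : ℕ, y < q' →
      S b (a0 + y) = S true (a0 + y) ∧ S b (a0 + L + y) = S true (a0 + y)) :
    ∀ x : ℕ, x < q' → ∀ (σ : ℤ → Bool) (J : ℤ),
      cc L (fun b r => S b (a0 + r)) σ (J * L + x) = S true (a0 + x) := by
  intro x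
  induction x using Nat.strong_induction_on with
  | _ x ih =>
    intro hx σ J
    rcases lt_or_ge x L with h | h
    · rw [cc_add _ σ J x h]
      exact (hR (σ J) x hx).1
    · obtain ⟨y, rfl⟩ := Nat.exists_eq_add_of_le h
      have e1 := ih y (by omega) (by omega) σ (J + 1)
      have e2 : (J * L + ((L + y : ℕ) : ℤ) : ℤ) = (J + 1) * L + (y : ℤ) := by
        push_cast
        ring
      rw [e2, e1]
      have e3 := (hR true y (by omega)).2
      rw [← e3]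
      congr 1
      push_cast
      ring

include hL in
theorem agreeL (l' : ℕ) (hLf : ∀ b : Bool, ∀ y : ℕ, 1 ≤ y → y ≤ l' →
      S b (a0 - y) = S true (a0 - y) ∧ S b (a0 + L - y) = S true (a0 - y)) :
    ∀ x : ℕ, 1 ≤ x → x ≤ l' → ∀ (σ : ℤ → Bool) (J : ℤ),
      cc L (fun b r => S b (a0 + r)) σ (J * L - x) = S true (a0 - x) := by
  intro x
  induction x using Nat.strong_induction_on with
  | _ x ih =>
    intro hx1 hx σ J
    rcases le_or_gt x L with h | h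
    · obtain ⟨y, hy⟩ := Nat.exists_eq_add_of_le h
      have e2 : (J * L - (x : ℤ) : ℤ) = (J - 1) * L + (y : ℤ) := by
        have : (L : ℤ) = x + y := by exact_mod_cast hy
        rw [this]
        ring
      rw [e2, cc_add _ σ (J - 1) y (by omega)]
      have e3 := (hLf (σ (J - 1)) x hx1 hx).2
      show S (σ (J - 1)) (a0 + (y : ℤ)) = _
      rw [← e3]
      congr 1
      have : (L : ℤ) = x + y := by exact_mod_cast hy
      rw [this]
      ring
    · obtain ⟨y, rfl⟩ := Nat.exists_eq_add_of_le h.le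
      have e1 := ih y (by omega) (by omega) (by omega) σ (J - 1)
      have e2 : (J * L - ((L + y : ℕ) : ℤ) : ℤ) = (J - 1) * L - (y : ℤ) := by
        push_cast
        ring
      rw [e2, e1]
      have e3 := (hLf true (L + y) (by omega) hx).2
      rw [← e3]
      congr 1
      push_cast
      ring

include hL in
theorem agree (l' q' : ℕ) (hR : ∀ b : Bool, ∀ y : ℕ, y < q' →
      S b (a0 + y) = S true (a0 + y) ∧ S b (a0 + L + y) = S true (a0 + y))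
    (hLf : ∀ b : Bool, ∀ y : ℕ, 1 ≤ y → y ≤ l' →
      S b (a0 - y) = S true (a0 - y) ∧ S b (a0 + L - y) = S true (a0 - y))
    (σ : ℤ → Bool) (J : ℤ) (x : ℤ) (hx1 : -(l' : ℤ) ≤ x) (hx2 : x < L + q') :
    cc L (fun b r => S b (a0 + r)) σ (J * L + x) = S (σ J) (a0 + x) := by
  rcases lt_or_ge x 0 with h | h
  · obtain ⟨y, hy⟩ := Int.eq_ofNat_of_zero_le (show 0 ≤ -x by omega)
    have hy1 : 1 ≤ y := by omega
    have hy2 : y ≤ l' := by omega
    have e := agreeL hL S a0 l' hLf y hy1 hy2 σ J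
    have e2 : x = -(y : ℤ) := by omega
    rw [e2, ← sub_eq_add_neg, ← sub_eq_add_neg, e]
    exact ((hLf (σ J) y hy1 hy2).1).symm
  · obtain ⟨y, rfl⟩ := Int.eq_ofNat_of_zero_le h
    rcases lt_or_ge y L with h' | h'
    · exact cc_add _ σ J y h'
    · obtain ⟨z, rfl⟩ := Nat.exists_eq_add_of_le h'
      have hz : z < q' := by
        push_cast at hx2
        omega
      have e := agreeR hL S a0 q' hR z hz σ (J + 1)
      have e2 : (J * L + ((L + z : ℕ) : ℤ) : ℤ) = (J + 1) * L + (z : ℤ) := by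
        push_cast
        ring
      rw [e2, e]
      have e3 := (hR (σ J) z hz).2
      rw [← e3]
      congr 1
      push_cast
      ring

end agree

/-- The numerical comparison of the errors with the slack. -/
theorem numeric {α ρ g EM : ℝ} (hα : 1 < α) (hρ0 : 0 < ρ) (hρ1 : ρ < 1) (hg : 0 < g)
    (hEM : 0 ≤ EM) {n₀ N0 l q : ℕ} (hN0 : 0 < N0) (hN : ρ ^ N0 ≤ α ^ (-2 : ℤ))
    (hq : EM * α ^ (-((q * n₀ : ℕ) : ℤ)) ≤ g / 4)
    (hl : EM * ρ ^ (l * n₀) ≤ g / 4 * α ^ (-((2 * n₀ : ℕ) : ℤ)))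
    {i i' b x o : ℕ} (hio : b * n₀ ≤ o) (hix : i + b + x ≤ i')
    (hx : N0 * x ≤ 2 * N0 + 2 * b) :
    EM * (ρ ^ (((o : ℤ)) + (l * n₀ : ℕ)) + α ^ ((o : ℤ) - ((i' - i) * n₀ : ℕ) - (q * n₀ : ℕ)))
      ≤ g / 2 * α ^ ((o : ℤ) - ((b + x) * n₀ : ℕ)) := by
  have hα0 : 0 < α := by linarith
  -- right error
  have hr : EM * α ^ ((o : ℤ) - ((i' - i) * n₀ : ℕ) - (q * n₀ : ℕ))
      ≤ g / 4 * α ^ ((o : ℤ) - ((b + x) * n₀ : ℕ)) := by
    have h1 : (o : ℤ) - ((i' - i) * n₀ : ℕ) - (q * n₀ : ℕ)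
        ≤ ((o : ℤ) - ((b + x) * n₀ : ℕ)) + (-((q * n₀ : ℕ) : ℤ)) := by
      have h2 : (b + x) * n₀ ≤ (i' - i) * n₀ := Nat.mul_le_mul_right _ (by omega)
      have h3 : (((b + x) * n₀ : ℕ) : ℤ) ≤ (((i' - i) * n₀ : ℕ) : ℤ) := by exact_mod_cast h2
      linarith
    calc EM * α ^ ((o : ℤ) - ((i' - i) * n₀ : ℕ) - (q * n₀ : ℕ))
        ≤ EM * α ^ (((o : ℤ) - ((b + x) * n₀ : ℕ)) + (-((q * n₀ : ℕ) : ℤ))) := by
          gcongr
          exact hα.le
      _ = EM * α ^ (-((q * n₀ : ℕ) : ℤ)) * α ^ ((o : ℤ) - ((b + x) * n₀ : ℕ)) := by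
          rw [zpow_add₀ hα0.ne']
          ring
      _ ≤ g / 4 * α ^ ((o : ℤ) - ((b + x) * n₀ : ℕ)) := by
          gcongr
  -- comparison of the powers
  have hcmp : α ^ (-((2 * n₀ : ℕ) : ℤ)) * ρ ^ (b * n₀) ≤ α ^ ((o : ℤ) - ((b + x) * n₀ : ℕ)) := by
    have h1 : α ^ (-((x * n₀ : ℕ) : ℤ)) ≤ α ^ ((o : ℤ) - ((b + x) * n₀ : ℕ)) := by
      refine zpow_le_zpow_right₀ hα.le ?_
      have : ((b * n₀ : ℕ) : ℤ) ≤ o := by exact_mod_cast hio
      push_cast at this ⊢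
      nlinarith
    refine le_trans ?_ h1
    rw [← pow_le_pow_iff_left₀ (by positivity) (by positivity) hN0.ne']
    rw [mul_pow, ← pow_mul ρ]
    have h3 : ρ ^ (b * n₀ * N0) ≤ α ^ (-((2 * (b * n₀) : ℕ) : ℤ)) := by
      have : ρ ^ (b * n₀ * N0) = (ρ ^ N0) ^ (b * n₀) := by
        rw [← pow_mul]
        congr 1
        ring
      rw [this]
      calc (ρ ^ N0) ^ (b * n₀) ≤ (α ^ (-2 : ℤ)) ^ (b * n₀) := by gcongr
        _ = α ^ (-((2 * (b * n₀) : ℕ) : ℤ)) := by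
          rw [← zpow_natCast, ← zpow_mul]
          congr 1
    calc (α ^ (-((2 * n₀ : ℕ) : ℤ))) ^ N0 * ρ ^ (b * n₀ * N0)
        ≤ (α ^ (-((2 * n₀ : ℕ) : ℤ))) ^ N0 * α ^ (-((2 * (b * n₀) : ℕ) : ℤ)) := by gcongr
      _ = α ^ (-((2 * n₀ * N0 + 2 * (b * n₀) : ℕ) : ℤ)) := by
          rw [← zpow_natCast, ← zpow_mul, ← zpow_add₀ hα0.ne']
          congr 1
          push_cast
          ring
      _ ≤ α ^ (-((x * n₀ * N0 : ℕ) : ℤ)) := by
          refine zpow_le_zpow_right₀ hα.le ?_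
          have h4 : x * n₀ * N0 ≤ 2 * n₀ * N0 + 2 * (b * n₀) := by
            have := Nat.mul_le_mul_right n₀ hx
            nlinarith
          have h5 : ((x * n₀ * N0 : ℕ) : ℤ) ≤ ((2 * n₀ * N0 + 2 * (b * n₀) : ℕ) : ℤ) := by
            exact_mod_cast h4
          linarith
      _ = (α ^ (-((x * n₀ : ℕ) : ℤ))) ^ N0 := by
          rw [← zpow_natCast, ← zpow_mul]
          congr 1
          push_cast
          ring
  have hll : EM * ρ ^ (((o : ℤ)) + (l * n₀ : ℕ)) ≤ g / 4 * α ^ ((o : ℤ) - ((b + x) * n₀ : ℕ)) := by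
    have h1 : ρ ^ (((o : ℤ)) + (l * n₀ : ℕ)) ≤ ρ ^ (b * n₀) * ρ ^ (l * n₀) := by
      rw [← pow_add, ← zpow_natCast]
      refine zpow_le_zpow_right_of_le_one₀ hρ0 hρ1.le ?_
      have : ((b * n₀ : ℕ) : ℤ) ≤ o := by exact_mod_cast hio
      push_cast at this ⊢
      linarith
    calc EM * ρ ^ (((o : ℤ)) + (l * n₀ : ℕ)) ≤ EM * (ρ ^ (b * n₀) * ρ ^ (l * n₀)) := by gcongr
      _ = EM * ρ ^ (l * n₀) * ρ ^ (b * n₀) := by ring
      _ ≤ g / 4 * α ^ (-((2 * n₀ : ℕ) : ℤ)) * ρ ^ (b * n₀) := by gcongr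
      _ = g / 4 * (α ^ (-((2 * n₀ : ℕ) : ℤ)) * ρ ^ (b * n₀)) := by ring
      _ ≤ g / 4 * α ^ ((o : ℤ) - ((b + x) * n₀ : ℕ)) := by gcongr
  calc EM * (ρ ^ (((o : ℤ)) + (l * n₀ : ℕ)) + α ^ ((o : ℤ) - ((i' - i) * n₀ : ℕ) - (q * n₀ : ℕ)))
      = EM * ρ ^ (((o : ℤ)) + (l * n₀ : ℕ))
        + EM * α ^ ((o : ℤ) - ((i' - i) * n₀ : ℕ) - (q * n₀ : ℕ)) := by ring
    _ ≤ g / 4 * α ^ ((o : ℤ) - ((b + x) * n₀ : ℕ)) + g / 4 * α ^ ((o : ℤ) - ((b + x) * n₀ : ℕ)) :=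
        add_le_add hll hr
    _ = g / 2 * α ^ ((o : ℤ) - ((b + x) * n₀ : ℕ)) := by ring

end Pool.Agent.NH77.MS.Key3
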