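import Pool.Agent.NH77.MS.Sol

/-!
# MS6 and MS7: languages; a past with many futures (MP_ae43c0_nt)
-/

namespace Pool.Agent.NH77.MS.LangF

open Filter Topology Polynomial Pool.Agent.NH77.MS Pool.Agent.NH77.MS.Sol

theorem recn_bound {P : ℤ[X]} {e : ℕ → ℝ} {t : ℝ} (he : ∀ n, |e n| ≤ t) (n : ℕ) :
    |recn P e n| ≤ (cs P : ℝ) * t := by
  unfold recn cs
  push_cast
  rw [Finset.sum_mul]
  refine (Finset.abs_sum_le_sum_abs _ _).trans ?_
  refine Finset.sum_le_sum (fun i _ => ?_)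
  rw [abs_mul]
  exact mul_le_mul_of_nonneg_left (he _) (abs_nonneg _)

theorem finite_bdd {ι : Type*} [Finite ι] (M : ℤ) : {w : ι → ℤ | ∀ i, |w i| ≤ M}.Finite := by
  have h := Set.Finite.pi' (ι := ι) (fun _ => Set.finite_Icc (-M) M)
  refine h.subset ?_
  intro w hw i
  exact Set.mem_Icc.2 (abs_le.1 (hw i))

theorem lang_sub (P : ℤ[X]) (t : ℝ) (n : ℕ) :
    Lang P t n ⊆ {w : Fin n → ℤ | ∀ i, |w i| ≤ ⌊(cs P : ℝ) * t⌋} := by
  rintro w ⟨e, ⟨he, _⟩, hw⟩ i
  have h1 := recn_bound (P := P) he i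
  rw [hw i] at h1
  rw [Int.le_floor]
  exact_mod_cast h1

theorem lang_finite (P : ℤ[X]) (t : ℝ) (n : ℕ) : (Lang P t n).Finite :=
  (finite_bdd _).subset (lang_sub P t n)

theorem recn_shift (P : ℤ[X]) (e : ℕ → ℝ) (c n : ℕ) :
    recn P (fun i => e (i + c)) n = recn P e (n + c) := by
  unfold recn
  refine Finset.sum_congr rfl (fun i _ => ?_)
  show (P.coeff i : ℝ) * e (n + i + c) = (P.coeff i : ℝ) * e (n + c + i)
  rw [show n + i + c = n + c + i by ring]

theorem E1_shift {P : ℤ[X]} {t : ℝ} {e : ℕ → ℝ} (he : e ∈ E1 P t) (c : ℕ) :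
    (fun i => e (i + c)) ∈ E1 P t := by
  refine ⟨fun n => he.1 _, fun n => ?_⟩
  rw [recn_shift]
  exact he.2 _

theorem lang_add (P : ℤ[X]) (t : ℝ) (m n : ℕ) : Nn P t (m + n) ≤ Nn P t m * Nn P t n := by
  unfold Nn
  rw [← Set.ncard_prod]
  refine Set.ncard_le_ncard_of_injOn
    (fun w => ((fun i => w (Fin.castAdd n i)), (fun i => w (Fin.natAdd m i)))) ?_ ?_
    ((lang_finite P t m).prod (lang_finite P t n))
  · rintro w ⟨e, he, hw⟩
    refine ⟨⟨e, he, fun i => ?_⟩, ⟨fun i => e (i + m), E1_shift he m, fun i => ?_⟩⟩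
    · simpa using hw (Fin.castAdd n i)
    · rw [recn_shift, ← hw (Fin.natAdd m i)]
      simp only [Fin.val_natAdd]
      congr 1
      ring
  · intro w _ w' _ h
    simp only [Prod.mk.injEq] at h
    funext i
    refine Fin.addCases (fun j => ?_) (fun j => ?_) i
    · exact congrFun h.1 j
    · exact congrFun h.2 j

/-- Sequential compactness of bounded families of functions on a countable set. -/
theorem compact_seq {ι : Type*} [Countable ι] (t : ℝ) (E : ℕ → ι → ℝ) (hE : ∀ k i, |E k i| ≤ t) :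
    ∃ φ : ℕ → ℕ, StrictMono φ ∧ ∃ e : ι → ℝ, (∀ i, |e i| ≤ t) ∧
      ∀ i, Tendsto (fun k => E (φ k) i) atTop (𝓝 (e i)) := by
  have hc : IsCompact (Set.pi Set.univ (fun _ : ι => Set.Icc (-t) t)) :=
    isCompact_univ_pi (fun _ => isCompact_Icc)
  obtain ⟨e, he, φ, hφ, hlim⟩ := hc.tendsto_subseq (x := E)
    (fun k => by
      rw [Set.mem_univ_pi]
      intro i
      exact Set.mem_Icc.2 (abs_le.1 (hE k i)))
  refine ⟨φ, hφ, e, fun i => ?_, fun i => ?_⟩
  · rw [Set.mem_univ_pi] at he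
    exact abs_le.2 (Set.mem_Icc.1 (he i))
  · exact (tendsto_pi_nhds.1 hlim) i

theorem int_lim {f : ℕ → ℝ} {x : ℝ} (hf : Tendsto f atTop (𝓝 x)) (h : ∀ᶠ k in atTop, ∃ m : ℤ, f k = m) :
    ∃ m : ℤ, x = m := by
  have hcl : IsClosed (Set.range (fun m : ℤ => (m : ℝ))) := Int.isClosedEmbedding_coe_real.isClosed_range
  have := hcl.mem_of_tendsto hf (h.mono (fun k hk => by
    obtain ⟨m, hm⟩ := hk
    exact ⟨m, hm.symm⟩))
  obtain ⟨m, hm⟩ := this
  exact ⟨m, hm.symm⟩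

theorem recn_tendsto (P : ℤ[X]) {E : ℕ → ℕ → ℝ} {e : ℕ → ℝ}
    (h : ∀ i, Tendsto (fun k => E k i) atTop (𝓝 (e i))) (n : ℕ) :
    Tendsto (fun k => recn P (E k) n) atTop (𝓝 (recn P e n)) := by
  unfold recn
  exact tendsto_finsetSum _ (fun i _ => (h _).const_mul _)

theorem recz_tendsto (P : ℤ[X]) {E : ℕ → ℤ → ℝ} {e : ℤ → ℝ}
    (h : ∀ i, Tendsto (fun k => E k i) atTop (𝓝 (e i))) (n : ℤ) :
    Tendsto (fun k => recz P (E k) n) atTop (𝓝 (recz P e n)) := by
  unfold recz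
  exact tendsto_finsetSum _ (fun i _ => (h _).const_mul _)

theorem Lang_mono (P : ℤ[X]) {t t' : ℝ} (h : t ≤ t') (n : ℕ) : Lang P t n ⊆ Lang P t' n := by
  rintro w ⟨e, he, hw⟩
  exact ⟨e, ⟨fun i => (he.1 i).trans h, he.2⟩, hw⟩

/-- If a fixed word is realised at levels tending to `t` it is realised at level `t`. -/
theorem lang_closed (P : ℤ[X]) (t : ℝ) (n : ℕ) (w : Fin n → ℤ) (τ : ℕ → ℝ) (hτ : ∀ k, τ k ≤ t + 1)
    (hlim : Tendsto τ atTop (𝓝 t)) (h : ∀ k, w ∈ Lang P (τ k) n) : w ∈ Lang P t n := by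
  choose E hE hw using h
  obtain ⟨φ, hφ, e, -, hconv⟩ := compact_seq (t + 1) E (fun k i => ((hE k).1 i).trans (hτ k))
  refine ⟨e, ⟨fun i => ?_, fun i => ?_⟩, fun i => ?_⟩
  · have h1 : Tendsto (fun k => |E (φ k) i|) atTop (𝓝 |e i|) := (hconv i).abs
    have h2 : Tendsto (fun k => τ (φ k)) atTop (𝓝 t) := hlim.comp hφ.tendsto_atTop
    exact le_of_tendsto_of_tendsto' h1 h2 (fun k => (hE (φ k)).1 i)
  · exact int_lim (recn_tendsto P hconv i) (Eventually.of_forall (fun k => (hE (φ k)).2 i))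
  · have h1 := recn_tendsto P hconv (i : ℕ)
    have h2 : (fun k => recn P (E (φ k)) i) = fun _ => (w i : ℝ) := by
      funext k
      exact hw (φ k) i
    rw [h2] at h1
    exact tendsto_nhds_unique h1 tendsto_const_nhds

theorem rc (P : ℤ[X]) (t : ℝ) (n : ℕ) : ∃ δ > 0, ∀ t', t ≤ t' → t' ≤ t + δ → Nn P t' n ≤ Nn P t n := by
  by_contra hcon
  push Not at hcon
  have hk : ∀ k : ℕ, ∃ t', t ≤ t' ∧ t' ≤ t + 1 / ((k : ℝ) + 1) ∧ Nn P t n < Nn P t' n := by
    intro k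
    exact hcon (1 / ((k : ℝ) + 1)) (by positivity)
  choose τ h1 h2 h3 using hk
  have hle1 : ∀ k : ℕ, 1 / ((k : ℝ) + 1) ≤ 1 := by
    intro k
    rw [div_le_one (by positivity)]
    have : (0 : ℝ) ≤ k := by positivity
    linarith
  have hw : ∀ k, ∃ w ∈ Lang P (τ k) n, w ∉ Lang P t n := by
    intro k
    by_contra hc
    push Not at hc
    have : Nn P (τ k) n ≤ Nn P t n := Set.ncard_le_ncard hc (lang_finite P t n)
    have := h3 k
    omega
  choose w hw1 hw2 using hw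
  -- some word occurs infinitely often
  have hfin : (Lang P (t + 1) n).Finite := lang_finite P (t + 1) n
  have hmem : ∀ k, w k ∈ Lang P (t + 1) n := fun k =>
    Lang_mono P ((h2 k).trans (by linarith [hle1 k])) n (hw1 k)
  have : ∃ v, ∃ᶠ k in atTop, w k = v := by
    by_contra hc
    push Not at hc
    have hall : ∀ᶠ k in atTop, ∀ v ∈ Lang P (t + 1) n, w k ≠ v :=
      (Set.Finite.eventually_all hfin).2 (fun v _ => hc v)
    obtain ⟨k, hk⟩ := hall.exists
    exact hk _ (hmem k) rfl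
  obtain ⟨v, hv⟩ := this
  obtain ⟨ψ, hψ, hψv⟩ := extraction_of_frequently_atTop hv
  have hv2 : v ∈ Lang P t n := by
    refine lang_closed P t n v (fun k => τ (ψ k)) (fun k => (h2 _).trans (by linarith [hle1 (ψ k)]))
      ?_ (fun k => by rw [← hψv k]; exact hw1 _)
    have hτ : Tendsto τ atTop (𝓝 t) := by
      have h5 : Tendsto (fun k : ℕ => t + 1 / ((k : ℝ) + 1)) atTop (𝓝 (t + 0)) :=
        tendsto_const_nhds.add tendsto_one_div_add_atTop_nhds_zero_nat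
      rw [add_zero] at h5
      exact tendsto_of_tendsto_of_tendsto_of_le_of_le tendsto_const_nhds h5 h1 h2
    exact hτ.comp hψ.tendsto_atTop
  have := hw2 (ψ 0)
  rw [hψv 0] at this
  exact this hv2

theorem lang : St_lang := fun P t => ⟨lang_finite P t, lang_add P t, rc P t⟩

end Pool.Agent.NH77.MS.LangF
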