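import Pool.Agent.NH77.MS.Lang

/-!
# MS7: a past with many futures (MP_ae43c0_nt)
-/

namespace Pool.Agent.NH77.MS.PastF

open Filter Topology Polynomial Pool.Agent.NH77.MS Pool.Agent.NH77.MS.Sol Pool.Agent.NH77.MS.LangF

/-- Counting with a uniform bound on the number of continuations. -/
theorem count (P : ℤ[X]) (t : ℝ) (R m A : ℕ)
    (h : ∀ p ∈ Lang P t R, {w : Fin m → ℤ | Fin.append p w ∈ Lang P t (R + m)}.ncard ≤ A)
    (hfin : ∀ p : Fin R → ℤ, {w : Fin m → ℤ | Fin.append p w ∈ Lang P t (R + m)}.Finite) :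
    ∀ k : ℕ, Nn P t (R + k * m) ≤ Nn P t R * A ^ k := by
  classical
  intro k
  induction k with
  | zero => simp
  | succ k ih =>
    have e0 : R + (k + 1) * m = (R + k * m) + m := by ring
    rw [e0]
    have hf1 := lang_finite P t (R + k * m + m)
    have hf2 := lang_finite P t (R + k * m)
    set S := hf1.toFinset with hS
    let f : (Fin (R + k * m + m) → ℤ) → (Fin (R + k * m) → ℤ) := fun w i => w (Fin.castAdd m i)
    have himg : (S.image f).card ≤ Nn P t (R + k * m) := by
      unfold Nn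
      rw [← Set.ncard_coe_finset]
      refine Set.ncard_le_ncard ?_ hf2
      intro w hw
      simp only [Finset.coe_image, Set.mem_image, Finset.mem_coe, hS, Set.Finite.mem_toFinset] at hw
      obtain ⟨w', ⟨e, he, hw'⟩, rfl⟩ := hw
      exact ⟨e, he, fun i => by simpa using hw' (Fin.castAdd m i)⟩
    have hfib : ∀ a ∈ S.image f, (S.filter (fun x => f x = a)).card ≤ A := by
      intro a ha
      simp only [Finset.mem_image, hS, Set.Finite.mem_toFinset] at ha
      obtain ⟨w0, ⟨e, he, hw0⟩, rfl⟩ := ha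
      have hidx : ∀ i : Fin R, k * m + (i : ℕ) < R + k * m + m := by
        intro i
        have := i.2
        omega
      set p : Fin R → ℤ := fun i => w0 ⟨k * m + i, hidx i⟩ with hp
      have hpL : p ∈ Lang P t R := by
        refine ⟨fun i => e (i + k * m), E1_shift he _, fun i => ?_⟩
        rw [recn_shift, ← hw0 ⟨k * m + i, hidx i⟩]
        congr 1
        exact Nat.add_comm _ _
      refine le_trans ?_ (h p hpL)
      rw [← Set.ncard_coe_finset]
      refine Set.ncard_le_ncard_of_injOn (fun w i => w (Fin.natAdd (R + k * m) i)) ?_ ?_ (hfin p)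
      · intro w hw
        simp only [Finset.coe_filter, Set.mem_ofPred_eq, hS, Set.Finite.mem_toFinset] at hw
        obtain ⟨⟨e', he', hw'⟩, hf⟩ := hw
        refine ⟨fun i => e' (i + k * m), E1_shift he' _, fun i => ?_⟩
        rw [recn_shift]
        refine Fin.addCases (fun j => ?_) (fun j => ?_) i
        · rw [Fin.append_left]
          have h1 := hw' ⟨k * m + j, hidx j⟩
          have hj2 := j.2
          have h2 := congrFun hf ⟨k * m + j, by omega⟩
          have h3 : w ⟨k * m + j, hidx j⟩ = w0 ⟨k * m + j, hidx j⟩ := h2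
          simp only [Fin.val_castAdd]
          rw [hp]
          simp only
          rw [← h3, ← h1]
          congr 1
          exact Nat.add_comm _ _
        · rw [Fin.append_right]
          have h1 := hw' (Fin.natAdd (R + k * m) j)
          rw [← h1]
          simp only [Fin.val_natAdd]
          congr 1
          omega
      · intro w hw w' hw' heq
        simp only [Finset.coe_filter, Set.mem_ofPred_eq] at hw hw'
        funext i
        refine Fin.addCases (fun j => ?_) (fun j => ?_) i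
        · exact congrFun (hw.2.trans hw'.2.symm) j
        · exact congrFun heq j
    have h1 : Nn P t (R + k * m + m) = S.card := by
      unfold Nn
      rw [Set.ncard_eq_toFinset_card _ hf1]
    rw [h1]
    calc S.card ≤ A * (S.image f).card := Finset.card_le_mul_card_image S _ hfib
      _ ≤ A * (Nn P t R * A ^ k) := Nat.mul_le_mul_left _ (himg.trans ih)
      _ = Nn P t R * A ^ (k + 1) := by ring

/-- The compactness argument. -/
theorem exists_R {α : ℝ} {P : ℤ[X]} (K : Kern α P) (t : ℝ)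
    (hXX : ∀ s : ℤ → ℤ, (∃ e : ℤ → ℝ, (∀ n, |e n| ≤ t) ∧ ∀ n, recz P e n = s n) → s ∈ XX K t)
    (m A : ℕ) (hfinF : ∀ s ∈ XX K t, (Fut K t s m).Finite)
    (hA : ∀ s ∈ XX K t, (Fut K t s m).ncard ≤ A)
    (hfin : ∀ (R : ℕ) (p : Fin R → ℤ), {w : Fin m → ℤ | Fin.append p w ∈ Lang P t (R + m)}.Finite)
    (ht : 0 ≤ t) :
    ∃ R : ℕ, ∀ p ∈ Lang P t R, {w : Fin m → ℤ | Fin.append p w ∈ Lang P t (R + m)}.ncard ≤ A := by
  classical
  by_contra hcon
  push Not at hcon
  have h1 : ∀ R : ℕ, ∃ (p : Fin R → ℤ) (S : Finset (Fin m → ℤ)), S.card = A + 1 ∧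
      ∀ w ∈ S, Fin.append p w ∈ Lang P t (R + m) := by
    intro R
    obtain ⟨p, -, hp⟩ := hcon R
    rw [Set.ncard_eq_toFinset_card _ (hfin R p)] at hp
    obtain ⟨S, hS1, hS2⟩ := Finset.exists_subset_card_eq (Nat.succ_le_of_lt hp)
    refine ⟨p, S, hS2, fun w hw => ?_⟩
    have := hS1 hw
    simpa using this
  choose p S hScard hSL using h1
  -- finitely many possibilities for `S R`
  have hWfin : ({w : Fin m → ℤ | ∀ i, |w i| ≤ ⌊(cs P : ℝ) * t⌋}).Finite := finite_bdd _
  have hSsub : ∀ R, S R ∈ (hWfin.toFinset.powerset : Finset (Finset (Fin m → ℤ))) := by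
    intro R
    rw [Finset.mem_powerset]
    intro w hw
    rw [Set.Finite.mem_toFinset]
    intro i
    have h2 := lang_sub P t (R + m) (hSL R w hw) (Fin.natAdd R i)
    rwa [Fin.append_right] at h2
  have hfreq : ∃ T, ∃ᶠ R in atTop, S R = T := by
    by_contra hc
    push Not at hc
    have hall : ∀ᶠ R in atTop, ∀ T ∈ (hWfin.toFinset.powerset : Finset (Finset (Fin m → ℤ))),
        S R ≠ T := (Filter.eventually_all_finset _).2 (fun T _ => hc T)
    obtain ⟨R, hR⟩ := hall.exists
    exact hR _ (hSsub R) rfl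
  obtain ⟨T, hT⟩ := hfreq
  obtain ⟨ψ, hψ, hψT⟩ := extraction_of_frequently_atTop hT
  have hTcard : T.card = A + 1 := by rw [← hψT 0]; exact hScard _
  have hTne : T.Nonempty := by
    rw [← Finset.card_pos]
    omega
  -- realisers
  have hreal : ∀ (k : ℕ) (w : T), ∃ e ∈ E1 P t, ∀ i : Fin (ψ k + m),
      recn P e i = Fin.append (p (ψ k)) w.1 i := by
    intro k w
    exact hSL (ψ k) w.1 (by rw [hψT k]; exact w.2)
  choose e he hrec using hreal
  set E : ℕ → (T × ℤ) → ℝ := fun k x =>
    if 0 ≤ x.2 + ψ k then e k x.1 ((x.2 + ψ k).toNat) else 0 with hE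
  have hEb : ∀ k x, |E k x| ≤ t := by
    intro k x
    rw [hE]
    simp only
    split_ifs
    · exact (he k x.1).1 _
    · simpa using ht
  obtain ⟨φ, hφ, l, hl, hconv⟩ := compact_seq t E hEb
  have hRinf : Tendsto (fun k => ψ (φ k)) atTop atTop := hψ.tendsto_atTop.comp hφ.tendsto_atTop
  have hconv' : ∀ w : T, ∀ n : ℤ, Tendsto (fun k => (fun n => E (φ k) (w, n)) n) atTop
      (𝓝 (l (w, n))) := fun w n => hconv (w, n)
  -- values of the recurrence along the sequence
  have hval : ∀ (w : T) (n : ℤ), ∀ᶠ k in atTop, 0 ≤ n + ψ (φ k) ∧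
      recz P (fun n => E (φ k) (w, n)) n = recn P (e (φ k) w) ((n + ψ (φ k)).toNat) := by
    intro w n
    have : ∀ᶠ k in atTop, (-n).toNat ≤ ψ (φ k) := hRinf.eventually_ge_atTop _
    filter_upwards [this] with k hk
    have h0 : 0 ≤ n + (ψ (φ k) : ℤ) := by omega
    refine ⟨h0, ?_⟩
    unfold recz recn
    refine Finset.sum_congr rfl (fun i _ => ?_)
    rw [hE]
    simp only
    rw [if_pos (by omega)]
    congr 2
    omega
  have hint : ∀ (w : T) (n : ℤ), ∃ z : ℤ, recz P (fun n => l (w, n)) n = z := by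
    intro w n
    refine int_lim (recz_tendsto P (hconv' w) n) ?_
    filter_upwards [hval w n] with k hk
    rw [hk.2]
    exact (he (φ k) w).2 _
  choose s hs using hint
  have hsX : ∀ w : T, s w ∈ XX K t := fun w => hXX _ ⟨fun n => l (w, n), fun n => hl _, hs w⟩
  -- the past does not depend on the word
  have hpast : ∀ (w w' : T) (n : ℤ), n < 0 → s w n = s w' n := by
    intro w w' n hn
    have h3 := recz_tendsto P (hconv' w) n
    have h4 := recz_tendsto P (hconv' w') n
    have h5 : (fun k => recz P (fun n => E (φ k) (w, n)) n) =ᶠ[atTop]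
        (fun k => recz P (fun n => E (φ k) (w', n)) n) := by
      filter_upwards [hval w n, hval w' n] with k hk hk'
      rw [hk.2, hk'.2]
      have hlt : (n + (ψ (φ k) : ℤ)).toNat < ψ (φ k) := by
        have := hk.1
        omega
      have a1 := hrec (φ k) w (Fin.castAdd m ⟨_, hlt⟩)
      have a2 := hrec (φ k) w' (Fin.castAdd m ⟨_, hlt⟩)
      rw [Fin.append_left] at a1 a2
      simp only [Fin.val_castAdd] at a1 a2
      rw [a1, a2]
    have h6 := tendsto_nhds_unique (h3.congr' h5) h4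
    rw [hs w n, hs w' n] at h6
    exact_mod_cast h6
  have hfut : ∀ (w : T) (i : Fin m), s w (i : ℕ) = w.1 i := by
    intro w i
    have h3 := recz_tendsto P (hconv' w) ((i : ℕ) : ℤ)
    have h5 : (fun k => recz P (fun n => E (φ k) (w, n)) ((i : ℕ) : ℤ)) =ᶠ[atTop]
        (fun _ => ((w.1 i : ℤ) : ℝ)) := by
      filter_upwards [hval w ((i : ℕ) : ℤ)] with k hk
      rw [hk.2]
      have a1 := hrec (φ k) w (Fin.natAdd (ψ (φ k)) i)
      rw [Fin.append_right] at a1
      rw [← a1]
      congr 1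
      simp only [Fin.val_natAdd]
      omega
    have h6 := tendsto_nhds_unique (h3.congr' h5) tendsto_const_nhds
    rw [hs w _] at h6
    exact_mod_cast h6
  obtain ⟨w0, hw0⟩ := hTne
  have hsub : (T : Set (Fin m → ℤ)) ⊆ Fut K t (s ⟨w0, hw0⟩) m := by
    intro w hw
    exact ⟨s ⟨w, hw⟩, hsX _, fun i hi => hpast _ _ i hi, fun i => hfut ⟨w, hw⟩ i⟩
  have h7 := Set.ncard_le_ncard hsub (hfinF _ (hsX _))
  rw [Set.ncard_coe_finset, hTcard] at h7
  have := hA _ (hsX ⟨w0, hw0⟩)
  omega

theorem past : St_past := by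
  intro α P K t lam ht hlam hgrow m
  obtain ⟨hXX, ⟨M, -, hM⟩, -⟩ := xx α P K
  have hfinF : ∀ s, (Fut K t s m).Finite := by
    intro s
    refine (finite_bdd (ι := Fin m) M).subset ?_
    rintro w ⟨s', hs', _, h2⟩ i
    rw [← h2 i]
    exact hM t ht s' hs' _
  have hlam0 : 0 < lam := by linarith
  have ht0 : 0 ≤ t := by
    have h := hgrow 0
    rw [pow_zero] at h
    have h1 : 0 < Nn P t 0 := by
      have : (0 : ℝ) < Nn P t 0 := by linarith
      exact_mod_cast this
    obtain ⟨w, e, he, -⟩ := (Set.ncard_pos (lang_finite P t 0)).1 h1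
    exact (abs_nonneg _).trans (he.1 0)
  by_contra hcon
  push Not at hcon
  have hlt : ∀ s ∈ XX K t, ((Fut K t s m).ncard : ℝ) < lam ^ m := fun s hs => hcon s hs (hfinF s)
  have hpos : 0 < lam ^ m := by positivity
  set A : ℕ := ⌈lam ^ m⌉₊ - 1 with hA
  have hceil : 0 < ⌈lam ^ m⌉₊ := Nat.ceil_pos.2 hpos
  have hA1 : (A : ℝ) < lam ^ m := by
    rw [hA]
    have h1 : ⌈lam ^ m⌉₊ - 1 < ⌈lam ^ m⌉₊ := by omega
    exact Nat.lt_ceil.1 h1
  have hA2 : ∀ s ∈ XX K t, (Fut K t s m).ncard ≤ A := by
    intro s hs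
    have h1 := Nat.lt_ceil.2 (hlt s hs)
    omega
  have hfin : ∀ (R : ℕ) (p : Fin R → ℤ),
      {w : Fin m → ℤ | Fin.append p w ∈ Lang P t (R + m)}.Finite := by
    intro R p
    refine (finite_bdd (ι := Fin m) ⌊(cs P : ℝ) * t⌋).subset ?_
    intro w hw i
    have h2 := lang_sub P t (R + m) hw (Fin.natAdd R i)
    rwa [Fin.append_right] at h2
  obtain ⟨R, hR⟩ := exists_R K t (fun s h => (hXX t s).2 h) m A (fun s _ => hfinF s) hA2 hfin ht0
  have hcount := count P t R m A hR (hfin R)
  rcases Nat.eq_zero_or_pos A with h0 | h0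
  · have h1 := hcount 1
    rw [h0, pow_one, mul_zero] at h1
    have h2 := hgrow (R + 1 * m)
    have h3 : (Nn P t (R + 1 * m) : ℝ) = 0 := by
      have : Nn P t (R + 1 * m) = 0 := by omega
      exact_mod_cast this
    rw [h3] at h2
    have : 0 < lam ^ (R + 1 * m) := by positivity
    linarith
  · have hA0 : (0 : ℝ) < A := by exact_mod_cast h0
    have hq : 1 < lam ^ m / A := by rwa [one_lt_div hA0]
    obtain ⟨k, hk⟩ := pow_unbounded_of_one_lt ((Nn P t R : ℝ) / lam ^ R) hq
    have h1 : (lam ^ (R + k * m) : ℝ) ≤ Nn P t R * A ^ k := by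
      refine (hgrow _).trans ?_
      exact_mod_cast hcount k
    rw [div_pow, div_lt_div_iff₀ (by positivity) (by positivity)] at hk
    have h2 : lam ^ (R + k * m) = (lam ^ m) ^ k * lam ^ R := by
      rw [← pow_mul, ← pow_add]
      congr 1
      ring
    rw [h2] at h1
    linarith

end Pool.Agent.NH77.MS.PastF
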