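import Pool.Agent.NH77.MS.Stm

/-!
# MS2 and MS3: bounded solutions, windows, gaps (MP_ae43c0_nt)
-/

namespace Pool.Agent.NH77.MS.Sol

open Filter Topology Polynomial Pool.Agent.NH77.MS

variable {α : ℝ} {P : ℤ[X]} (K : Kern α P)

include K in
theorem al0 : 0 < α := by
  have := K.one_lt
  linarith

theorem rho0 : 0 < K.ρ := lt_of_lt_of_le (inv_pos.2 (al0 K)) K.ρ_ge

/-- Absolute bound for `κ` on both sides. -/
theorem kap_pos (n : ℕ) : |K.κ n| ≤ K.C * K.ρ ^ n := K.dec n

theorem kap_neg (n : ℕ) : |K.κ (-(n : ℤ))| ≤ |K.κ 0| * (α⁻¹) ^ n := by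
  have h := K.geo (-(n : ℤ)) (by
    have : (0 : ℤ) < P.natDegree := by exact_mod_cast K.deg_pos
    linarith [Int.natCast_nonneg n])
  rw [h, abs_mul, zpow_neg, zpow_natCast, abs_of_pos (show 0 < (α ^ n)⁻¹ by
    have := al0 K
    positivity), inv_pow]

theorem summable_kap : Summable (fun n : ℤ => |K.κ n|) := by
  have hα := al0 K
  have hα1 : α⁻¹ < 1 := inv_lt_one_of_one_lt₀ K.one_lt
  refine Summable.of_nat_of_neg ?_ ?_
  · refine Summable.of_nonneg_of_le (fun _ => abs_nonneg _) (kap_pos K) ?_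
    exact (summable_geometric_of_lt_one (rho0 K).le K.ρ_lt).mul_left _
  · refine Summable.of_nonneg_of_le (fun _ => abs_nonneg _) (kap_neg K) ?_
    exact (summable_geometric_of_lt_one (by positivity) hα1).mul_left _

theorem summable_kap_shift (n : ℤ) : Summable (fun m : ℤ => |K.κ (n - m)|) :=
  (Equiv.subLeft n).summable_iff.2 (summable_kap K)

theorem summable_term {s : ℤ → ℝ} {M : ℝ} (hs : ∀ n, |s n| ≤ M) (n : ℤ) :
    Summable (fun m : ℤ => K.κ (n - m) * s m) := by
  refine Summable.of_norm_bounded ((summable_kap_shift K n).mul_right M) ?_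
  intro m
  rw [Real.norm_eq_abs, abs_mul]
  exact mul_le_mul_of_nonneg_left (hs m) (abs_nonneg _)

/-- The real version of `sol`. -/
noncomputable def solR (s : ℤ → ℝ) (n : ℤ) : ℝ := ∑' m : ℤ, K.κ (n - m) * s m

theorem sol_eq (s : ℤ → ℤ) (n : ℤ) : sol K s n = solR K (fun m => (s m : ℝ)) n := rfl

theorem solR_bound {s : ℤ → ℝ} {M : ℝ} (hs : ∀ n, |s n| ≤ M) (n : ℤ) :
    |solR K s n| ≤ (∑' m : ℤ, |K.κ m|) * M := by
  have h1 : (∑' m : ℤ, |K.κ (n - m)|) = ∑' m : ℤ, |K.κ m| :=
    (Equiv.subLeft n).tsum_eq (fun m => |K.κ m|)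
  rw [← h1, ← tsum_mul_right]
  unfold solR
  have h2 : Summable (fun m : ℤ => ‖K.κ (n - m) * s m‖) := (summable_term K hs n).norm
  refine (norm_tsum_le_tsum_norm h2).trans ?_
  refine h2.tsum_le_tsum (fun m => ?_) ((summable_kap_shift K n).mul_right M)
  rw [Real.norm_eq_abs, abs_mul]
  exact mul_le_mul_of_nonneg_left (hs m) (abs_nonneg _)

theorem solR_sub {s s' : ℤ → ℝ} {M : ℝ} (hs : ∀ n, |s n| ≤ M) (hs' : ∀ n, |s' n| ≤ M) (n : ℤ) :
    solR K (fun m => s m - s' m) n = solR K s n - solR K s' n := by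
  unfold solR
  rw [← (summable_term K hs n).tsum_sub (summable_term K hs' n)]
  congr 1
  funext m
  ring

theorem recz_solR {s : ℤ → ℝ} {M : ℝ} (hs : ∀ n, |s n| ≤ M) (n : ℤ) :
    recz P (solR K s) n = s n := by
  unfold recz solR
  have h1 : ∀ i : ℕ, (P.coeff i : ℝ) * ∑' m : ℤ, K.κ (n + i - m) * s m
      = ∑' m : ℤ, (P.coeff i : ℝ) * (K.κ (n + i - m) * s m) := fun i => tsum_mul_left.symm
  simp_rw [h1]
  have h0 := Summable.tsum_finsetSum (s := Finset.range (P.natDegree + 1))
    (f := fun (i : ℕ) (m : ℤ) => (P.coeff i : ℝ) * (K.κ (n + i - m) * s m))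
    (fun i _ => (summable_term K hs (n + i)).mul_left _)
  rw [← h0]
  have h2 : ∀ m : ℤ, ∑ i ∈ Finset.range (P.natDegree + 1),
      (P.coeff i : ℝ) * (K.κ (n + i - m) * s m) = if m = n then s n else 0 := by
    intro m
    have h3 := K.imp (n - m)
    unfold recz at h3
    have h4 : ∑ i ∈ Finset.range (P.natDegree + 1), (P.coeff i : ℝ) * (K.κ (n + i - m) * s m)
        = (∑ i ∈ Finset.range (P.natDegree + 1), (P.coeff i : ℝ) * K.κ (n - m + i)) * s m := by
      rw [Finset.sum_mul]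
      refine Finset.sum_congr rfl (fun i _ => ?_)
      have : n + (i : ℤ) - m = n - m + i := by ring
      rw [this]
      ring
    rw [h4, h3]
    split_ifs with h5 h6 h6
    · rw [h6, one_mul]
    · exact absurd (by omega) h6
    · exact absurd (by omega) h5
    · simp
  simp_rw [h2]
  exact tsum_ite_eq n (fun _ => s n)

theorem intb {s : ℤ → ℤ} {M : ℤ} (hs : ∀ n, |s n| ≤ M) : ∀ n, |(s n : ℝ)| ≤ (M : ℝ) := by
  intro n
  have := hs n
  exact_mod_cast this

theorem solR_eq {s : ℤ → ℝ} {M : ℝ} (hs : ∀ n, |s n| ≤ M) {e : ℤ → ℝ} {B : ℝ}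
    (he : ∀ n, |e n| ≤ B) (h : ∀ n, recz P e n = s n) (n : ℤ) : solR K s n = e n := by
  have h1 := K.uniq (fun n => solR K s n - e n) ⟨(∑' m : ℤ, |K.κ m|) * M + B, fun n => by
    calc |solR K s n - e n| ≤ |solR K s n| + |e n| := abs_sub _ _
      _ ≤ _ := add_le_add (solR_bound K hs n) (he n)⟩ (fun n => by
    have h2 : recz P (fun n => solR K s n - e n) n = recz P (solR K s) n - recz P e n := by
      unfold recz
      rw [← Finset.sum_sub_distrib]
      refine Finset.sum_congr rfl (fun i _ => by ring)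
    rw [h2, recz_solR K hs, h]
    ring) n
  have h3 : solR K s n - e n = 0 := h1
  linarith

theorem solR_shift (s : ℤ → ℝ) (c n : ℤ) : solR K (fun m => s (m + c)) n = solR K s (n + c) := by
  unfold solR
  rw [← (Equiv.addRight c).tsum_eq (fun m => K.κ (n + c - m) * s m)]
  congr 1
  funext m
  simp only [Equiv.coe_addRight]
  congr 2
  ring

theorem sol : St_sol := by
  intro α P K
  refine ⟨⟨(∑' m : ℤ, |K.κ m|) + 1, ?_, ?_⟩, ?_, ?_, ?_, ?_⟩
  · have : 0 ≤ ∑' m : ℤ, |K.κ m| := tsum_nonneg (fun _ => abs_nonneg _)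
    linarith
  · intro s M hs n
    have hM : (0 : ℝ) ≤ M := le_trans (abs_nonneg _) (intb hs 0)
    calc |MS.sol K s n| = |solR K (fun m => (s m : ℝ)) n| := rfl
      _ ≤ (∑' m : ℤ, |K.κ m|) * M := solR_bound K (intb hs) n
      _ ≤ ((∑' m : ℤ, |K.κ m|) + 1) * M := by
        gcongr
        linarith
  · intro s M hs n
    exact recz_solR K (intb hs) n
  · intro s M hs e B he h n
    exact solR_eq K (intb hs) he h n
  · intro s c n
    exact solR_shift K (fun m => (s m : ℝ)) c n
  · intro s s' M hs hs' n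
    have := solR_sub K (intb hs) (intb hs') n
    rw [sol_eq, sol_eq, sol_eq, ← this]
    congr 1
    funext m
    push_cast
    ring

/-- The sum of the absolute values of the coefficients. -/
def cs (P : ℤ[X]) : ℤ := ∑ i ∈ Finset.range (P.natDegree + 1), |P.coeff i|

theorem recz_bound {e : ℤ → ℝ} {t : ℝ} (he : ∀ n, |e n| ≤ t) (n : ℤ) :
    |recz P e n| ≤ (cs P : ℝ) * t := by
  unfold recz cs
  push_cast
  rw [Finset.sum_mul]
  refine (Finset.abs_sum_le_sum_abs _ _).trans ?_
  refine Finset.sum_le_sum (fun i _ => ?_)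
  rw [abs_mul]
  exact mul_le_mul_of_nonneg_left (he _) (abs_nonneg _)

theorem cs_nonneg (P : ℤ[X]) : 0 ≤ cs P := Finset.sum_nonneg (fun _ _ => abs_nonneg _)

theorem xx : St_XX := by
  intro α P K
  have hsol := sol α P K
  refine ⟨?_, ⟨1 + cs P, by have := cs_nonneg P; omega, ?_⟩, ?_⟩
  · intro t s
    constructor
    · rintro ⟨⟨M, hM⟩, h⟩
      exact ⟨MS.sol K s, h, hsol.2.1 s M hM⟩
    · rintro ⟨e, he, h⟩
      have hb : ∀ n, |s n| ≤ ⌊(cs P : ℝ) * t⌋ := by
        intro n
        have h1 := recz_bound (P := P) he n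
        rw [h n] at h1
        rw [Int.le_floor]
        exact_mod_cast h1
      refine ⟨⟨_, hb⟩, fun n => ?_⟩
      rw [hsol.2.2.1 s _ hb e t he h n]
      exact he n
  · rintro t ht s ⟨⟨M, hM⟩, h⟩ n
    have h1 := recz_bound (P := P) h n
    rw [hsol.2.1 s M hM n] at h1
    have h2 : (cs P : ℝ) * t ≤ cs P * (1 / 2) := by
      have : (0 : ℝ) ≤ cs P := by exact_mod_cast cs_nonneg P
      gcongr
    have h3 : (0 : ℝ) ≤ cs P := by exact_mod_cast cs_nonneg P
    have h4 : |(s n : ℝ)| ≤ ((1 + cs P : ℤ) : ℝ) := by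
      push_cast
      linarith
    exact_mod_cast h4
  · rintro t s c ⟨⟨M, hM⟩, h⟩
    refine ⟨⟨M, fun n => hM _⟩, fun n => ?_⟩
    rw [hsol.2.2.2.1]
    exact h _

theorem past3 : St_past3 := by
  intro α P K s s' M hs hs' j hj n hn
  have hα := al0 K
  have hlin := (sol α P K).2.2.2.2 s' s M hs' hs
  rw [← hlin n, ← hlin j, sol_eq, sol_eq]
  unfold solR
  rw [← tsum_mul_left]
  congr 1
  funext m
  show K.κ (n - m) * ((s' m - s m : ℤ) : ℝ)
    = α ^ (n - j) * (K.κ (j - m) * ((s' m - s m : ℤ) : ℝ))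
  rcases lt_or_ge m j with h | h
  · rw [hj m h]
    simp
  · have h1 := K.geo (n - m) (by linarith)
    have h2 := K.geo (j - m) (by
      have : (0 : ℤ) < P.natDegree := by exact_mod_cast K.deg_pos
      linarith)
    rw [h1, h2]
    have h3 : α ^ (n - m) = α ^ (n - j) * α ^ (j - m) := by
      rw [← zpow_add₀ hα.ne']
      congr 1
      ring
    rw [h3]
    ring

/-- Tails of the kernel to the right. -/
theorem tail_pos (n j₁ : ℤ) (hn : j₁ ≤ n) :
    ∑' m : ℤ, (if m < j₁ then |K.κ (n - m)| else 0)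
      ≤ K.C / (1 - K.ρ) * K.ρ ^ (n - j₁) := by
  have hρ := rho0 K
  have hρ1 := K.ρ_lt
  have hC := K.C_pos
  -- compare with a geometric series over `ℕ` via `m = j₁ - 1 - x`
  have hinj : Function.Injective (fun x : ℕ => j₁ - 1 - (x : ℤ)) := by
    intro x y h
    simp only at h
    omega
  have hsupp : Function.support (fun m : ℤ => if m < j₁ then |K.κ (n - m)| else 0)
      ⊆ Set.range (fun x : ℕ => j₁ - 1 - (x : ℤ)) := by
    intro m hm
    rw [Function.mem_support] at hm
    have h : m < j₁ := by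
      by_contra hc
      rw [if_neg hc] at hm
      exact hm rfl
    refine ⟨(j₁ - 1 - m).toNat, ?_⟩
    show j₁ - 1 - (((j₁ - 1 - m).toNat : ℕ) : ℤ) = m
    rw [Int.toNat_of_nonneg (by omega)]
    ring
  rw [← hinj.tsum_eq hsupp]
  obtain ⟨k, hk⟩ := Int.eq_ofNat_of_zero_le (show 0 ≤ n - j₁ by linarith)
  have hterm : ∀ x : ℕ, (if j₁ - 1 - (x : ℤ) < j₁ then |K.κ (n - (j₁ - 1 - (x : ℤ)))| else 0)
      ≤ K.C * K.ρ ^ k * K.ρ ^ x := by
    intro x
    rw [if_pos (by omega)]
    have e : n - (j₁ - 1 - (x : ℤ)) = ((k + 1 + x : ℕ) : ℤ) := by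
      push_cast
      linarith
    rw [e]
    refine (K.dec _).trans ?_
    rw [pow_add, pow_succ, mul_assoc, mul_assoc]
    refine mul_le_mul_of_nonneg_left ?_ hC.le
    refine mul_le_mul_of_nonneg_left ?_ (by positivity)
    nlinarith [pow_pos hρ x]
  have hgs : Summable (fun x : ℕ => K.C * K.ρ ^ k * K.ρ ^ x) :=
    (summable_geometric_of_lt_one hρ.le hρ1).mul_left _
  have hts : Summable (fun x : ℕ =>
      (if j₁ - 1 - (x : ℤ) < j₁ then |K.κ (n - (j₁ - 1 - (x : ℤ)))| else 0)) := by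
    refine Summable.of_nonneg_of_le (fun x => ?_) hterm hgs
    split_ifs
    · exact abs_nonneg _
    · exact le_rfl
  refine (hts.tsum_le_tsum hterm hgs).trans ?_
  rw [tsum_mul_left, tsum_geometric_of_lt_one hρ.le hρ1, hk, zpow_natCast]
  rw [div_eq_mul_inv]
  apply le_of_eq
  ring

/-- Tails of the kernel to the left. -/
theorem tail_neg (n j₂ : ℤ) (hn : n ≤ j₂) :
    ∑' m : ℤ, (if j₂ ≤ m then |K.κ (n - m)| else 0)
      ≤ |K.κ 0| / (1 - α⁻¹) * α ^ (n - j₂) := by
  have hα := al0 K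
  have hα1 : α⁻¹ < 1 := inv_lt_one_of_one_lt₀ K.one_lt
  have hinj : Function.Injective (fun x : ℕ => j₂ + (x : ℤ)) := by
    intro x y h
    simp only at h
    omega
  have hsupp : Function.support (fun m : ℤ => if j₂ ≤ m then |K.κ (n - m)| else 0)
      ⊆ Set.range (fun x : ℕ => j₂ + (x : ℤ)) := by
    intro m hm
    rw [Function.mem_support] at hm
    have h : j₂ ≤ m := by
      by_contra hc
      rw [if_neg hc] at hm
      exact hm rfl
    refine ⟨(m - j₂).toNat, ?_⟩
    show j₂ + (((m - j₂).toNat : ℕ) : ℤ) = m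
    rw [Int.toNat_of_nonneg (by omega)]
    ring
  rw [← hinj.tsum_eq hsupp]
  obtain ⟨k, hk⟩ := Int.eq_ofNat_of_zero_le (show 0 ≤ j₂ - n by linarith)
  have hterm : ∀ x : ℕ, (if j₂ ≤ j₂ + (x : ℤ) then |K.κ (n - (j₂ + (x : ℤ)))| else 0)
      ≤ |K.κ 0| * (α⁻¹) ^ k * (α⁻¹) ^ x := by
    intro x
    rw [if_pos (by omega)]
    have e : n - (j₂ + (x : ℤ)) = -((k + x : ℕ) : ℤ) := by
      push_cast
      linarith
    rw [e]
    refine (kap_neg K _).trans ?_
    rw [pow_add, mul_assoc]
  have hgs : Summable (fun x : ℕ => |K.κ 0| * (α⁻¹) ^ k * (α⁻¹) ^ x) :=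
    (summable_geometric_of_lt_one (by positivity) hα1).mul_left _
  have hts : Summable (fun x : ℕ =>
      (if j₂ ≤ j₂ + (x : ℤ) then |K.κ (n - (j₂ + (x : ℤ)))| else 0)) := by
    refine Summable.of_nonneg_of_le (fun x => ?_) hterm hgs
    split_ifs
    · exact abs_nonneg _
    · exact le_rfl
  refine (hts.tsum_le_tsum hterm hgs).trans ?_
  rw [tsum_mul_left, tsum_geometric_of_lt_one (by positivity) hα1]
  have e : n - j₂ = -(k : ℤ) := by linarith
  rw [e, zpow_neg, zpow_natCast, inv_pow]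
  rw [div_eq_mul_inv]
  apply le_of_eq
  ring

theorem window : St_window := by
  intro α P K
  have hα := al0 K
  have hα1 : α⁻¹ < 1 := inv_lt_one_of_one_lt₀ K.one_lt
  have hρ := rho0 K
  have hρ1 := K.ρ_lt
  have hC := K.C_pos
  refine ⟨2 * (K.C / (1 - K.ρ)) + 2 * (|K.κ 0| / (1 - α⁻¹)), ?_, ?_⟩
  · have h1 : 0 < K.C / (1 - K.ρ) := div_pos hC (by linarith)
    have h2 : 0 ≤ |K.κ 0| / (1 - α⁻¹) := div_nonneg (abs_nonneg _) (by linarith)
    linarith
  · intro s s' M hs hs' j₁ j₂ hj n hn1 hn2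
    have hM : (0 : ℝ) ≤ M := le_trans (abs_nonneg _) (intb hs 0)
    have hlin := (sol α P K).2.2.2.2 s s' M hs hs'
    rw [← hlin n, sol_eq]
    unfold solR
    have hb : ∀ m, |((s m - s' m : ℤ) : ℝ)| ≤ 2 * M := by
      intro m
      push_cast
      have h1 := intb hs m
      have h2 := intb hs' m
      calc |(s m : ℝ) - s' m| ≤ |(s m : ℝ)| + |(s' m : ℝ)| := abs_sub _ _
        _ ≤ 2 * M := by linarith
    have hsum := summable_term K hb n
    have S1 : Summable (fun m : ℤ => (if m < j₁ then |K.κ (n - m)| else 0)) := by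
      refine Summable.of_nonneg_of_le (fun x => ?_) (fun x => ?_) (summable_kap_shift K n)
      · split_ifs
        · exact abs_nonneg _
        · exact le_rfl
      · split_ifs
        · exact le_rfl
        · exact abs_nonneg _
    have S2 : Summable (fun m : ℤ => (if j₂ ≤ m then |K.κ (n - m)| else 0)) := by
      refine Summable.of_nonneg_of_le (fun x => ?_) (fun x => ?_) (summable_kap_shift K n)
      · split_ifs
        · exact abs_nonneg _
        · exact le_rfl
      · split_ifs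
        · exact le_rfl
        · exact abs_nonneg _
    have hterm : ∀ m : ℤ, ‖K.κ (n - m) * ((s m - s' m : ℤ) : ℝ)‖
        ≤ (if m < j₁ then |K.κ (n - m)| else 0) * (2 * M)
          + (if j₂ ≤ m then |K.κ (n - m)| else 0) * (2 * M) := by
      intro m
      rw [Real.norm_eq_abs, abs_mul]
      have hk := abs_nonneg (K.κ (n - m))
      rcases lt_or_ge m j₁ with h | h
      · rw [if_pos h]
        have h1 : 0 ≤ (if j₂ ≤ m then |K.κ (n - m)| else 0) * (2 * (M : ℝ)) := by
          split_ifs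
          · positivity
          · simp
        have := mul_le_mul_of_nonneg_left (hb m) hk
        linarith
      · rw [if_neg (not_lt.2 h)]
        rcases lt_or_ge m j₂ with h' | h'
        · rw [hj m h h']
          simp only [sub_self, Int.cast_zero, abs_zero, mul_zero, zero_mul, zero_add]
          rw [if_neg (not_le.2 h')]
          simp
        · rw [if_pos h']
          have := mul_le_mul_of_nonneg_left (hb m) hk
          linarith
    have S3 := (S1.mul_right (2 * (M : ℝ))).add (S2.mul_right (2 * (M : ℝ)))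
    have h1 : |∑' m : ℤ, K.κ (n - m) * ((s m - s' m : ℤ) : ℝ)|
        ≤ ∑' m : ℤ, ((if m < j₁ then |K.κ (n - m)| else 0) * (2 * (M : ℝ))
          + (if j₂ ≤ m then |K.κ (n - m)| else 0) * (2 * (M : ℝ))) :=
      (norm_tsum_le_tsum_norm hsum.norm).trans (hsum.norm.tsum_le_tsum hterm S3)
    refine h1.trans ?_
    rw [(S1.mul_right (2 * (M : ℝ))).tsum_add (S2.mul_right (2 * (M : ℝ))), tsum_mul_right,
      tsum_mul_right]
    have t1 := tail_pos K n j₁ hn1
    have t2 := tail_neg K n j₂ hn2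
    have p1 : 0 < K.ρ ^ (n - j₁) := zpow_pos hρ _
    have p2 : 0 < α ^ (n - j₂) := zpow_pos hα _
    have q1 : 0 < K.C / (1 - K.ρ) := div_pos hC (by linarith)
    have q2 : 0 ≤ |K.κ 0| / (1 - α⁻¹) := div_nonneg (abs_nonneg _) (by linarith)
    calc (∑' m : ℤ, (if m < j₁ then |K.κ (n - m)| else 0)) * (2 * (M : ℝ))
          + (∑' m : ℤ, (if j₂ ≤ m then |K.κ (n - m)| else 0)) * (2 * (M : ℝ))
        ≤ (K.C / (1 - K.ρ) * K.ρ ^ (n - j₁)) * (2 * (M : ℝ))
          + (|K.κ 0| / (1 - α⁻¹) * α ^ (n - j₂)) * (2 * (M : ℝ)) := by gcongr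
      _ ≤ (2 * (K.C / (1 - K.ρ)) + 2 * (|K.κ 0| / (1 - α⁻¹))) * M
          * (K.ρ ^ (n - j₁) + α ^ (n - j₂)) := by
        have r1 : 0 ≤ K.C / (1 - K.ρ) * α ^ (n - j₂) * M := by positivity
        have r2 : 0 ≤ |K.κ 0| / (1 - α⁻¹) * K.ρ ^ (n - j₁) * M := by positivity
        nlinarith

theorem gap : St_gap := by
  classical
  intro α P K t ht s hs s' hs' j r hj hex
  have hα := al0 K
  obtain ⟨-, ⟨M0, -, hM0⟩, -⟩ := xx α P K
  have hM := hM0 t ht.le s hs
  have hM' := hM0 t ht.le s' hs'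
  -- the first difference
  obtain ⟨i, hi1, hi2, hi3⟩ := hex
  have hexn : ∃ x : ℕ, s (j + x) ≠ s' (j + x) := by
    refine ⟨(i - j).toNat, ?_⟩
    rw [Int.toNat_of_nonneg (by omega)]
    have : j + (i - j) = i := by ring
    rw [this]
    exact hi3
  set x := Nat.find hexn with hx
  have hxs := Nat.find_spec hexn
  have hxr : x < r := by
    have h1 : x ≤ (i - j).toNat := Nat.find_min' hexn (by
      rw [Int.toNat_of_nonneg (by omega)]
      have : j + (i - j) = i := by ring
      rw [this]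
      exact hi3)
    omega
  set m : ℤ := j + x with hm
  have hbefore : ∀ y < m, s y = s' y := by
    intro y hy
    rcases lt_or_ge y j with h | h
    · exact hj y h
    · by_contra hne
      have h1 : x ≤ (y - j).toNat := Nat.find_min' hexn (by
        rw [Int.toNat_of_nonneg (by omega)]
        have : j + (y - j) = y := by ring
        rw [this]
        exact hne)
      omega
  have hp := past3 α P K s s' M0 hM hM' m hbefore
  set f : ℤ → ℝ := fun n => MS.sol K s' n - MS.sol K s n with hf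
  have hsol := sol α P K
  have hrec : recz P f m = ((s' m - s m : ℤ) : ℝ) := by
    have h2 : recz P f m = recz P (MS.sol K s') m - recz P (MS.sol K s) m := by
      unfold recz
      rw [← Finset.sum_sub_distrib]
      refine Finset.sum_congr rfl (fun i _ => by simp only [hf]; ring)
    rw [h2, hsol.2.1 s' M0 hM' m, hsol.2.1 s M0 hM m]
    push_cast
    ring
  have hroot : ∑ i ∈ Finset.range (P.natDegree + 1), (P.coeff i : ℝ) * α ^ i = 0 := by
    have := K.root
    rw [aeval_eq_sum_range] at this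
    rw [← this]
    refine Finset.sum_congr rfl (fun i _ => ?_)
    rw [zsmul_eq_mul]
  have hmon : P.coeff P.natDegree = 1 := K.monic
  rw [Finset.sum_range_succ, hmon] at hroot
  have hrec2 : recz P f m = f (m + P.natDegree) - α ^ P.natDegree * f m := by
    unfold recz
    rw [Finset.sum_range_succ, hmon]
    have h3 : ∀ i ∈ Finset.range P.natDegree, (P.coeff i : ℝ) * f (m + i)
        = (P.coeff i : ℝ) * α ^ i * f m := by
      intro i hi
      have hi' := Finset.mem_range.1 hi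
      have h4 := hp (m + i) (by
        have : (i : ℤ) < P.natDegree := by exact_mod_cast hi'
        linarith)
      have h5 : m + (i : ℤ) - m = i := by ring
      rw [h5, zpow_natCast] at h4
      show (P.coeff i : ℝ) * (MS.sol K s' (m + i) - MS.sol K s (m + i))
        = (P.coeff i : ℝ) * α ^ i * (MS.sol K s' m - MS.sol K s m)
      rw [h4]
      ring
    rw [Finset.sum_congr rfl h3, ← Finset.sum_mul]
    push_cast at hroot ⊢
    have h6 : ∑ i ∈ Finset.range P.natDegree, (P.coeff i : ℝ) * α ^ i = - α ^ P.natDegree := by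
      linarith
    rw [h6]
    ring
  have hone : (1 : ℝ) ≤ |recz P f m| := by
    rw [hrec]
    have h7 : s' m - s m ≠ 0 := by
      intro h
      exact hxs (by omega)
    have := Int.one_le_abs h7
    exact_mod_cast this
  have hfb : |f (m + P.natDegree)| ≤ 2 * t := by
    have h8 := hs.2 (m + P.natDegree)
    have h9 := hs'.2 (m + P.natDegree)
    calc |f (m + P.natDegree)| ≤ |MS.sol K s' (m + P.natDegree)| + |MS.sol K s (m + P.natDegree)| :=
          abs_sub _ _
      _ ≤ 2 * t := by linarith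
  have hmain : 1 - 2 * t ≤ α ^ P.natDegree * |f m| := by
    have h10 : |recz P f m| ≤ |f (m + P.natDegree)| + |α ^ P.natDegree * f m| := by
      rw [hrec2]
      exact abs_sub _ _
    rw [abs_mul, abs_of_pos (show 0 < α ^ P.natDegree by positivity)] at h10
    linarith
  have hfj : f j = α ^ (j - m) * f m := by
    refine hp j ?_
    have : (0 : ℤ) < P.natDegree := by exact_mod_cast K.deg_pos
    have : (0 : ℤ) ≤ x := Int.natCast_nonneg x
    linarith
  have hgoal : |MS.sol K s j - MS.sol K s' j| = |f j| := by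
    rw [abs_sub_comm]
  rw [hgoal, hfj, abs_mul, abs_of_pos (show 0 < α ^ (j - m) from zpow_pos hα _)]
  have h11 : |f m| ≥ (1 - 2 * t) * α ^ (-(P.natDegree : ℤ)) := by
    rw [zpow_neg, zpow_natCast, ← div_eq_mul_inv]
    rw [ge_iff_le, div_le_iff₀ (by positivity)]
    linarith
  have h12 : α ^ (-((P.natDegree : ℤ) + r)) ≤ α ^ (j - m) * α ^ (-(P.natDegree : ℤ)) := by
    rw [← zpow_add₀ hα.ne']
    refine zpow_le_zpow_right₀ K.one_lt.le ?_
    have : (x : ℤ) < r := by exact_mod_cast hxr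
    linarith
  have h2t : 0 < 1 - 2 * t := by linarith
  calc (1 - 2 * t) * α ^ (-((P.natDegree : ℤ) + r))
      ≤ (1 - 2 * t) * (α ^ (j - m) * α ^ (-(P.natDegree : ℤ))) := by gcongr
    _ = α ^ (j - m) * ((1 - 2 * t) * α ^ (-(P.natDegree : ℤ))) := by ring
    _ ≤ α ^ (j - m) * |f m| := by
      have : 0 < α ^ (j - m) := zpow_pos hα _
      gcongr

end Pool.Agent.NH77.MS.Sol
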