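import Pool.Agent.NH77.MS.Lang

/-!
# MS4 and MS5: the spectrum and two-sided sequences (MP_ae43c0_nt)
-/

namespace Pool.Agent.NH77.MS.SpecInF

open Filter Topology Polynomial Pool.Agent.NH77.MS Pool.Agent.NH77.MS.Sol Pool.Agent.NH77.MS.LangF

theorem specIn : St_specIn := by
  intro α P K v hv
  obtain ⟨ξ, hξ⟩ := hv
  set e : ℕ → ℝ := fun n => ξ * α ^ n - round (ξ * α ^ n) with he
  have hv' : v = limsup (fun n => |e n|) atTop := hξ
  have heb : ∀ n, |e n| ≤ 1 / 2 := fun n => abs_sub_round _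
  -- the recurrence is integral
  have hroot : ∑ i ∈ Finset.range (P.natDegree + 1), (P.coeff i : ℝ) * α ^ i = 0 := by
    have := K.root
    rw [aeval_eq_sum_range] at this
    rw [← this]
    refine Finset.sum_congr rfl (fun i _ => ?_)
    rw [zsmul_eq_mul]
  have hint : ∀ n, ∃ m : ℤ, recn P e n = m := by
    intro n
    refine ⟨-∑ i ∈ Finset.range (P.natDegree + 1), P.coeff i * round (ξ * α ^ (n + i)), ?_⟩
    unfold recn
    have h1 : ∀ i ∈ Finset.range (P.natDegree + 1), (P.coeff i : ℝ) * e (n + i)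
        = (ξ * α ^ n) * ((P.coeff i : ℝ) * α ^ i)
          - (P.coeff i : ℝ) * (round (ξ * α ^ (n + i)) : ℝ) := by
      intro i _
      rw [he]
      simp only
      rw [pow_add]
      ring
    rw [Finset.sum_congr rfl h1, Finset.sum_sub_distrib, ← Finset.mul_sum, hroot]
    push_cast
    ring
  -- basic facts on the limsup
  have hbdd : IsBoundedUnder (· ≤ ·) atTop (fun n => |e n|) := isBoundedUnder_of ⟨1 / 2, heb⟩
  have hcobdd : IsCoboundedUnder (· ≤ ·) atTop (fun n => |e n|) :=
    isCoboundedUnder_le_of_le atTop (x := 0) (fun n => abs_nonneg _)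
  have hup : ∀ ε > 0, ∀ᶠ n in atTop, |e n| < v + ε := by
    intro ε hε
    exact eventually_lt_of_limsup_lt (by rw [← hv']; linarith) hbdd
  have hlow : ∀ ε > 0, ∃ᶠ n in atTop, v - ε < |e n| := by
    intro ε hε
    exact frequently_lt_of_lt_limsup hcobdd (by rw [← hv']; linarith)
  -- a sequence of times
  have htimes : ∀ k : ℕ, ∃ n : ℕ, k ≤ n ∧ v - 1 / ((k : ℝ) + 1) < |e n| := by
    intro k
    obtain ⟨n, hn, hn'⟩ := ((hlow (1 / ((k : ℝ) + 1)) (by positivity)).and_eventually
      (eventually_ge_atTop k)).exists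
    exact ⟨n, hn', hn⟩
  choose T hT1 hT2 using htimes
  have hTinf : Tendsto T atTop atTop := tendsto_atTop_mono hT1 tendsto_id
  set E : ℕ → ℤ → ℝ := fun k m => if 0 ≤ m + T k then e ((m + T k).toNat) else 0 with hE
  have hEb : ∀ k m, |E k m| ≤ 1 / 2 := by
    intro k m
    rw [hE]
    simp only
    split_ifs
    · exact heb _
    · simp
  obtain ⟨φ, hφ, l, hl, hconv⟩ := compact_seq (1 / 2) E hEb
  have hTφ : Tendsto (fun k => T (φ k)) atTop atTop := hTinf.comp hφ.tendsto_atTop
  have hpos : ∀ m : ℤ, ∀ᶠ k in atTop, 0 ≤ m + T (φ k) := by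
    intro m
    filter_upwards [hTφ.eventually_ge_atTop ((-m).toNat)] with k hk
    omega
  have hshift : ∀ m : ℤ, Tendsto (fun k => (m + T (φ k)).toNat) atTop atTop := by
    intro m
    refine tendsto_atTop.2 (fun b => ?_)
    filter_upwards [hTφ.eventually_ge_atTop (b + (-m).toNat)] with k hk
    omega
  have hlv : ∀ m, |l m| ≤ v := by
    intro m
    refine le_of_forall_pos_le_add (fun ε hε => ?_)
    refine le_of_tendsto (hconv m).abs ?_
    filter_upwards [hpos m, (hshift m).eventually (hup ε hε)] with k hk hk'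
    rw [hE]
    simp only
    rw [if_pos hk]
    exact hk'.le
  have hl0 : |l 0| = v := by
    refine le_antisymm (hlv 0) ?_
    have h1 : Tendsto (fun k : ℕ => v - 1 / (((φ k : ℕ) : ℝ) + 1)) atTop (𝓝 (v - 0)) := by
      refine Tendsto.const_sub _ ?_
      exact tendsto_one_div_add_atTop_nhds_zero_nat.comp hφ.tendsto_atTop
    rw [sub_zero] at h1
    refine le_of_tendsto_of_tendsto h1 (hconv 0).abs ?_
    refine Eventually.of_forall (fun k => ?_)
    rw [hE]
    simp only
    rw [if_pos (by omega), zero_add, Int.toNat_natCast]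
    exact (hT2 (φ k)).le
  have hrec : ∀ m : ℤ, ∃ z : ℤ, recz P l m = z := by
    intro m
    refine int_lim (recz_tendsto P hconv m) ?_
    filter_upwards [hpos m] with k hk
    have h2 : recz P (fun m => E (φ k) m) m = recn P e ((m + T (φ k)).toNat) := by
      unfold recz recn
      refine Finset.sum_congr rfl (fun i _ => ?_)
      rw [hE]
      simp only
      rw [if_pos (by omega)]
      congr 2
      omega
    rw [h2]
    exact hint _
  choose s hs using hrec
  have hsX : s ∈ XX K v := ((xx α P K).1 v s).2 ⟨l, hlv, hs⟩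
  refine ⟨s, hsX, ?_⟩
  obtain ⟨⟨M, hM⟩, -⟩ := hsX
  rw [(Sol.sol α P K).2.2.1 s M hM l (1 / 2) hl hs 0]
  exact hl0

end Pool.Agent.NH77.MS.SpecInF
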