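import Pool.Agent.NH77.MS.Stm

/-!
# Periodic sequences give values of the spectrum
-/

set_option autoImplicit false

namespace Pool.Agent.NH77.MS.SpecPer

open Filter Topology Polynomial Pool.Agent.NH77.MS

/-- the solution of the recurrence starting with zeros -/
noncomputable def aseq (d : ℕ) (c : ℕ → ℤ) (s : ℕ → ℤ) (n : ℕ) : ℤ :=
  if _h : n < d then 0 else
    s (n - d) - ∑ i ∈ (Finset.range d).attach, c i.1 * aseq d c s (n - d + i.1)
termination_by n
decreasing_by
  have := Finset.mem_range.mp i.2
  omega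

theorem aseq_lt {d : ℕ} (c s : ℕ → ℤ) {n : ℕ} (h : n < d) : aseq d c s n = 0 := by
  rw [aseq, dif_pos h]

theorem aseq_add (d : ℕ) (c s : ℕ → ℤ) (n : ℕ) :
    aseq d c s (n + d) = s n - ∑ i ∈ Finset.range d, c i * aseq d c s (n + i) := by
  rw [aseq, dif_neg (by omega)]
  have h1 : n + d - d = n := by omega
  rw [h1]
  congr 1
  exact Finset.sum_attach (Finset.range d) (fun i => c i * aseq d c s (n + i))

theorem recn_split {P : ℤ[X]} (hP : P.Monic) (e : ℕ → ℝ) (n : ℕ) :
    recn P e n = ∑ i ∈ Finset.range P.natDegree, (P.coeff i : ℝ) * e (n + i) +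
      e (n + P.natDegree) := by
  unfold recn
  rw [Finset.sum_range_succ]
  have h1 : P.coeff P.natDegree = 1 := hP
  rw [h1, Int.cast_one, one_mul]

theorem recn_pow {α : ℝ} {P : ℤ[X]} (h : aeval α P = 0) (c : ℝ) (n : ℕ) :
    recn P (fun m => c * α ^ m) n = 0 := by
  rw [Polynomial.aeval_eq_sum_range] at h
  have h1 : recn P (fun m => c * α ^ m) n =
      c * α ^ n * ∑ i ∈ Finset.range (P.natDegree + 1), P.coeff i • α ^ i := by
    unfold recn
    rw [Finset.mul_sum]
    refine Finset.sum_congr rfl fun i _ => ?_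
    beta_reduce
    rw [zsmul_eq_mul, pow_add]
    ring
  rw [h1, h, mul_zero]

/-- uniqueness for the one-sided recurrence -/
theorem recn_uniq {P : ℤ[X]} (hP : P.Monic) {f g : ℕ → ℝ}
    (h : ∀ n, recn P f n = recn P g n) (h0 : ∀ n < P.natDegree, f n = g n) : ∀ n, f n = g n := by
  intro n
  induction n using Nat.strong_induction_on with
  | _ n ih =>
    rcases lt_or_ge n P.natDegree with hn | hn
    · exact h0 n hn
    · obtain ⟨m, rfl⟩ : ∃ m, n = m + P.natDegree := ⟨n - P.natDegree, by omega⟩
      have h1 := h m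
      rw [recn_split hP, recn_split hP] at h1
      have h2 : ∑ i ∈ Finset.range P.natDegree, (P.coeff i : ℝ) * f (m + i) =
          ∑ i ∈ Finset.range P.natDegree, (P.coeff i : ℝ) * g (m + i) := by
        refine Finset.sum_congr rfl fun i hi => ?_
        rw [ih (m + i) (by have := Finset.mem_range.mp hi; omega)]
      linarith

theorem sol_zero {α : ℝ} {P : ℤ[X]} (K : Kern α P) (n : ℤ) : sol K (fun _ => 0) n = 0 := by
  unfold sol
  simp

theorem specPer (hsol : St_sol) (hwin : St_window) (hpast : St_past3) : St_specPer := by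
  intro α P K s p v hp hs hv hle hex
  obtain ⟨-, hrec, -, hshift, -⟩ := hsol α P K
  obtain ⟨E, hE, hwin⟩ := hwin α P K
  have hα := K.one_lt
  have hα0 : (0 : ℝ) < α := by linarith
  have hper : Function.Periodic s (p : ℤ) := hs
  -- boundedness
  obtain ⟨M, hM⟩ : ∃ M : ℤ, ∀ n, |s n| ≤ M := by
    refine ⟨∑ i ∈ Finset.range p, |s i|, fun n => ?_⟩
    have hp' : (0 : ℤ) < p := by exact_mod_cast hp
    have h1 : s n = s (n % p) := by
      have h2 := hper.int_mul (n / p) (n % p)
      have h3 : n % p + n / p * p = n := Int.emod_add_ediv_mul n p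
      simp only [Int.cast_id] at h2
      rw [h3] at h2
      exact h2
    have h2 : 0 ≤ n % p := Int.emod_nonneg _ hp'.ne'
    have h3 : n % p < p := Int.emod_lt_of_pos _ hp'
    obtain ⟨k, hk⟩ := Int.eq_ofNat_of_zero_le h2
    rw [h1, hk]
    rw [hk] at h3
    exact Finset.single_le_sum (f := fun i : ℕ => |s i|) (fun i _ => abs_nonneg _)
      (Finset.mem_range.mpr (by exact_mod_cast h3))
  have hM0 : 0 ≤ M := (abs_nonneg _).trans (hM 0)
  set sp : ℤ → ℤ := fun m => if 0 ≤ m then s m else 0 with hsp
  have hspM : ∀ n, |sp n| ≤ M := by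
    intro n
    simp only [hsp]
    split_ifs
    · exact hM n
    · simpa using hM0
  set ep : ℤ → ℝ := sol K sp with hep
  -- the difference tends to zero
  have hdiff : ∀ n : ℕ, |ep n - sol K s n| ≤ E * M * (K.ρ ^ n + (α⁻¹) ^ n) := by
    intro n
    have h1 := hwin sp s M hspM hM 0 (2 * n) (fun i hi _ => by simp [hsp, hi]) n (by positivity)
      (by omega)
    have h2 : (n : ℤ) - 0 = (n : ℤ) := sub_zero _
    have h3 : (n : ℤ) - 2 * n = -(n : ℤ) := by ring
    rw [h2, h3, zpow_natCast, zpow_neg, zpow_natCast, ← inv_pow] at h1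
    exact h1
  have hρ0 : 0 ≤ K.ρ := le_trans (by positivity) K.ρ_ge
  have htend : Tendsto (fun n : ℕ => ep n - sol K s n) atTop (𝓝 0) := by
    have h1 : Tendsto (fun n : ℕ => E * M * (K.ρ ^ n + (α⁻¹) ^ n)) atTop (𝓝 0) := by
      have h2 := tendsto_pow_atTop_nhds_zero_of_lt_one hρ0 K.ρ_lt
      have h3 := tendsto_pow_atTop_nhds_zero_of_lt_one (r := α⁻¹) (by positivity)
        (inv_lt_one_of_one_lt₀ hα)
      have h4 := (h2.add h3).const_mul (E * (M : ℝ))
      simpa using h4
    exact squeeze_zero_norm (fun n => by rw [Real.norm_eq_abs]; exact hdiff n) h1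
  -- the beginning
  have hinit : ∀ n : ℕ, n < P.natDegree → ep n = ep 0 * α ^ n := by
    intro n hn
    have h1 := hpast α P K (fun _ => 0) sp M (fun _ => by simpa using hM0) hspM 0
      (fun i hi => by simp only [hsp]; rw [if_neg (by omega)]) n (by omega)
    rw [sol_zero, sol_zero, sub_zero, sub_zero, sub_zero, zpow_natCast] at h1
    rw [hep, h1]; ring
  -- the integers
  set a : ℕ → ℤ := aseq P.natDegree (fun i => P.coeff i) (fun n => s n) with ha
  have hfin : ∀ n : ℕ, ep n - a n = ep 0 * α ^ n := by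
    refine recn_uniq K.monic (f := fun n => ep n - a n) (g := fun n => ep 0 * α ^ n) ?_ ?_
    · intro n
      rw [recn_pow K.root]
      have h1 : recn P (fun n : ℕ => ep n - (a n : ℝ)) n =
          recz P ep n - recn P (fun n => (a n : ℝ)) n := by
        unfold recn recz
        rw [← Finset.sum_sub_distrib]
        refine Finset.sum_congr rfl fun i _ => ?_
        push_cast
        ring
      rw [h1, hep, hrec sp M hspM, recn_split K.monic]
      have h2 : (a (n + P.natDegree) : ℤ) =
          s n - ∑ i ∈ Finset.range P.natDegree, P.coeff i * a (n + i) := aseq_add _ _ _ n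
      rw [h2]
      push_cast
      simp [hsp]
    · intro n hn
      have h1 : a n = 0 := aseq_lt _ _ hn
      simp only [h1, Int.cast_zero, sub_zero]
      exact hinit n hn
  -- the distances
  have hev : ∀ᶠ n : ℕ in atTop, |ep 0 * α ^ n - round (ep 0 * α ^ n)| = |ep n| := by
    have h1 : ∀ᶠ n : ℕ in atTop, |ep n - sol K s n| < 1 / 2 - v := by
      have h2 := htend.abs
      rw [abs_zero] at h2
      exact h2.eventually (gt_mem_nhds (by linarith))
    filter_upwards [h1] with n hn
    have h3 : |ep n| < 1 / 2 := by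
      have h4 : |ep n| ≤ |ep n - sol K s n| + |sol K s n| := by
        have := abs_add_le (ep n - sol K s n) (sol K s n)
        simpa using this
      have := hle n
      linarith
    rw [← hfin n, round_sub_intCast]
    have h5 : round (ep n) = 0 := by
      rw [round_eq_zero_iff]
      rw [abs_lt] at h3
      exact ⟨by linarith [h3.1], h3.2⟩
    rw [h5]
    congr 1
    push_cast
    ring
  refine ⟨ep 0, ?_⟩
  set u : ℕ → ℝ := fun n => |ep 0 * α ^ n - round (ep 0 * α ^ n)| with hu
  have hbd : IsBoundedUnder (· ≤ ·) atTop u := isBoundedUnder_of ⟨1 / 2, fun n => abs_sub_round _⟩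
  have hcb : IsCoboundedUnder (· ≤ ·) atTop u :=
    (isBoundedUnder_of ⟨0, fun n => abs_nonneg _⟩ : IsBoundedUnder (· ≥ ·) atTop u).isCoboundedUnder_le
  obtain ⟨n0, hn0⟩ := hex
  have hsolper : ∀ k : ℕ, ∀ n : ℤ, sol K s (n + k * p) = sol K s n := by
    intro k n
    have h1 := hshift s (k * p : ℤ) n
    rw [← h1]
    congr 1
    funext m
    exact hper.nat_mul k m
  apply le_antisymm
  · -- v ≤ limsup
    refine le_of_forall_pos_le_add fun ε hε => ?_
    rw [← sub_le_iff_le_add]
    refine le_limsup_of_frequently_le ?_ hbd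
    have h1 : ∀ᶠ n : ℕ in atTop, |ep n - sol K s n| < ε := by
      have h2 := htend.abs
      rw [abs_zero] at h2
      exact h2.eventually (gt_mem_nhds hε)
    have h3 : ∃ᶠ n : ℕ in atTop, |sol K s n| = v := by
      rw [frequently_atTop]
      intro N
      have hp' : (1 : ℤ) ≤ p := by exact_mod_cast hp
      have hpos : 0 ≤ n0 + ((N + n0.natAbs : ℕ) : ℤ) * p := by
        have h4 : (n0.natAbs : ℤ) = |n0| := Int.natCast_natAbs n0
        have h5 := neg_abs_le n0
        push_cast
        nlinarith [abs_nonneg n0]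
      obtain ⟨m, hm⟩ := Int.eq_ofNat_of_zero_le hpos
      refine ⟨m, ?_, ?_⟩
      · have h4 : (n0.natAbs : ℤ) = |n0| := Int.natCast_natAbs n0
        have h5 := neg_abs_le n0
        have h6 : (N : ℤ) ≤ m := by
          have h7 : ((N + n0.natAbs : ℕ) : ℤ) ≤ ((N + n0.natAbs : ℕ) : ℤ) * p := by
            nlinarith [Int.natCast_nonneg (N + n0.natAbs)]
          have h8 : (m : ℤ) = n0 + ((N + n0.natAbs : ℕ) : ℤ) * p := hm.symm
          push_cast at h7 h8
          omega
        exact_mod_cast h6
      · have h8 : (m : ℤ) = n0 + ((N + n0.natAbs : ℕ) : ℤ) * p := hm.symm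
        rw [h8, hsolper]
        exact hn0
    refine (h3.and_eventually (h1.and hev)).mono fun n hn => ?_
    obtain ⟨h4, h5, h6⟩ := hn
    change v - ε ≤ u n
    simp only [hu]
    rw [h6]
    have h7 : |sol K s n| ≤ |ep n - sol K s n| + |ep n| := by
      have := abs_sub_abs_le_abs_sub (sol K s n) (ep n)
      rw [abs_sub_comm] at this
      linarith
    linarith
  · refine le_of_forall_pos_le_add fun ε hε => ?_
    refine limsup_le_of_le hcb ?_
    have h1 : ∀ᶠ n : ℕ in atTop, |ep n - sol K s n| < ε := by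
      have h2 := htend.abs
      rw [abs_zero] at h2
      exact h2.eventually (gt_mem_nhds hε)
    filter_upwards [h1, hev] with n hn hn2
    change u n ≤ v + ε
    simp only [hu]
    rw [hn2]
    have h4 : |ep n| ≤ |ep n - sol K s n| + |sol K s n| := by
      have := abs_add_le (ep n - sol K s n) (sol K s n)
      simpa using this
    have := hle n
    linarith

end Pool.Agent.NH77.MS.SpecPer
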