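import Pool.Agent.NH77.MS.Stm

/-!
# A free pair of words gives infinitely many values of the spectrum (MP_ae43c0_nt)
-/

set_option autoImplicit false

namespace Pool.Agent.NH77.MS.Step

open Filter Topology Polynomial Pool.Agent.NH77.MS

theorem cc_bdd {L : ℕ} (hL : 0 < L) (w : Bool → ℕ → ℤ) :
    ∃ M : ℤ, 0 ≤ M ∧ ∀ σ n, |cc L w σ n| ≤ M := by
  refine ⟨∑ r ∈ Finset.range L, (|w true r| + |w false r|),
    Finset.sum_nonneg fun _ _ => by positivity, fun σ n => ?_⟩
  have hL' : (0 : ℤ) < L := by exact_mod_cast hL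
  have h0 := Int.emod_nonneg n hL'.ne'
  have h1 := Int.emod_lt_of_pos n hL'
  have hr : (n % (L : ℤ)).toNat ∈ Finset.range L := by
    rw [Finset.mem_range]
    omega
  refine le_trans ?_ (Finset.single_le_sum (f := fun r => |w true r| + |w false r|)
    (fun _ _ => by positivity) hr)
  unfold cc
  have p1 := abs_nonneg (w true (n % (L : ℤ)).toNat)
  have p2 := abs_nonneg (w false (n % (L : ℤ)).toNat)
  cases σ (n / (L : ℤ)) <;> simp

/-- splicing of two sequences of signs -/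
def spl (a : ℤ) (σ ρ : ℤ → Bool) : ℤ → Bool := fun i => if i < a then σ i else ρ (i - a)

theorem cc_spl_lt {L : ℕ} (hL : 0 < L) (w : Bool → ℕ → ℤ) (a : ℤ) (σ ρ : ℤ → Bool) {n : ℤ}
    (h : n < a * L) : cc L w (spl a σ ρ) n = cc L w σ n := by
  have hL' : (0 : ℤ) < L := by exact_mod_cast hL
  unfold cc spl
  rw [if_pos ((Int.ediv_lt_iff_lt_mul hL').mpr h)]

theorem cc_spl_ge {L : ℕ} (hL : 0 < L) (w : Bool → ℕ → ℤ) (a : ℤ) (σ ρ : ℤ → Bool) {n : ℤ}
    (h : a * L ≤ n) : cc L w (spl a σ ρ) n = cc L w ρ (n - a * L) := by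
  have hL' : (0 : ℤ) < L := by exact_mod_cast hL
  unfold cc spl
  have h1 : ¬ n / (L : ℤ) < a := by
    rw [Int.ediv_lt_iff_lt_mul hL']
    omega
  have e : n - a * L = n + (-a) * L := by ring
  rw [if_neg h1, e, Int.add_mul_ediv_right _ _ hL'.ne', Int.add_mul_emod_self_right]
  rfl

/-- the periodic continuation -/
def per (N : ℕ) (σ : ℤ → Bool) : ℤ → Bool := fun i => σ ((i + N) % (2 * N + 1) - N)

theorem cc_per_eq {L : ℕ} (hL : 0 < L) (w : Bool → ℕ → ℤ) (N : ℕ) (σ : ℤ → Bool) {n : ℤ}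
    (h1 : -(N * L : ℤ) ≤ n) (h2 : n < (N + 1) * L) : cc L w (per N σ) n = cc L w σ n := by
  have hL' : (0 : ℤ) < L := by exact_mod_cast hL
  unfold cc per
  have h3 : n / (L : ℤ) < N + 1 := (Int.ediv_lt_iff_lt_mul hL').mpr h2
  have h4 : -(N : ℤ) ≤ n / (L : ℤ) := by
    rw [Int.le_ediv_iff_mul_le hL']
    linarith
  rw [Int.emod_eq_of_lt (by omega) (by omega)]
  congr 2
  ring

theorem cc_per_per {L : ℕ} (hL : 0 < L) (w : Bool → ℕ → ℤ) (N : ℕ) (σ : ℤ → Bool) (n : ℤ) :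
    cc L w (per N σ) (n + (((2 * N + 1) * L : ℕ) : ℤ)) = cc L w (per N σ) n := by
  have hL' : (0 : ℤ) < L := by exact_mod_cast hL
  unfold cc per
  have e : n + (((2 * N + 1) * L : ℕ) : ℤ) = n + (2 * N + 1) * L := by push_cast; ring
  rw [e, Int.add_mul_ediv_right _ _ hL'.ne', Int.add_mul_emod_self_right]
  have e2 : n / (L : ℤ) + (2 * N + 1) + N = (n / (L : ℤ) + N) + (2 * N + 1) := by ring
  rw [e2, Int.add_emod_right]

theorem exists_pow {ρ A ε : ℝ} (h0 : 0 < ρ) (h1 : ρ < 1) (hε : 0 < ε) :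
    ∃ k0 : ℕ, ∀ k : ℕ, k0 ≤ k → A * ρ ^ k < ε := by
  have h : Tendsto (fun k : ℕ => A * ρ ^ k) atTop (𝓝 (A * 0)) :=
    (tendsto_pow_atTop_nhds_zero_of_lt_one h0.le h1).const_mul A
  rw [mul_zero] at h
  obtain ⟨k0, hk⟩ := (h.eventually_lt_const hε).exists_forall_of_atTop
  exact ⟨k0, fun k hk' => hk k hk'⟩

section
variable {α : ℝ} {P : ℤ[X]}

theorem rho_pos (K : Kern α P) : 0 < K.ρ :=
  lt_of_lt_of_le (inv_pos.mpr (by linarith [K.one_lt])) K.ρ_ge

/-- the bound in the window lemma -/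
theorem win_bound (K : Kern α P) {E : ℝ} (hE : 0 < E) {M : ℤ} (hM : 0 ≤ M) {u v : ℤ} {k : ℕ}
    (hu : (k : ℤ) ≤ u) (hv : (k : ℤ) ≤ -v) :
    E * M * (K.ρ ^ u + α ^ v) ≤ 2 * E * M * K.ρ ^ k := by
  have hr := rho_pos K
  have hM' : (0 : ℝ) ≤ M := by exact_mod_cast hM
  have ha : 0 < α := by linarith [K.one_lt]
  have h1 : K.ρ ^ u ≤ K.ρ ^ k := by
    rw [← zpow_natCast K.ρ k]
    exact zpow_le_zpow_right_of_le_one₀ hr K.ρ_lt.le hu
  have h2 : α ^ v ≤ K.ρ ^ k := by
    have e : α ^ v = (α⁻¹) ^ (-v) := by rw [inv_zpow', neg_neg]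
    rw [e, ← zpow_natCast K.ρ k]
    calc (α⁻¹) ^ (-v) ≤ (α⁻¹) ^ (k : ℤ) :=
          zpow_le_zpow_right_of_le_one₀ (inv_pos.mpr ha) (inv_le_one_of_one_le₀ K.one_lt.le) hv
      _ ≤ K.ρ ^ (k : ℤ) := by
          rw [zpow_natCast, zpow_natCast]
          exact pow_le_pow_left₀ (inv_pos.mpr ha).le K.ρ_ge k
  have h3 : 0 ≤ E * M := by positivity
  calc E * M * (K.ρ ^ u + α ^ v) ≤ E * M * (K.ρ ^ k + K.ρ ^ k) :=
        mul_le_mul_of_nonneg_left (add_le_add h1 h2) h3
    _ = _ := by ring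

/-- (A) approximation of the supremum by values of the spectrum -/
theorem stepA (hs : St_sol) (hw : St_window) (hp : St_specPer) (K : Kern α P) {L : ℕ}
    {w : Bool → ℕ → ℤ} {S : ℝ} (hL : 0 < L) (hS : S < 1 / 2) (hsup : SupLE K L w S)
    (hap : ∀ ε : ℝ, 0 < ε → ∃ σ n, S - ε < |sol K (cc L w σ) n|) {ε : ℝ} (hε : 0 < ε) :
    ∃ v ∈ Spec α, S - ε < v ∧ v ≤ S := by
  obtain ⟨-, -, -, hshift, -⟩ := hs α P K
  obtain ⟨E, hE, hwin⟩ := hw α P K
  obtain ⟨M, hM0, hM⟩ := cc_bdd hL w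
  obtain ⟨σ, n, hn⟩ := hap (ε / 2) (by linarith)
  have hM0' : (0 : ℝ) ≤ M := by exact_mod_cast hM0
  obtain ⟨k0, hk0⟩ := exists_pow (rho_pos K) K.ρ_lt (A := 2 * E * M)
    (show 0 < ε / 2 by linarith)
  set N : ℕ := n.natAbs + k0 with hN
  set s' : ℤ → ℤ := cc L w (per N σ) with hs'
  have hL1 : (1 : ℤ) ≤ L := by exact_mod_cast hL
  have hNL : (N : ℤ) ≤ N * L := le_mul_of_one_le_right (by positivity) hL1
  have hNL' : (N : ℤ) ≤ (N + 1) * L := by nlinarith
  have hd : |sol K (cc L w σ) n - sol K s' n| < ε / 2 := by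
    have h1 := hwin (cc L w σ) s' M (hM σ) (hM _) (-(N * L)) ((N + 1) * L)
      (fun i h1 h2 => (cc_per_eq hL w N σ h1 h2).symm) n (by omega) (by omega)
    refine h1.trans_lt (lt_of_le_of_lt (win_bound K hE hM0 (k := k0) (by omega) (by omega))
      (hk0 k0 le_rfl))
  -- the maximum over a period
  set p : ℕ := (2 * N + 1) * L with hp'
  have hp0 : 0 < p := by positivity
  have hper : ∀ m, s' (m + p) = s' m := fun m => cc_per_per hL w N σ m
  have hsolper : ∀ m, sol K s' (m + p) = sol K s' m := by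
    intro m
    rw [← hshift s' p m]
    congr 1
    funext i
    exact hper i
  obtain ⟨n1, -, hn1⟩ := Finset.exists_max_image (Finset.range p)
    (fun i => |sol K s' (i : ℤ)|) ⟨0, Finset.mem_range.mpr hp0⟩
  have hmul : ∀ (c : ℕ) (m : ℤ), sol K s' (m + c * p) = sol K s' m := by
    intro c
    induction c with
    | zero => intro m; simp
    | succ c ih =>
      intro m
      have : m + ((c + 1 : ℕ) : ℤ) * p = (m + c * p) + p := by push_cast; ring
      rw [this, hsolper, ih]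
  have hall : ∀ m : ℤ, |sol K s' m| ≤ |sol K s' (n1 : ℤ)| := by
    intro m
    have hp1 : (0 : ℤ) < p := by exact_mod_cast hp0
    have h0 := Int.emod_nonneg m hp1.ne'
    have h1 := Int.emod_lt_of_pos m hp1
    have h2 : sol K s' m = sol K s' (((m % p).toNat : ℕ) : ℤ) := by
      have h3 : (((m % p).toNat : ℕ) : ℤ) = m % p := Int.toNat_of_nonneg h0
      rw [h3]
      have h4 := Int.emod_add_mul_ediv m p
      rcases le_total 0 (m / (p : ℤ)) with h5 | h5
      · have h6 := hmul (m / (p : ℤ)).toNat (m % p)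
        rw [Int.toNat_of_nonneg h5] at h6
        rw [← h6]
        congr 1
        linarith
      · have h6 := hmul (-(m / (p : ℤ))).toNat m
        rw [Int.toNat_of_nonneg (by omega)] at h6
        rw [← h6]
        congr 1
        linarith
    rw [h2]
    exact hn1 _ (Finset.mem_range.mpr (by omega))
  have hle : |sol K s' (n1 : ℤ)| ≤ S := hsup _ _
  refine ⟨|sol K s' (n1 : ℤ)|, hp α P K s' p _ hp0 hper (hle.trans_lt hS) hall ⟨n1, rfl⟩, ?_, hle⟩
  have h1 := hall n
  have h2 : |sol K (cc L w σ) n| - |sol K s' n| ≤ |sol K (cc L w σ) n - sol K s' n| :=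
    abs_sub_abs_le_abs_sub _ _
  linarith

/-- the four sequences of signs -/
def sg (k : Bool × Bool) : ℤ → Bool := fun j => if j < 0 then true else if j = 0 then k.1 else k.2

theorem cc_sg_neg {L : ℕ} (hL : 0 < L) (w : Bool → ℕ → ℤ) (k k' : Bool × Bool) {n : ℤ}
    (h : n < 0) : cc L w (sg k) n = cc L w (sg k') n := by
  have hL' : (0 : ℤ) < L := by exact_mod_cast hL
  unfold cc sg
  have h1 : n / (L : ℤ) < 0 := Int.ediv_neg_of_neg_of_pos h hL'
  rw [if_pos h1, if_pos h1]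

theorem cc_sg_ne {L : ℕ} (hL : 0 < L) {w : Bool → ℕ → ℤ} (hw : Free L w) {k k' : Bool × Bool}
    (hk : k ≠ k') : ∃ i : ℤ, 0 ≤ i ∧ i < 2 * L ∧ cc L w (sg k) i ≠ cc L w (sg k') i := by
  obtain ⟨r, hr, hne⟩ := hw
  have hL' : (0 : ℤ) < L := by exact_mod_cast hL
  have hbb : ∀ a b : Bool, a ≠ b → w a r ≠ w b r := by
    intro a b hab
    cases a <;> cases b
    · exact absurd rfl hab
    · exact hne.symm
    · exact hne
    · exact absurd rfl hab
  have hval : ∀ (c : ℤ) (κ : Bool × Bool), cc L w (sg κ) (r + c * L) = w (sg κ c) r := by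
    intro c κ
    unfold cc
    rw [Int.add_mul_ediv_right _ _ hL'.ne', Int.add_mul_emod_self_right,
      Int.ediv_eq_zero_of_lt (by omega) (by omega), Int.emod_eq_of_lt (by omega) (by omega),
      zero_add, Int.toNat_natCast]
  by_cases h1 : k.1 = k'.1
  · have h2 : k.2 ≠ k'.2 := fun h => hk (Prod.ext h1 h)
    refine ⟨r + 1 * L, by omega, by omega, ?_⟩
    rw [hval, hval]
    apply hbb
    unfold sg
    simpa using h2
  · refine ⟨r + 0 * L, by omega, by omega, ?_⟩
    rw [hval, hval]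
    apply hbb
    unfold sg
    simpa using h1

/-- four separated numbers in increasing order -/
theorem four {x : Bool × Bool → ℝ} {g : ℝ} (h : ∀ k k', k ≠ k' → g ≤ |x k - x k'|) :
    ∃ k1 k2 k3 k4, x k1 + g ≤ x k2 ∧ x k2 + g ≤ x k3 ∧ x k3 + g ≤ x k4 ∧ k2 ≠ k3 := by
  let e : Fin 4 ≃ Bool × Bool := Fintype.equivOfCardEq (by simp)
  let y : Fin 4 → ℝ := fun i => x (e i)
  have hm := Tuple.monotone_sort y
  have key : ∀ i j : Fin 4, i < j → y (Tuple.sort y i) + g ≤ y (Tuple.sort y j) := by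
    intro i j hij
    have h1 : y (Tuple.sort y i) ≤ y (Tuple.sort y j) := hm hij.le
    have h2 := h (e (Tuple.sort y i)) (e (Tuple.sort y j)) (fun h3 =>
      hij.ne ((Tuple.sort y).injective (e.injective h3)))
    rw [abs_of_nonpos (by change y _ - y _ ≤ 0; linarith)] at h2
    change g ≤ -(y _ - y _) at h2
    linarith
  refine ⟨_, _, _, _, key 0 1 (by decide), key 1 2 (by decide), key 2 3 (by decide), fun h3 => ?_⟩
  exact absurd ((Tuple.sort y).injective (e.injective h3)) (by decide)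

/-- concatenations of long words are concatenations -/
theorem cc_long {L N : ℕ} (hL : 0 < L) (hN : 0 < N) (w : Bool → ℕ → ℤ) (η : Bool → ℤ → Bool)
    (τ : ℤ → Bool) (n : ℤ) :
    cc (N * L) (fun b r => cc L w (η b) (r : ℤ)) τ n =
      cc L w (fun i => η (τ (i / (N : ℤ))) (i % (N : ℤ))) n := by
  have hL' : (0 : ℤ) < L := by exact_mod_cast hL
  have hN' : (0 : ℤ) < N := by exact_mod_cast hN
  have hNL : (0 : ℤ) < N * L := by positivity
  have h0 := Int.emod_nonneg n hNL.ne'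
  have h1 := Int.emod_lt_of_pos n hNL
  have h2 := Int.emod_add_mul_ediv n (N * L)
  obtain ⟨q, hq⟩ : ∃ q, q = n / ((N : ℤ) * L) := ⟨_, rfl⟩
  obtain ⟨r, hr⟩ : ∃ r, r = n % ((N : ℤ) * L) := ⟨_, rfl⟩
  rw [← hq, ← hr] at h2
  rw [← hr] at h0 h1
  have e1 : n = r + (N * q) * L := by linarith
  have e2 : n / (L : ℤ) = r / L + N * q := by
    rw [e1, Int.add_mul_ediv_right _ _ hL'.ne']
  have e3 : n % (L : ℤ) = r % L := by
    rw [e1, Int.add_mul_emod_self_right]
  have h3 : 0 ≤ r / (L : ℤ) := Int.ediv_nonneg h0 hL'.le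
  have h4 : r / (L : ℤ) < N := (Int.ediv_lt_iff_lt_mul hL').mpr h1
  have e4 : (n / (L : ℤ)) / N = q := by
    rw [e2, Int.add_mul_ediv_left _ _ hN'.ne', Int.ediv_eq_zero_of_lt h3 h4, zero_add]
  have e5 : (n / (L : ℤ)) % N = r / L := by
    rw [e2, Int.add_mul_emod_self_left, Int.emod_eq_of_lt h3 h4]
  change w (η (τ (n / ((N * L : ℕ) : ℤ)))
    ((((n % ((N * L : ℕ) : ℤ)).toNat : ℕ) : ℤ) / (L : ℤ)))
    (((((n % ((N * L : ℕ) : ℤ)).toNat : ℕ) : ℤ) % (L : ℤ)).toNat) =
    w (η (τ (n / (L : ℤ) / (N : ℤ))) (n / (L : ℤ) % (N : ℤ))) (n % (L : ℤ)).toNat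
  rw [e4, e5, e3, Nat.cast_mul, ← hq, ← hr, Int.toNat_of_nonneg h0]

/-- (B) a pair with a smaller supremum -/
theorem stepB (hs : St_sol) (hw : St_window) (h3 : St_past3) (hg : St_gap) (K : Kern α P) {L : ℕ}
    {w : Bool → ℕ → ℤ} {S : ℝ} (hL : 0 < L) (hfree : Free L w) (hS : S < 1 / 2)
    (hsup : SupLE K L w S) : ∃ (L' : ℕ) (w' : Bool → ℕ → ℤ) (δ : ℝ), 0 < δ ∧ 0 < L' ∧
      Free L' w' ∧ SupLE K L' w' (S - δ) := by
  obtain ⟨-, -, -, hshift, hsub⟩ := hs α P K
  obtain ⟨E, hE, hwin⟩ := hw α P K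
  obtain ⟨M, hM0, hM⟩ := cc_bdd hL w
  have hα := K.one_lt
  have hα0 : 0 < α := by linarith
  have hL1 : (1 : ℤ) ≤ L := by exact_mod_cast hL
  have hXX : ∀ σ, cc L w σ ∈ XX K S := fun σ => ⟨⟨M, hM σ⟩, fun n => hsup σ n⟩
  obtain ⟨g, hgdef⟩ : ∃ g, g = (1 - 2 * S) * α ^ (-((P.natDegree : ℤ) + (2 * L : ℕ))) := ⟨_, rfl⟩
  have hg0 : 0 < g := by
    rw [hgdef]
    exact mul_pos (by linarith) (zpow_pos hα0 _)
  have hsep : ∀ k k' : Bool × Bool, k ≠ k' →
      g ≤ |sol K (cc L w (sg k)) 0 - sol K (cc L w (sg k')) 0| := by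
    intro k k' hk
    rw [hgdef]
    refine hg α P K S hS _ (hXX _) _ (hXX _) 0 (2 * L) (fun i hi => cc_sg_neg hL w k k' hi) ?_
    obtain ⟨i, h1, h2, h4⟩ := cc_sg_ne hL hfree hk
    exact ⟨i, h1, by push_cast; linarith, h4⟩
  obtain ⟨k1, k2, k3, k4, o1, o2, o3, hk23⟩ := four hsep
  obtain ⟨k0, hk0⟩ := exists_pow (rho_pos K) K.ρ_lt (A := 2 * E * M)
    (show 0 < g / 2 by linarith)
  obtain ⟨N, hN⟩ : ∃ N, N = k0 + 2 := ⟨_, rfl⟩
  have hN0 : 0 < N := by omega
  have hNL : (N : ℤ) ≤ N * L := le_mul_of_one_le_right (by positivity) hL1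
  obtain ⟨ks, hks⟩ : ∃ ks : Bool → Bool × Bool, ks = fun b => if b then k2 else k3 := ⟨_, rfl⟩
  have hks1 : ∀ b, g ≤ sol K (cc L w (sg k4)) 0 - sol K (cc L w (sg (ks b))) 0 := by
    intro b
    rw [hks]
    cases b <;> simp <;> linarith
  have hks2 : ∀ b, g ≤ sol K (cc L w (sg (ks b))) 0 - sol K (cc L w (sg k1)) 0 := by
    intro b
    rw [hks]
    cases b <;> simp <;> linarith
  refine ⟨N * L, fun b r => cc L w (sg (ks b)) (r : ℤ),
    α ^ (-((N * L : ℕ) : ℤ)) * (g / 2), mul_pos (zpow_pos hα0 _) (by linarith), by positivity,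
    ?_, ?_⟩
  · obtain ⟨i, h1, h2, h4⟩ := cc_sg_ne hL hfree hk23
    refine ⟨i.toNat, ?_, ?_⟩
    · have h5 : (2 : ℤ) * L ≤ N * L := by
        have : (2 : ℤ) ≤ N := by exact_mod_cast (by omega : 2 ≤ N)
        nlinarith
      zify
      rw [Int.toNat_of_nonneg h1]
      omega
    · simp only
      rw [Int.toNat_of_nonneg h1, hks]
      exact h4
  · intro τ n
    obtain ⟨σ, hσ⟩ : ∃ σ : ℤ → Bool, σ = fun i => sg (ks (τ (i / (N : ℤ)))) (i % (N : ℤ)) :=
      ⟨_, rfl⟩
    have hz : cc (N * L) (fun b r => cc L w (sg (ks b)) (r : ℤ)) τ = cc L w σ := by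
      funext i
      rw [hσ]
      exact cc_long hL hN0 w (fun b => sg (ks b)) τ i
    have hNL0 : (0 : ℤ) < N * L := by positivity
    obtain ⟨Q, hQ⟩ : ∃ Q, Q = n / ((N : ℤ) * L) + 1 := ⟨_, rfl⟩
    obtain ⟨c, hc⟩ : ∃ c, c = Q * (N * L) := ⟨_, rfl⟩
    have hca : c = (Q * N) * L := by rw [hc]; ring
    have hnc : n < c ∧ c ≤ n + N * L := by
      have e1 := Int.emod_nonneg n hNL0.ne'
      have e2 := Int.emod_lt_of_pos n hNL0
      have e3 := Int.emod_add_mul_ediv n (N * L)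
      have e4 : c = N * L * (n / ((N : ℤ) * L)) + N * L := by rw [hc, hQ]; ring
      constructor <;> linarith
    -- the spliced sequences
    have a1 : ∀ κ, ∀ i < c, cc L w σ i = cc L w (spl (Q * N) σ (sg κ)) i := by
      intro κ i hi
      rw [cc_spl_lt hL w _ _ _ (by rw [← hca]; exact hi)]
    have a2 : ∀ i, c - N * L ≤ i → i < c + N * L →
        cc L w (spl (Q * N) σ (sg (ks (τ Q)))) i = cc L w σ i := by
      intro i h1 h2
      rcases lt_or_ge i c with h5 | h5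
      · rw [cc_spl_lt hL w _ _ _ (by rw [← hca]; exact h5)]
      · rw [cc_spl_ge hL w _ _ _ (by rw [← hca]; exact h5), ← hca, ← hz]
        unfold cc
        have e1 : i = (i - c) + Q * (N * L) := by rw [hc]; ring
        have e2 : i / ((N : ℤ) * L) = Q := by
          have := congrArg (fun y : ℤ => y / ((N : ℤ) * L)) e1
          rw [this, Int.add_mul_ediv_right _ _ hNL0.ne',
            Int.ediv_eq_zero_of_lt (by omega) (by omega), zero_add]
        have e3 : i % ((N : ℤ) * L) = i - c := by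
          have := congrArg (fun y : ℤ => y % ((N : ℤ) * L)) e1
          rw [this, Int.add_mul_emod_self_right, Int.emod_eq_of_lt (by omega) (by omega)]
        push_cast
        rw [e2, e3, Int.toNat_of_nonneg (by omega)]
    have a3 : ∀ κ κ', sol K (cc L w (spl (Q * N) σ (sg κ))) c -
        sol K (cc L w (spl (Q * N) σ (sg κ'))) c =
        sol K (cc L w (sg κ)) 0 - sol K (cc L w (sg κ')) 0 := by
      intro κ κ'
      rw [← hsub _ _ M (hM _) (hM _), ← hsub _ _ M (hM _) (hM _)]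
      have e1 := hshift (fun m => cc L w (sg κ) m - cc L w (sg κ') m) (-c) c
      rw [add_neg_cancel] at e1
      rw [← e1]
      congr 1
      funext m
      rcases lt_or_ge m c with h5 | h5
      · rw [← a1 κ m h5, ← a1 κ' m h5, cc_sg_neg hL w κ κ' (show m + -c < 0 by omega), sub_self,
          sub_self]
      · rw [cc_spl_ge hL w _ _ _ (by rw [← hca]; exact h5),
          cc_spl_ge hL w _ _ _ (by rw [← hca]; exact h5), ← hca]
        rfl
    have a4 : |sol K (cc L w (spl (Q * N) σ (sg (ks (τ Q))))) c - sol K (cc L w σ) c| < g / 2 := by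
      refine (hwin _ _ M (hM _) (hM _) (c - N * L) (c + N * L) a2 c (by omega)
        (by omega)).trans_lt (lt_of_le_of_lt (win_bound K hE hM0 (k := k0) ?_ ?_) (hk0 k0 le_rfl))
      · have : (k0 : ℤ) ≤ N := by exact_mod_cast (by omega : k0 ≤ N)
        linarith
      · have : (k0 : ℤ) ≤ N := by exact_mod_cast (by omega : k0 ≤ N)
        linarith
    have a5 : ∀ κ, sol K (cc L w (spl (Q * N) σ (sg κ))) n - sol K (cc L w σ) n =
        α ^ (n - c) * (sol K (cc L w (spl (Q * N) σ (sg κ))) c - sol K (cc L w σ) c) := by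
      intro κ
      exact h3 α P K _ _ M (hM _) (hM _) c (a1 κ) n (by omega)
    have a6 : α ^ (-((N * L : ℕ) : ℤ)) ≤ α ^ (n - c) := by
      refine zpow_le_zpow_right₀ hα.le ?_
      push_cast
      linarith
    have a7 := hks1 (τ Q)
    have a8 := hks2 (τ Q)
    rw [← a3] at a7 a8
    rw [abs_lt] at a4
    have hpos : 0 < α ^ (n - c) := zpow_pos hα0 _
    have a9 : α ^ (-((N * L : ℕ) : ℤ)) * (g / 2) ≤ α ^ (n - c) * (g / 2) :=
      mul_le_mul_of_nonneg_right a6 (by linarith)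
    have b1 : α ^ (n - c) * (g / 2) ≤
        sol K (cc L w (spl (Q * N) σ (sg k4))) n - sol K (cc L w σ) n := by
      rw [a5]
      exact mul_le_mul_of_nonneg_left (by linarith) hpos.le
    have b2 : sol K (cc L w (spl (Q * N) σ (sg k1))) n - sol K (cc L w σ) n ≤
        -(α ^ (n - c) * (g / 2)) := by
      rw [a5, ← mul_neg]
      exact mul_le_mul_of_nonneg_left (by linarith) hpos.le
    have b3 := (abs_le.mp (hsup (spl (Q * N) σ (sg k4)) n)).2
    have b4 := (abs_le.mp (hsup (spl (Q * N) σ (sg k1)) n)).1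
    rw [hz, abs_le]
    constructor <;> linarith

end

/-- the values of the spectrum below `V` are infinitely many -/
theorem step : St_sol → St_XX → St_window → St_past3 → St_gap → St_specPer → St_step := by
  intro hs _ hw h3 hg hp α P K L w V hL hfree hV hsup
  by_contra hfin
  rw [Set.not_infinite] at hfin
  -- strong induction over the number of values
  have key : ∀ m : ℕ, ∀ (L : ℕ) (w : Bool → ℕ → ℤ) (V : ℝ), (Spec α ∩ Set.Iic V).Finite →
      (Spec α ∩ Set.Iic V).ncard = m → 0 < L → Free L w → V < 1 / 2 → SupLE K L w V → False := by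
    intro m
    induction m using Nat.strong_induction_on with
    | _ m ih =>
      intro L w V hfin hcard hL hfree hV hsup
      obtain ⟨T, hT⟩ : ∃ T : Set ℝ, T = {v | ∃ σ n, v = |sol K (cc L w σ) n|} := ⟨_, rfl⟩
      have hTne : T.Nonempty := by
        rw [hT]
        exact ⟨_, fun _ => true, 0, rfl⟩
      have hTb : V ∈ upperBounds T := by
        rw [hT]
        rintro v ⟨σ, n, rfl⟩
        exact hsup σ n
      obtain ⟨S, hSdef⟩ : ∃ S, S = sSup T := ⟨_, rfl⟩
      have hSV : S ≤ V := by rw [hSdef]; exact csSup_le hTne hTb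
      have hS2 : S < 1 / 2 := by linarith
      have hsupS : SupLE K L w S := by
        intro σ n
        rw [hSdef]
        exact le_csSup ⟨V, hTb⟩ (by rw [hT]; exact ⟨σ, n, rfl⟩)
      have hap : ∀ ε : ℝ, 0 < ε → ∃ σ n, S - ε < |sol K (cc L w σ) n| := by
        intro ε hε
        obtain ⟨v, hv, hlt⟩ := exists_lt_of_lt_csSup hTne (show S - ε < sSup T by
          rw [← hSdef]; linarith)
        rw [hT] at hv
        obtain ⟨σ, n, rfl⟩ := hv
        exact ⟨σ, n, hlt⟩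
      have hSS : S ∈ Spec α := by
        have hcl : IsClosed (Spec α ∩ Set.Iic V) := hfin.isClosed
        have : S ∈ closure (Spec α ∩ Set.Iic V) := by
          rw [Metric.mem_closure_iff]
          intro ε hε
          obtain ⟨v, hv, h1, h2⟩ := stepA hs hw hp K hL hS2 hsupS hap hε
          refine ⟨v, ⟨hv, h2.trans hSV⟩, ?_⟩
          rw [Real.dist_eq, abs_lt]
          constructor <;> linarith
        rw [hcl.closure_eq] at this
        exact this.1
      obtain ⟨L', w', δ, hδ, hL', hfree', hsup'⟩ := stepB hs hw h3 hg K hL hfree hS2 hsupS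
      have hss : Spec α ∩ Set.Iic (S - δ) ⊂ Spec α ∩ Set.Iic V := by
        rw [Set.ssubset_iff_of_subset]
        · refine ⟨S, ⟨hSS, hSV⟩, fun h => ?_⟩
          have := h.2
          rw [Set.mem_Iic] at this
          linarith
        · rintro v ⟨h1, h2⟩
          rw [Set.mem_Iic] at h2
          exact ⟨h1, by rw [Set.mem_Iic]; linarith⟩
      have hlt : (Spec α ∩ Set.Iic (S - δ)).ncard < m := by
        rw [← hcard]
        exact Set.ncard_lt_ncard hss hfin
      exact ih _ hlt L' w' (S - δ) (hfin.subset hss.subset) rfl hL' hfree' (by linarith) hsup'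
  exact key _ L w V hfin rfl hL hfree hV hsup

end Pool.Agent.NH77.MS.Step
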