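import Pool.Agent.NH77.MS.Def

/-!
# Statements of the modules (MP_ae43c0_nt)
-/

namespace Pool.Agent.NH77.MS

open Filter Topology Polynomial

/-- M1: the fundamental solution exists. -/
def St_kern : Prop := ∀ α : ℝ, IsPisot α → Nonempty (Kern α (minpoly ℤ α))

/-- M2a: bounded solutions. -/
def St_sol : Prop := ∀ (α : ℝ) (P : ℤ[X]) (K : Kern α P),
  (∃ D : ℝ, 0 < D ∧ ∀ (s : ℤ → ℤ) (M : ℤ), (∀ n, |s n| ≤ M) → ∀ n, |sol K s n| ≤ D * M) ∧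
  (∀ (s : ℤ → ℤ) (M : ℤ), (∀ n, |s n| ≤ M) → ∀ n, recz P (sol K s) n = s n) ∧
  (∀ (s : ℤ → ℤ) (M : ℤ), (∀ n, |s n| ≤ M) → ∀ (e : ℤ → ℝ) (B : ℝ), (∀ n, |e n| ≤ B) →
    (∀ n, recz P e n = s n) → ∀ n, sol K s n = e n) ∧
  (∀ (s : ℤ → ℤ) (c n : ℤ), sol K (fun m => s (m + c)) n = sol K s (n + c)) ∧
  (∀ (s s' : ℤ → ℤ) (M : ℤ), (∀ n, |s n| ≤ M) → (∀ n, |s' n| ≤ M) →
    ∀ n, sol K (fun m => s m - s' m) n = sol K s n - sol K s' n)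

/-- M2b: description of `XX` by real sequences, and a bound for its members. -/
def St_XX : Prop := ∀ (α : ℝ) (P : ℤ[X]) (K : Kern α P),
  (∀ (t : ℝ) (s : ℤ → ℤ), s ∈ XX K t ↔ ∃ e : ℤ → ℝ, (∀ n, |e n| ≤ t) ∧ ∀ n, recz P e n = s n) ∧
  (∃ M : ℤ, 0 < M ∧ ∀ t : ℝ, t ≤ 1 / 2 → ∀ s ∈ XX K t, ∀ n, |s n| ≤ M) ∧
  (∀ (t : ℝ) (s : ℤ → ℤ) (c : ℤ), s ∈ XX K t → (fun m => s (m + c)) ∈ XX K t)

/-- M2c: two bounded sequences which agree before `j`. -/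
def St_past3 : Prop := ∀ (α : ℝ) (P : ℤ[X]) (K : Kern α P) (s s' : ℤ → ℤ) (M : ℤ),
  (∀ n, |s n| ≤ M) → (∀ n, |s' n| ≤ M) → ∀ j : ℤ, (∀ i < j, s i = s' i) →
  ∀ n : ℤ, n < j + P.natDegree →
    sol K s' n - sol K s n = α ^ (n - j) * (sol K s' j - sol K s j)

/-- M2d: two bounded sequences which agree on `[j₁, j₂)`. -/
def St_window : Prop := ∀ (α : ℝ) (P : ℤ[X]) (K : Kern α P),
  ∃ E : ℝ, 0 < E ∧ ∀ (s s' : ℤ → ℤ) (M : ℤ), (∀ n, |s n| ≤ M) → (∀ n, |s' n| ≤ M) →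
    ∀ j₁ j₂ : ℤ, (∀ i, j₁ ≤ i → i < j₂ → s i = s' i) →
    ∀ n : ℤ, j₁ ≤ n → n ≤ j₂ →
      |sol K s n - sol K s' n| ≤ E * M * (K.ρ ^ (n - j₁) + α ^ (n - j₂))

/-- M2e: different continuations of the same past have well separated solutions. -/
def St_gap : Prop := ∀ (α : ℝ) (P : ℤ[X]) (K : Kern α P) (t : ℝ), t < 1 / 2 →
  ∀ s ∈ XX K t, ∀ s' ∈ XX K t, ∀ (j : ℤ) (r : ℕ), (∀ i < j, s i = s' i) →
    (∃ i, j ≤ i ∧ i < j + r ∧ s i ≠ s' i) →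
    (1 - 2 * t) * α ^ (-((P.natDegree : ℤ) + r)) ≤ |sol K s j - sol K s' j|

/-- M3: values of the spectrum are attained by two-sided sequences. -/
def St_specIn : Prop := ∀ (α : ℝ) (P : ℤ[X]) (K : Kern α P), ∀ v ∈ Spec α,
  ∃ s ∈ XX K v, |sol K s 0| = v

/-- M4: periodic sequences give values of the spectrum. -/
def St_specPer : Prop := ∀ (α : ℝ) (P : ℤ[X]) (K : Kern α P) (s : ℤ → ℤ) (p : ℕ) (v : ℝ),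
  0 < p → (∀ n, s (n + p) = s n) → v < 1 / 2 → (∀ n, |sol K s n| ≤ v) →
  (∃ n, |sol K s n| = v) → v ∈ Spec α

/-- M5a: the languages are finite, the counts submultiplicative and right continuous in `t`. -/
def St_lang : Prop := ∀ (P : ℤ[X]) (t : ℝ),
  (∀ n, (Lang P t n).Finite) ∧ (∀ m n, Nn P t (m + n) ≤ Nn P t m * Nn P t n) ∧
  (∀ n, ∃ δ > 0, ∀ t', t ≤ t' → t' ≤ t + δ → Nn P t' n ≤ Nn P t n)

/-- M5b: exponential growth of the language gives, for every `m`, a past with many futures. -/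
def St_past : Prop := ∀ (α : ℝ) (P : ℤ[X]) (K : Kern α P) (t lam : ℝ), t ≤ 1 / 2 → 1 < lam →
  (∀ n : ℕ, lam ^ n ≤ (Nn P t n : ℝ)) →
  ∀ m : ℕ, ∃ s ∈ XX K t, (Fut K t s m).Finite ∧ lam ^ m ≤ ((Fut K t s m).ncard : ℝ)

/-- M7: the combinatorial lemma. -/
def St_branch : Prop := ∀ (B T : Type) (k a l q Q e0 e1 : ℕ) (ν : ℝ) (F : Set (ℕ → B))
  (bad : (ℕ → B) → ℕ → Prop) (ty : (ℕ → B) → ℕ → T),
  0 < ν → 2 ≤ a → (e0 : ℝ) ≤ ν * e1 → e0 ≤ k → F.Finite →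
  (∀ w ∈ F, ∀ w' ∈ F, (∀ i < k, w i = w' i) → w = w') →
  (∀ w ∈ F, ∀ j < k, {b | ∃ w' ∈ F, (∀ i < j, w' i = w i) ∧ w' j = b}.ncard ≤ a) →
  (∀ w ∈ F, ∀ j < k, {b | ∃ w' ∈ F, (∀ i < j, w' i = w i) ∧ bad w' j ∧ w' j = b}.ncard ≤ 2) →
  {τ | ∃ w ∈ F, ∃ i ≤ k, ty w i = τ}.ncard ≤ Q →
  4 ^ k * a ^ (k - e0) + (k + 1) ^ (2 * Q) * a ^ (e1 + l + q + Q) < F.ncard →
  ∃ w ∈ F, ∃ w' ∈ F, ∃ i i' : ℕ, l ≤ i ∧ i < i' ∧ i' + q ≤ k ∧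
    HH bad k ν w i ∧ HH bad k ν w i' ∧ HH bad k ν w' i ∧ HH bad k ν w' i' ∧
    ty w i' = ty w i ∧ ty w' i = ty w i ∧ ty w' i' = ty w i ∧ ∃ r, i ≤ r ∧ r < i' ∧ w r ≠ w' r

/-- M8: exponential growth at `t` gives a free pair with sup strictly less than `t`. -/
def St_key : Prop := ∀ (α : ℝ) (P : ℤ[X]) (K : Kern α P) (t lam : ℝ), t < 1 / 2 → 1 < lam →
  (∀ n : ℕ, lam ^ n ≤ (Nn P t n : ℝ)) →
  ∃ (L : ℕ) (w : Bool → ℕ → ℤ) (V : ℝ), 0 < L ∧ Free L w ∧ V < t ∧ SupLE K L w V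

/-- M9: a free pair gives infinitely many values of the spectrum. -/
def St_step : Prop := ∀ (α : ℝ) (P : ℤ[X]) (K : Kern α P) (L : ℕ) (w : Bool → ℕ → ℤ) (V : ℝ),
  0 < L → Free L w → V < 1 / 2 → SupLE K L w V → (Spec α ∩ Set.Iic V).Infinite

/-- M10: small counts give a gap. -/
def St_cover : Prop := ∀ (α : ℝ) (P : ℤ[X]) (K : Kern α P) (t₀ t : ℝ), t₀ < t → t ≤ 1 / 2 →
  (∃ m : ℕ, 1 ≤ m ∧ (Nn P t m : ℝ) ^ 2 * K.ρ ^ m < 1) →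
  ∃ a b, t₀ ≤ a ∧ a < b ∧ b ≤ t ∧ Set.Ioo a b ∩ Spec α = ∅

/-- M11: exponential growth at `1 / (α - 1)` for `α > 3`. -/
def St_grow : Prop := ∀ (α : ℝ) (P : ℤ[X]) (_ : Kern α P), 3 < α →
  ∀ n : ℕ, (2 : ℝ) ^ n ≤ (Nn P (1 / (α - 1)) n : ℝ)

/-- The main theorem. -/
def St_main : Prop := ∀ α : ℝ, IsPisot α → 3 < α →
  ∃ t₀ : ℝ, IsLeast {t | AccPt t (𝓟 (Spec α))} t₀ ∧ t₀ < 1 / 2 ∧
    ∃ a b : ℝ, t₀ ≤ a ∧ a < b ∧ b ≤ 1 / 2 ∧ Set.Ioo a b ∩ Spec α = ∅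

end Pool.Agent.NH77.MS
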